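import Mathlib

/-!
The algebraic certificate for the Hopf type inequality of projective billiards: a quadratic form
with polynomial coefficients in `τ`, nonnegative for `|τ| ≤ 1`, and the polynomials of the null
Lagrangian.
-/

noncomputable section

namespace Pool.Agent.MP_ae5b4e_an_hopf

/-- the quadratic form -/
def QF (τ x y z w : ℝ) : ℝ :=
  (22 - 12 * τ + 22 * τ ^ 2) * x ^ 2 + 2 * (-2 + 14 * τ - 2 * τ ^ 2) * x * y +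
    (7 + 4 * τ + 7 * τ ^ 2) * y ^ 2 + (7 - 4 * τ + 7 * τ ^ 2) * z ^ 2 +
    2 * (-2 - 14 * τ - 2 * τ ^ 2) * z * w + (22 + 12 * τ + 22 * τ ^ 2) * w ^ 2 +
    2 * (-2 + 10 * τ + 2 * τ ^ 2 - 4 * τ ^ 3 - 6 * τ ^ 4) * x * z +
    2 * (-2 - 10 * τ + 2 * τ ^ 2 + 4 * τ ^ 3 - 6 * τ ^ 4) * y * w +
    2 * (22 - 30 * τ ^ 2 + 10 * τ ^ 4) * x * w +
    2 * (7 - 5 * τ ^ 2 + 2 * τ ^ 4) * y * z

/-- Bernstein coefficients -/
def b0 (a b c d : ℝ) : ℝ := 88 * a ^ 2 + 28 * b ^ 2 + 144 * c ^ 2 + 48 * d ^ 2 +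
  2 * (-8 * a * b - 32 * a * c + 8 * a * d + 40 * b * c - 16 * b * d)

def b1 (a b c d : ℝ) : ℝ := 80 * a ^ 2 + 30 * b ^ 2 + 120 * c ^ 2 + 56 * d ^ 2 +
  2 * (-8 * a * b - 36 * a * c + 20 * a * d + 36 * b * c - 20 * b * d)

def b2 (a b c d : ℝ) : ℝ := 92 * a ^ 2 + 36 * b ^ 2 + 96 * c ^ 2 + 64 * d ^ 2 +
  2 * (-20 * a * b - 40 * a * c + 32 * a * d + 32 * b * c - 24 * b * d)

lemma b0_nonneg (a b c d : ℝ) : 0 ≤ b0 a b c d := by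
  have h : b0 a b c d = 88 * (a - 1 / 11 * b - 4 / 11 * c + 1 / 11 * d) ^ 2 +
      300 / 11 * (b + 34 / 25 * c - 14 / 25 * d) ^ 2 +
      2048 / 25 * (c + 37 / 128 * d) ^ 2 + 255 / 8 * d ^ 2 := by
    unfold b0; ring
  rw [h]; positivity

lemma b1_nonneg (a b c d : ℝ) : 0 ≤ b1 a b c d := by
  have h : b1 a b c d = 80 * (a - 1 / 10 * b - 9 / 20 * c + 1 / 4 * d) ^ 2 +
      146 / 5 * (b + 81 / 73 * c - 45 / 73 * d) ^ 2 +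
      4953 / 73 * (c + 705 / 1651 * d) ^ 2 + 45456 / 1651 * d ^ 2 := by
    unfold b1; ring
  rw [h]; positivity

lemma b2_nonneg (a b c d : ℝ) : 0 ≤ b2 a b c d := by
  have h : b2 a b c d = 92 * (a - 5 / 23 * b - 10 / 23 * c + 8 / 23 * d) ^ 2 +
      728 / 23 * (b + 67 / 91 * c - 7 / 13 * d) ^ 2 +
      5592 / 91 * (c + 301 / 699 * d) ^ 2 + 22576 / 699 * d ^ 2 := by
    unfold b2; ring
  rw [h]; positivity

/-- The quadratic form is nonnegative. -/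
theorem QF_nonneg {τ : ℝ} (h1 : -1 ≤ τ) (h2 : τ ≤ 1) (x y z w : ℝ) : 0 ≤ QF τ x y z w := by
  set ε : ℝ := (x + y - z - w) / 4 with hε
  set a : ℝ := (x + w) / 2 with ha
  set b : ℝ := (y + z) / 2 + 2 * τ * ε with hb
  set c : ℝ := τ * ((x - y + z - w) / 4) with hc
  set e : ℝ := τ ^ 2 * ε with he
  have h : QF τ x y z w = (1 - τ ^ 2) ^ 2 * b0 a b c (τ * e) +
      2 * (τ ^ 2) * (1 - τ ^ 2) * b1 a b c (τ * e) + (τ ^ 2) ^ 2 * b2 a b c (τ * e) +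
      (1 - τ ^ 2) * (48 + 16 * τ ^ 2) * e ^ 2 := by
    rw [he, hc, hb, ha, hε]
    unfold QF b0 b1 b2
    ring
  rw [h]
  have h3 : 0 ≤ 1 - τ ^ 2 := by nlinarith
  have := b0_nonneg a b c (τ * e)
  have := b1_nonneg a b c (τ * e)
  have := b2_nonneg a b c (τ * e)
  positivity

lemma QF_zero (x z : ℝ) : QF 0 x x z z = 25 * (x + z) ^ 2 := by
  unfold QF; ring

/-- the cubic form -/
def HC (x y : ℝ) : ℝ := (y - x) * (24 * x ^ 2 + 8 * x * y + 3 * y ^ 2)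

/-- derivatives of `HC` -/
def HCx (x y : ℝ) : ℝ := -72 * x ^ 2 + 32 * x * y + 5 * y ^ 2

def HCy (x y : ℝ) : ℝ := 16 * x ^ 2 + 10 * x * y + 9 * y ^ 2

/-- polynomials of the null Lagrangian -/
def n1 (τ : ℝ) : ℝ := -94 + 10 * τ ^ 2 - 20 * τ ^ 4

def n2 (τ : ℝ) : ℝ := 94 + 72 * τ + 46 * τ ^ 2 - 16 * τ ^ 3 + 20 * τ ^ 4

def dn1 (τ : ℝ) : ℝ := 20 * τ - 80 * τ ^ 3

def dn2 (τ : ℝ) : ℝ := 72 + 92 * τ - 48 * τ ^ 2 + 80 * τ ^ 3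

/-- the derivative of `V (n1 x + n2 y) / (1 - τ²)` when `V' = -V p / 2`,
`τ' = 3/4 (1 - τ²) q`, `x' = A`, `y' = B` -/
def dS (τ V x y A B p q : ℝ) : ℝ :=
  -(V * p / 2) * ((n1 τ * x + n2 τ * y) / (1 - τ ^ 2)) +
    V * (3 / 4 * q * (((dn1 τ * (1 - τ ^ 2) + 2 * τ * n1 τ) * x +
      (dn2 τ * (1 - τ ^ 2) + 2 * τ * n2 τ) * y) / (1 - τ ^ 2))) +
    V * ((n1 τ * A + n2 τ * B) / (1 - τ ^ 2))

/-- The main algebraic identity.  `x, y, z, w` are `a_t, b_t, a_s, b_s`. -/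
theorem main_identity {τ V A B : ℝ} (h1 : 1 + τ ≠ 0) (h2 : 1 - τ ≠ 0)
    (hA : A = V * (1 - τ) / (1 + τ)) (hB : B = V * (1 + τ) / (1 - τ)) (x y z w : ℝ) :
    50 * (A * x * (2 * x + 2 * z - y - w) + B * w * (2 * y + 2 * w - x - z) - (A - B) ^ 2) +
      (HCx x y * A + HCy x y * B + 2 * dS τ V x y A B (z + w) (z - w)) +
      (HCx w z * B + HCy w z * A + 2 * dS (-τ) V w z B A (x + y) (-(x - y))) =
    2 * (V * QF τ x y z w / (1 - τ ^ 2)) + 96 * V ^ 2 * τ ^ 4 / (1 - τ ^ 2) ^ 2 := by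
  have h3 : 1 - τ ^ 2 ≠ 0 := by
    have : 1 - τ ^ 2 = (1 - τ) * (1 + τ) := by ring
    rw [this]; exact mul_ne_zero h2 h1
  rw [hA, hB]
  unfold HCx HCy dS QF n1 n2 dn1 dn2
  have e : (-τ) ^ 2 = τ ^ 2 := by ring
  have e3 : (-τ) ^ 3 = -τ ^ 3 := by ring
  have e4 : (-τ) ^ 4 = τ ^ 4 := by ring
  rw [e, e3, e4]
  have h4 : 1 - τ ^ 2 = (1 - τ) * (1 + τ) := by ring
  rw [h4]
  field_simp
  ring

end Pool.Agent.MP_ae5b4e_an_hopf
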