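import Mathlib

/-!
Smoothness of integrals depending on parameters, and the second order Taylor quotient.
-/

noncomputable section

namespace Pool.Agent.MP_ae5b4e_an_hopf

open MeasureTheory Set Filter Topology intervalIntegral
open scoped ContDiff

theorem hasFDerivAt_param {F : Type} [NormedAddCommGroup F] [NormedSpace ℝ F]
    {f : (ℝ × ℝ) × ℝ → F} (hf : ContDiff ℝ 1 f) (x₀ : ℝ × ℝ) :
    HasFDerivAt (fun x => ∫ r in (0:ℝ)..1, f (x, r))
      (∫ r in (0:ℝ)..1, (fderiv ℝ f (x₀, r)).comp (ContinuousLinearMap.inl ℝ (ℝ × ℝ) ℝ)) x₀ := by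
  have hf' : Continuous fun p : (ℝ × ℝ) × ℝ =>
      (fderiv ℝ f p).comp (ContinuousLinearMap.inl ℝ (ℝ × ℝ) ℝ) :=
    (hf.continuous_fderiv one_ne_zero).clm_comp continuous_const
  obtain ⟨C, hC⟩ := ((isCompact_closedBall x₀ 1).prod (isCompact_Icc (a := (0:ℝ)) (b := 1))
    ).exists_bound_of_continuousOn hf'.continuousOn
  refine hasFDerivAt_integral_of_dominated_of_fderiv_le
    (F := fun x r => f (x, r))
    (F' := fun x r => (fderiv ℝ f (x, r)).comp (ContinuousLinearMap.inl ℝ (ℝ × ℝ) ℝ))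
    (bound := fun _ => C) (s := Metric.closedBall x₀ 1) (Metric.closedBall_mem_nhds x₀ one_pos)
    ?_ ?_ ?_ ?_ ?_ ?_
  · refine Eventually.of_forall fun x => ?_
    exact (hf.continuous.comp (by fun_prop : Continuous fun r : ℝ => (x, r))).aestronglyMeasurable
  · exact (hf.continuous.comp (by fun_prop : Continuous fun r : ℝ =>
      (x₀, r))).intervalIntegrable _ _
  · exact (hf'.comp (by fun_prop : Continuous fun r : ℝ => (x₀, r))).aestronglyMeasurable
  · refine Eventually.of_forall fun t ht x hx => ?_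
    rw [uIoc_of_le zero_le_one] at ht
    exact hC (x, t) ⟨hx, ht.1.le, ht.2⟩
  · exact intervalIntegrable_const
  · refine Eventually.of_forall fun t _ x _ => ?_
    have h1 : HasFDerivAt f (fderiv ℝ f (x, t)) (x, t) :=
      ((hf.differentiable one_ne_zero) (x, t)).hasFDerivAt
    have h2 : HasFDerivAt (fun y : ℝ × ℝ => (y, t)) (ContinuousLinearMap.inl ℝ (ℝ × ℝ) ℝ) x := by
      have := (hasFDerivAt_id (𝕜 := ℝ) x).prodMk (hasFDerivAt_const t x)
      exact this
    exact h1.comp x h2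

theorem contDiff_param_nat (n : ℕ) : ∀ {F : Type} [NormedAddCommGroup F] [NormedSpace ℝ F]
    (f : (ℝ × ℝ) × ℝ → F), ContDiff ℝ n f → ContDiff ℝ n (fun x => ∫ r in (0:ℝ)..1, f (x, r)) := by
  induction n with
  | zero =>
    intro F _ _ f hf
    rw [Nat.cast_zero, contDiff_zero] at hf ⊢
    exact intervalIntegral.continuous_parametric_intervalIntegral_of_continuous'
      (f := fun x r => f (x, r)) (by exact hf) 0 1
  | succ n ih =>
    intro F _ _ f hf
    have h1 : ContDiff ℝ 1 f := hf.of_le (by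
      have : ((1:ℕ) : WithTop ℕ∞) ≤ ((n + 1 : ℕ) : WithTop ℕ∞) := by
        exact_mod_cast Nat.le_add_left 1 n
      simpa using this)
    have hn : ((n + 1 : ℕ) : WithTop ℕ∞) = (n : WithTop ℕ∞) + 1 := by push_cast; rfl
    rw [hn, contDiff_succ_iff_hasFDerivAt]
    refine ⟨fun x₀ => ∫ r in (0:ℝ)..1,
      (fderiv ℝ f (x₀, r)).comp (ContinuousLinearMap.inl ℝ (ℝ × ℝ) ℝ), ?_, ?_⟩
    · refine ih (fun p => (fderiv ℝ f p).comp (ContinuousLinearMap.inl ℝ (ℝ × ℝ) ℝ)) ?_
      refine ContDiff.clm_comp ?_ contDiff_const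
      exact hf.fderiv_right (by rw [hn])
    · exact fun x => hasFDerivAt_param h1 x

theorem contDiff_param {F : Type} [NormedAddCommGroup F] [NormedSpace ℝ F]
    {f : (ℝ × ℝ) × ℝ → F} (hf : ContDiff ℝ ∞ f) :
    ContDiff ℝ ∞ (fun x => ∫ r in (0:ℝ)..1, f (x, r)) := by
  rw [contDiff_infty] at hf ⊢
  exact fun n => contDiff_param_nat n f (hf n)

/-- Taylor's formula with the integral remainder. -/
theorem taylor_two {g g' g'' : ℝ → ℝ} (h1 : ∀ t, HasDerivAt g (g' t) t)
    (h2 : ∀ t, HasDerivAt g' (g'' t) t) (hc : Continuous g'') (x y : ℝ) :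
    g x = g y + (x - y) * g' y + (x - y) ^ 2 * ∫ r in (0:ℝ)..1, (1 - r) * g'' (y + r * (x - y)) := by
  have hd : ∀ r ∈ uIcc (0:ℝ) 1, HasDerivAt
      (fun r => g (y + r * (x - y)) + (1 - r) * (x - y) * g' (y + r * (x - y)))
      ((x - y) ^ 2 * ((1 - r) * g'' (y + r * (x - y)))) r := by
    intro r _
    have e0 : HasDerivAt (fun r : ℝ => y + r * (x - y)) (x - y) r := by
      simpa using ((hasDerivAt_id r).mul_const (x - y)).const_add y
    have e1 := (h1 (y + r * (x - y))).comp r e0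
    have e2 := (h2 (y + r * (x - y))).comp r e0
    have e3 : HasDerivAt (fun r : ℝ => (1 - r) * (x - y)) (-(x - y)) r := by
      simpa using ((hasDerivAt_id r).const_sub 1).mul_const (x - y)
    have e4 := e1.add (e3.mul e2)
    refine e4.congr_deriv ?_
    simp only [Function.comp]
    ring
  have hcont : Continuous fun r : ℝ => (x - y) ^ 2 * ((1 - r) * g'' (y + r * (x - y))) := by
    fun_prop
  have h3 := intervalIntegral.integral_eq_sub_of_hasDerivAt hd (hcont.intervalIntegrable _ _)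
  rw [intervalIntegral.integral_const_mul] at h3
  rw [h3]
  have : y + 1 * (x - y) = x := by ring
  rw [this]
  simp

end Pool.Agent.MP_ae5b4e_an_hopf
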