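import Mathlib
import Pool.Agent.Lib.MP_ae5b4e_an_hopf.Param

/-!
Closed convex space curves: the function `dd x y = det (Γ x, Γ y, Γ' y)` and its logarithmic
derivatives.
-/

noncomputable section

namespace Pool.Agent.MP_ae5b4e_an_hopf

open Set Filter Topology
open scoped ContDiff

/-- determinant of three vectors -/
def det3 (a b c : Fin 3 → ℝ) : ℝ :=
  a 0 * (b 1 * c 2 - b 2 * c 1) - a 1 * (b 0 * c 2 - b 2 * c 0) + a 2 * (b 0 * c 1 - b 1 * c 0)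

lemma det3_self_left (a c : Fin 3 → ℝ) : det3 a a c = 0 := by unfold det3; ring
lemma det3_self_right (a c : Fin 3 → ℝ) : det3 a c c = 0 := by unfold det3; ring
lemma det3_self_outer (a c : Fin 3 → ℝ) : det3 a c a = 0 := by unfold det3; ring
lemma det3_cycle (a b c : Fin 3 → ℝ) : det3 a b c = det3 b c a := by unfold det3; ring
lemma det3_swap (a b c : Fin 3 → ℝ) : det3 a b c = -det3 b a c := by unfold det3; ring

lemma hasDerivAt_det3 {f g h : ℝ → Fin 3 → ℝ} {f' g' h' : Fin 3 → ℝ} {t : ℝ}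
    (hf : HasDerivAt f f' t) (hg : HasDerivAt g g' t) (hh : HasDerivAt h h' t) :
    HasDerivAt (fun s => det3 (f s) (g s) (h s))
      (det3 f' (g t) (h t) + det3 (f t) g' (h t) + det3 (f t) (g t) h') t := by
  rw [hasDerivAt_pi] at hf hg hh
  unfold det3
  have h0 := (hf 0).mul (((hg 1).mul (hh 2)).sub ((hg 2).mul (hh 1)))
  have h1 := (hf 1).mul (((hg 0).mul (hh 2)).sub ((hg 2).mul (hh 0)))
  have h2 := (hf 2).mul (((hg 0).mul (hh 1)).sub ((hg 1).mul (hh 0)))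
  refine ((h0.sub h1).add h2).congr_deriv ?_
  simp only [Pi.mul_apply, Pi.sub_apply]
  ring

lemma contDiff_det3 {E : Type*} [NormedAddCommGroup E] [NormedSpace ℝ E] {n : WithTop ℕ∞}
    {f g h : E → Fin 3 → ℝ}
    (hf : ContDiff ℝ n f) (hg : ContDiff ℝ n g) (hh : ContDiff ℝ n h) :
    ContDiff ℝ n (fun s => det3 (f s) (g s) (h s)) := by
  rw [contDiff_pi] at hf hg hh
  have := hf 0; have := hf 1; have := hf 2
  have := hg 0; have := hg 1; have := hg 2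
  have := hh 0; have := hh 1; have := hh 2
  unfold det3
  fun_prop

variable (Γ : ℝ → Fin 3 → ℝ)

def dd (x y : ℝ) : ℝ := det3 (Γ x) (Γ y) (deriv Γ y)
def ddx (x y : ℝ) : ℝ := det3 (deriv Γ x) (Γ y) (deriv Γ y)
def ddy (x y : ℝ) : ℝ := det3 (Γ x) (Γ y) (deriv (deriv Γ) y)
def ddxx (x y : ℝ) : ℝ := det3 (deriv (deriv Γ) x) (Γ y) (deriv Γ y)
def ddxy (x y : ℝ) : ℝ := det3 (deriv Γ x) (Γ y) (deriv (deriv Γ) y)
/-- the Wronskian -/
def Wr (y : ℝ) : ℝ := det3 (Γ y) (deriv Γ y) (deriv (deriv Γ) y)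

/-- logarithmic derivatives -/
def L1 (x y : ℝ) : ℝ := ddx Γ x y / dd Γ x y
def L2 (x y : ℝ) : ℝ := ddy Γ x y / dd Γ x y
def L11 (x y : ℝ) : ℝ := ddxx Γ x y / dd Γ x y - (ddx Γ x y / dd Γ x y) ^ 2
def KK (x y : ℝ) : ℝ := Wr Γ y * dd Γ y x / dd Γ x y ^ 2

lemma pluecker (x y : ℝ) :
    ddxy Γ x y * dd Γ x y - ddx Γ x y * ddy Γ x y = Wr Γ y * dd Γ y x := by
  unfold ddxy dd ddx ddy Wr det3
  ring

/-- closed convex space curves -/
structure Curve (T : ℝ) (Γ : ℝ → Fin 3 → ℝ) : Prop where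
  T_pos : 0 < T
  smooth : ContDiff ℝ ∞ Γ
  per : ∀ t, Γ (t + T) = Γ t
  pos : ∀ t s, t < s → s < t + T → 0 < dd Γ t s
  Wr_pos : ∀ t, 0 < Wr Γ t

variable {Γ} {T : ℝ}

namespace Curve

variable (h : Curve T Γ)
include h

lemma smooth1 : ContDiff ℝ ∞ (deriv Γ) := (contDiff_infty_iff_deriv.1 h.smooth).2
lemma smooth2 : ContDiff ℝ ∞ (deriv (deriv Γ)) := (contDiff_infty_iff_deriv.1 h.smooth1).2

lemma hd0 (t : ℝ) : HasDerivAt Γ (deriv Γ t) t :=
  ((contDiff_infty_iff_deriv.1 h.smooth).1 t).hasDerivAt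
lemma hd1 (t : ℝ) : HasDerivAt (deriv Γ) (deriv (deriv Γ) t) t :=
  ((contDiff_infty_iff_deriv.1 h.smooth1).1 t).hasDerivAt
lemma hd2 (t : ℝ) : HasDerivAt (deriv (deriv Γ)) (deriv (deriv (deriv Γ)) t) t :=
  ((contDiff_infty_iff_deriv.1 h.smooth2).1 t).hasDerivAt

lemma per1 (t : ℝ) : deriv Γ (t + T) = deriv Γ t := by
  have h1 : (fun s => Γ (s + T)) = Γ := funext h.per
  have h2 := congrFun (congrArg deriv h1) t
  rwa [deriv_comp_add_const] at h2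

lemma per2 (t : ℝ) : deriv (deriv Γ) (t + T) = deriv (deriv Γ) t := by
  have h1 : (fun s => deriv Γ (s + T)) = deriv Γ := funext h.per1
  have h2 := congrFun (congrArg deriv h1) t
  rwa [deriv_comp_add_const] at h2

lemma dd_per_left (x y : ℝ) : dd Γ (x + T) y = dd Γ x y := by unfold dd; rw [h.per]
lemma dd_per_right (x y : ℝ) : dd Γ x (y + T) = dd Γ x y := by unfold dd; rw [h.per, h.per1]
lemma ddx_per_left (x y : ℝ) : ddx Γ (x + T) y = ddx Γ x y := by unfold ddx; rw [h.per1]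
lemma ddx_per_right (x y : ℝ) : ddx Γ x (y + T) = ddx Γ x y := by unfold ddx; rw [h.per, h.per1]
lemma ddy_per_left (x y : ℝ) : ddy Γ (x + T) y = ddy Γ x y := by unfold ddy; rw [h.per]
lemma ddy_per_right (x y : ℝ) : ddy Γ x (y + T) = ddy Γ x y := by unfold ddy; rw [h.per, h.per2]
lemma ddxx_per_left (x y : ℝ) : ddxx Γ (x + T) y = ddxx Γ x y := by unfold ddxx; rw [h.per2]
lemma ddxx_per_right (x y : ℝ) : ddxx Γ x (y + T) = ddxx Γ x y := by
  unfold ddxx; rw [h.per, h.per1]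
lemma Wr_per (y : ℝ) : Wr Γ (y + T) = Wr Γ y := by unfold Wr; rw [h.per, h.per1, h.per2]

lemma L1_per_left (x y : ℝ) : L1 Γ (x + T) y = L1 Γ x y := by
  unfold L1; rw [h.dd_per_left, h.ddx_per_left]
lemma L1_per_right (x y : ℝ) : L1 Γ x (y + T) = L1 Γ x y := by
  unfold L1; rw [h.dd_per_right, h.ddx_per_right]
lemma L2_per_left (x y : ℝ) : L2 Γ (x + T) y = L2 Γ x y := by
  unfold L2; rw [h.dd_per_left, h.ddy_per_left]
lemma L2_per_right (x y : ℝ) : L2 Γ x (y + T) = L2 Γ x y := by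
  unfold L2; rw [h.dd_per_right, h.ddy_per_right]
lemma L11_per_left (x y : ℝ) : L11 Γ (x + T) y = L11 Γ x y := by
  unfold L11; rw [h.dd_per_left, h.ddx_per_left, h.ddxx_per_left]
lemma L11_per_right (x y : ℝ) : L11 Γ x (y + T) = L11 Γ x y := by
  unfold L11; rw [h.dd_per_right, h.ddx_per_right, h.ddxx_per_right]
lemma KK_per_left (x y : ℝ) : KK Γ (x + T) y = KK Γ x y := by
  unfold KK; rw [h.dd_per_left, h.dd_per_right]
lemma KK_per_right (x y : ℝ) : KK Γ x (y + T) = KK Γ x y := by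
  unfold KK; rw [h.dd_per_right, h.dd_per_left, h.Wr_per]

/-- positivity off the diagonal -/
lemma dd_pos {x y : ℝ} (hne : x ≠ y) (hxy : |x - y| < T) : 0 < dd Γ x y := by
  rw [abs_lt] at hxy
  rcases lt_or_gt_of_ne hne with h1 | h1
  · exact h.pos x y h1 (by linarith)
  · rw [← h.dd_per_right]
    exact h.pos x (y + T) (by linarith) (by linarith)

lemma dd_pos_right {t s : ℝ} (h1 : t < s) (h2 : s < t + T) : 0 < dd Γ t s := h.pos t s h1 h2
lemma dd_pos_left {t s : ℝ} (h1 : t < s) (h2 : s < t + T) : 0 < dd Γ s t :=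
  h.dd_pos h1.ne' (by rw [abs_lt]; constructor <;> linarith)

lemma KK_pos {x y : ℝ} (hne : x ≠ y) (hxy : |x - y| < T) : 0 < KK Γ x y := by
  unfold KK
  have h1 := h.dd_pos hne hxy
  have h2 := h.dd_pos hne.symm (by rwa [abs_sub_comm])
  have h3 := h.Wr_pos y
  positivity

lemma KK_pos_right {t s : ℝ} (h1 : t < s) (h2 : s < t + T) : 0 < KK Γ t s :=
  h.KK_pos h1.ne (by rw [abs_lt]; constructor <;> linarith)
lemma KK_pos_left {t s : ℝ} (h1 : t < s) (h2 : s < t + T) : 0 < KK Γ s t :=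
  h.KK_pos h1.ne' (by rw [abs_lt]; constructor <;> linarith)

lemma hasDerivAt_dd_left (x y : ℝ) : HasDerivAt (fun x => dd Γ x y) (ddx Γ x y) x := by
  refine (hasDerivAt_det3 (h.hd0 x) (hasDerivAt_const x (Γ y))
    (hasDerivAt_const x (deriv Γ y))).congr_deriv ?_
  unfold ddx det3
  simp

lemma hasDerivAt_dd_right (x y : ℝ) : HasDerivAt (fun y => dd Γ x y) (ddy Γ x y) y := by
  refine (hasDerivAt_det3 (hasDerivAt_const y (Γ x)) (h.hd0 y) (h.hd1 y)).congr_deriv ?_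
  unfold ddy det3
  simp
  ring

lemma hasDerivAt_ddx_left (x y : ℝ) : HasDerivAt (fun x => ddx Γ x y) (ddxx Γ x y) x := by
  refine (hasDerivAt_det3 (h.hd1 x) (hasDerivAt_const x (Γ y))
    (hasDerivAt_const x (deriv Γ y))).congr_deriv ?_
  unfold ddxx det3
  simp

lemma hasDerivAt_ddx_right (x y : ℝ) : HasDerivAt (fun y => ddx Γ x y) (ddxy Γ x y) y := by
  refine (hasDerivAt_det3 (hasDerivAt_const y (deriv Γ x)) (h.hd0 y) (h.hd1 y)).congr_deriv ?_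
  unfold ddxy det3
  simp
  ring

lemma hasDerivAt_ddy_left (x y : ℝ) : HasDerivAt (fun x => ddy Γ x y) (ddxy Γ x y) x := by
  refine (hasDerivAt_det3 (h.hd0 x) (hasDerivAt_const x (Γ y))
    (hasDerivAt_const x (deriv (deriv Γ) y))).congr_deriv ?_
  unfold ddxy det3
  simp

/-- logarithmic derivatives of `dd` -/
lemma hasDerivAt_log_left {x y : ℝ} (hn : dd Γ x y ≠ 0) :
    HasDerivAt (fun x => Real.log (dd Γ x y)) (L1 Γ x y) x :=
  (h.hasDerivAt_dd_left x y).log hn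

lemma hasDerivAt_log_right {x y : ℝ} (hn : dd Γ x y ≠ 0) :
    HasDerivAt (fun y => Real.log (dd Γ x y)) (L2 Γ x y) y :=
  (h.hasDerivAt_dd_right x y).log hn

lemma hasDerivAt_L1_left {x y : ℝ} (hn : dd Γ x y ≠ 0) :
    HasDerivAt (fun x => L1 Γ x y) (L11 Γ x y) x := by
  refine ((h.hasDerivAt_ddx_left x y).div (h.hasDerivAt_dd_left x y) hn).congr_deriv ?_
  unfold L11
  field_simp

lemma hasDerivAt_L1_right {x y : ℝ} (hn : dd Γ x y ≠ 0) :
    HasDerivAt (fun y => L1 Γ x y) (KK Γ x y) y := by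
  refine ((h.hasDerivAt_ddx_right x y).div (h.hasDerivAt_dd_right x y) hn).congr_deriv ?_
  unfold KK
  rw [← pluecker]

lemma hasDerivAt_L2_left {x y : ℝ} (hn : dd Γ x y ≠ 0) :
    HasDerivAt (fun x => L2 Γ x y) (KK Γ x y) x := by
  refine ((h.hasDerivAt_ddy_left x y).div (h.hasDerivAt_dd_left x y) hn).congr_deriv ?_
  unfold KK
  rw [← pluecker]
  ring

/-! Smoothness in both variables. -/

lemma contDiff_dd : ContDiff ℝ ∞ (fun p : ℝ × ℝ => dd Γ p.1 p.2) :=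
  contDiff_det3 (h.smooth.comp contDiff_fst) (h.smooth.comp contDiff_snd)
    (h.smooth1.comp contDiff_snd)
lemma contDiff_dd' : ContDiff ℝ ∞ (fun p : ℝ × ℝ => dd Γ p.2 p.1) :=
  contDiff_det3 (h.smooth.comp contDiff_snd) (h.smooth.comp contDiff_fst)
    (h.smooth1.comp contDiff_fst)
lemma contDiff_ddx : ContDiff ℝ ∞ (fun p : ℝ × ℝ => ddx Γ p.1 p.2) :=
  contDiff_det3 (h.smooth1.comp contDiff_fst) (h.smooth.comp contDiff_snd)
    (h.smooth1.comp contDiff_snd)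
lemma contDiff_ddy : ContDiff ℝ ∞ (fun p : ℝ × ℝ => ddy Γ p.1 p.2) :=
  contDiff_det3 (h.smooth.comp contDiff_fst) (h.smooth.comp contDiff_snd)
    (h.smooth2.comp contDiff_snd)
lemma contDiff_ddxx : ContDiff ℝ ∞ (fun p : ℝ × ℝ => ddxx Γ p.1 p.2) :=
  contDiff_det3 (h.smooth2.comp contDiff_fst) (h.smooth.comp contDiff_snd)
    (h.smooth1.comp contDiff_snd)
lemma contDiff_Wr : ContDiff ℝ ∞ (Wr Γ) := contDiff_det3 h.smooth h.smooth1 h.smooth2

lemma contDiffAt_L1 {p : ℝ × ℝ} (hn : dd Γ p.1 p.2 ≠ 0) :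
    ContDiffAt ℝ ∞ (fun p : ℝ × ℝ => L1 Γ p.1 p.2) p :=
  h.contDiff_ddx.contDiffAt.div h.contDiff_dd.contDiffAt hn
lemma contDiffAt_L2 {p : ℝ × ℝ} (hn : dd Γ p.1 p.2 ≠ 0) :
    ContDiffAt ℝ ∞ (fun p : ℝ × ℝ => L2 Γ p.1 p.2) p :=
  h.contDiff_ddy.contDiffAt.div h.contDiff_dd.contDiffAt hn
lemma contDiffAt_L11 {p : ℝ × ℝ} (hn : dd Γ p.1 p.2 ≠ 0) :
    ContDiffAt ℝ ∞ (fun p : ℝ × ℝ => L11 Γ p.1 p.2) p :=
  (h.contDiff_ddxx.contDiffAt.div h.contDiff_dd.contDiffAt hn).sub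
    ((h.contDiff_ddx.contDiffAt.div h.contDiff_dd.contDiffAt hn).pow 2)
lemma contDiffAt_KK {p : ℝ × ℝ} (hn : dd Γ p.1 p.2 ≠ 0) :
    ContDiffAt ℝ ∞ (fun p : ℝ × ℝ => KK Γ p.1 p.2) p :=
  (((h.contDiff_Wr.comp contDiff_snd).contDiffAt).mul h.contDiff_dd'.contDiffAt).div
    (h.contDiff_dd.contDiffAt.pow 2) (pow_ne_zero 2 hn)

end Curve

end Pool.Agent.MP_ae5b4e_an_hopf
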