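import Mathlib

/-!
Smooth functions of two variables near the diagonal, periodic along the diagonal, and uniform
estimates for them.
-/

noncomputable section

namespace Pool.Agent.MP_ae5b4e_an_hopf

open Set Filter Topology
open scoped ContDiff

/-- the strip -/
def Om (T : ℝ) : Set (ℝ × ℝ) := {p | |p.1 - p.2| < T}

lemma isOpen_Om (T : ℝ) : IsOpen (Om T) :=
  isOpen_lt (by fun_prop : Continuous fun p : ℝ × ℝ => |p.1 - p.2|) continuous_const

/-- partial derivatives -/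
def P1 (F : ℝ × ℝ → ℝ) (p : ℝ × ℝ) : ℝ := fderiv ℝ F p (1, 0)
def P2 (F : ℝ × ℝ → ℝ) (p : ℝ × ℝ) : ℝ := fderiv ℝ F p (0, 1)

structure Nice (T : ℝ) (F : ℝ × ℝ → ℝ) : Prop where
  smooth : ContDiffOn ℝ ∞ F (Om T)
  per : ∀ p, F (p + (T, T)) = F p

namespace Nice

variable {T : ℝ} {F G : ℝ × ℝ → ℝ}

lemma add (hF : Nice T F) (hG : Nice T G) : Nice T (fun p => F p + G p) where
  smooth := hF.smooth.add hG.smooth
  per p := by simp only [hF.per, hG.per]

lemma sub (hF : Nice T F) (hG : Nice T G) : Nice T (fun p => F p - G p) where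
  smooth := hF.smooth.sub hG.smooth
  per p := by simp only [hF.per, hG.per]

lemma mul (hF : Nice T F) (hG : Nice T G) : Nice T (fun p => F p * G p) where
  smooth := hF.smooth.mul hG.smooth
  per p := by simp only [hF.per, hG.per]

lemma const (T c : ℝ) : Nice T (fun _ => c) where
  smooth := contDiffOn_const
  per _ := rfl

lemma div (hF : Nice T F) (hG : Nice T G) (h0 : ∀ p ∈ Om T, G p ≠ 0) :
    Nice T (fun p => F p / G p) where
  smooth := hF.smooth.div hG.smooth h0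
  per p := by simp only [hF.per, hG.per]

lemma log (hF : Nice T F) (h0 : ∀ p ∈ Om T, F p ≠ 0) : Nice T (fun p => Real.log (F p)) where
  smooth := hF.smooth.log h0
  per p := by simp only [hF.per]

lemma swap (hF : Nice T F) : Nice T (fun p => F (p.2, p.1)) where
  smooth := by
    refine hF.smooth.comp (f := fun p : ℝ × ℝ => (p.2, p.1))
      (contDiff_snd.prodMk contDiff_fst).contDiffOn ?_
    intro p hp
    show |p.2 - p.1| < T
    rw [abs_sub_comm]
    exact hp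
  per p := by
    have := hF.per (p.2, p.1)
    simpa using this

lemma contDiffAt (hF : Nice T F) {p : ℝ × ℝ} (hp : p ∈ Om T) : ContDiffAt ℝ ∞ F p :=
  hF.smooth.contDiffAt ((isOpen_Om T).mem_nhds hp)

lemma differentiableAt (hF : Nice T F) {p : ℝ × ℝ} (hp : p ∈ Om T) : DifferentiableAt ℝ F p :=
  (hF.contDiffAt hp).differentiableAt (by simp)

lemma hasFDerivAt (hF : Nice T F) {p : ℝ × ℝ} (hp : p ∈ Om T) :
    HasFDerivAt F (fderiv ℝ F p) p := (hF.differentiableAt hp).hasFDerivAt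

lemma contDiffOn_fderiv (hF : Nice T F) : ContDiffOn ℝ ∞ (fderiv ℝ F) (Om T) :=
  hF.smooth.fderiv_of_isOpen (isOpen_Om T) (by simp)

lemma fderiv_per (hF : Nice T F) (p : ℝ × ℝ) : fderiv ℝ F (p + (T, T)) = fderiv ℝ F p := by
  have h1 : (fun q => F (q + (T, T))) = F := funext hF.per
  have h2 := congrFun (congrArg (fderiv ℝ) h1) p
  rwa [fderiv_comp_add_right] at h2

lemma P1 (hF : Nice T F) : Nice T (P1 F) where
  smooth := hF.contDiffOn_fderiv.clm_apply contDiffOn_const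
  per p := by
    show fderiv ℝ F (p + (T, T)) (1, 0) = fderiv ℝ F p (1, 0)
    rw [hF.fderiv_per]

lemma P2 (hF : Nice T F) : Nice T (P2 F) where
  smooth := hF.contDiffOn_fderiv.clm_apply contDiffOn_const
  per p := by
    show fderiv ℝ F (p + (T, T)) (0, 1) = fderiv ℝ F p (0, 1)
    rw [hF.fderiv_per]

/-- chain rule -/
lemma hasDerivAt_comp (hF : Nice T F) {α β : ℝ → ℝ} {a b t : ℝ} (h1 : HasDerivAt α a t)
    (h2 : HasDerivAt β b t) (hm : (α t, β t) ∈ Om T) :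
    HasDerivAt (fun s => F (α s, β s))
      (a * Pool.Agent.MP_ae5b4e_an_hopf.P1 F (α t, β t) +
        b * Pool.Agent.MP_ae5b4e_an_hopf.P2 F (α t, β t)) t := by
  have h3 := (hF.hasFDerivAt hm).comp_hasDerivAt t (h1.prodMk h2)
  refine h3.congr_deriv ?_
  have e : ((a, b) : ℝ × ℝ) = a • ((1, 0) : ℝ × ℝ) + b • ((0, 1) : ℝ × ℝ) := by
    ext <;> simp
  rw [e, map_add, map_smul, map_smul]
  rfl

lemma hasDerivAt_left (hF : Nice T F) {x y : ℝ} (hp : |x - y| < T) :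
    HasDerivAt (fun x => F (x, y)) (Pool.Agent.MP_ae5b4e_an_hopf.P1 F (x, y)) x := by
  have := hF.hasDerivAt_comp (hasDerivAt_id x) (hasDerivAt_const x y) hp
  simpa using this

lemma hasDerivAt_right (hF : Nice T F) {x y : ℝ} (hp : |x - y| < T) :
    HasDerivAt (fun y => F (x, y)) (Pool.Agent.MP_ae5b4e_an_hopf.P2 F (x, y)) y := by
  have := hF.hasDerivAt_comp (hasDerivAt_const y x) (hasDerivAt_id y) hp
  simpa using this

lemma per_int (hF : Nice T F) (p : ℝ × ℝ) (n : ℤ) : F (p + ((n:ℝ) * T, (n:ℝ) * T)) = F p := by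
  have hnat : ∀ (m : ℕ) (q : ℝ × ℝ), F (q + ((m:ℝ) * T, (m:ℝ) * T)) = F q := by
    intro m
    induction m with
    | zero =>
      intro q
      have e : q + (((0:ℕ):ℝ) * T, ((0:ℕ):ℝ) * T) = q := by ext <;> simp
      rw [e]
    | succ m ih =>
      intro q
      have e : q + (((m + 1 : ℕ):ℝ) * T, ((m + 1 : ℕ):ℝ) * T) =
          (q + ((m:ℝ) * T, (m:ℝ) * T)) + (T, T) := by
        ext <;> simp <;> ring
      rw [e, hF.per, ih]
  obtain ⟨m, rfl | rfl⟩ := n.eq_nat_or_neg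
  · exact_mod_cast hnat m p
  · have := hnat m (p + (((-(m:ℤ) : ℤ):ℝ) * T, ((-(m:ℤ) : ℤ):ℝ) * T))
    rw [← this]
    congr 1
    ext <;> simp

/-- boundedness on the half strip -/
lemma bounded_of_continuousOn {E : Type*} [NormedAddCommGroup E] {H : ℝ × ℝ → E} (hT : 0 < T)
    (hc : ContinuousOn H (Om T)) (hper : ∀ p (n : ℤ), H (p + ((n:ℝ) * T, (n:ℝ) * T)) = H p) :
    ∃ C, 0 ≤ C ∧ ∀ p : ℝ × ℝ, |p.1 - p.2| ≤ T / 2 → ‖H p‖ ≤ C := by
  set K : Set (ℝ × ℝ) := (Icc 0 T ×ˢ Icc (-T) (2 * T)) ∩ {p | |p.1 - p.2| ≤ T / 2} with hK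
  have hKc : IsCompact K := by
    refine (isCompact_Icc.prod isCompact_Icc).inter_right ?_
    exact isClosed_le (by fun_prop : Continuous fun p : ℝ × ℝ => |p.1 - p.2|) continuous_const
  have hKO : K ⊆ Om T := by
    intro p hp
    have h1 : |p.1 - p.2| ≤ T / 2 := hp.2
    show |p.1 - p.2| < T
    linarith
  obtain ⟨C, hC⟩ := hKc.exists_bound_of_continuousOn (hc.mono hKO)
  refine ⟨max C 0, le_max_right _ _, fun p hp => ?_⟩
  obtain ⟨n, hn⟩ : ∃ n : ℤ, p.1 + (n:ℝ) * T ∈ Icc 0 T := by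
    refine ⟨-⌊p.1 / T⌋, ?_⟩
    have h1 := Int.floor_le (p.1 / T)
    have h2 := Int.lt_floor_add_one (p.1 / T)
    rw [le_div_iff₀ hT] at h1
    rw [div_lt_iff₀ hT] at h2
    push_cast
    constructor <;> nlinarith
  rw [← hper p n]
  refine (hC _ ?_).trans (le_max_left _ _)
  have hp' := abs_le.1 hp
  have h1 : ((p + ((n:ℝ) * T, (n:ℝ) * T)).1 : ℝ) = p.1 + n * T := rfl
  have h2 : ((p + ((n:ℝ) * T, (n:ℝ) * T)).2 : ℝ) = p.2 + n * T := rfl
  refine ⟨⟨?_, ?_⟩, ?_⟩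
  · rw [h1]; exact hn
  · rw [h2]
    constructor
    · linarith [hn.1, hp'.2]
    · linarith [hn.2, hp'.1]
  · show |(p + ((n:ℝ) * T, (n:ℝ) * T)).1 - (p + ((n:ℝ) * T, (n:ℝ) * T)).2| ≤ T / 2
    rw [h1, h2]
    have e : p.1 + n * T - (p.2 + n * T) = p.1 - p.2 := by ring
    rw [e]
    exact hp

lemma bounded (hF : Nice T F) (hT : 0 < T) :
    ∃ C, 0 ≤ C ∧ ∀ p : ℝ × ℝ, |p.1 - p.2| ≤ T / 2 → |F p| ≤ C :=
  bounded_of_continuousOn hT hF.smooth.continuousOn hF.per_int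

lemma fderiv_per_int (hF : Nice T F) (p : ℝ × ℝ) (n : ℤ) :
    fderiv ℝ F (p + ((n:ℝ) * T, (n:ℝ) * T)) = fderiv ℝ F p := by
  have h1 : (fun q => F (q + ((n:ℝ) * T, (n:ℝ) * T))) = F := funext fun q => hF.per_int q n
  have h2 := congrFun (congrArg (fderiv ℝ) h1) p
  rwa [fderiv_comp_add_right] at h2

/-- Lipschitz estimate on the half strip -/
lemma lip (hF : Nice T F) (hT : 0 < T) :
    ∃ C, 0 ≤ C ∧ ∀ p q : ℝ × ℝ, |p.1 - p.2| ≤ T / 2 → |q.1 - q.2| ≤ T / 2 →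
      |F p - F q| ≤ C * ‖p - q‖ := by
  obtain ⟨C, hC0, hC⟩ := bounded_of_continuousOn hT hF.contDiffOn_fderiv.continuousOn
    hF.fderiv_per_int
  refine ⟨C, hC0, fun p q hp hq => ?_⟩
  have hconv : Convex ℝ {p : ℝ × ℝ | |p.1 - p.2| ≤ T / 2} := by
    intro a ha b hb s t hs ht hst
    have ha' := abs_le.1 (show |a.1 - a.2| ≤ T / 2 from ha)
    have hb' := abs_le.1 (show |b.1 - b.2| ≤ T / 2 from hb)
    show |(s • a + t • b).1 - (s • a + t • b).2| ≤ T / 2
    have e : (s • a + t • b).1 - (s • a + t • b).2 = s * (a.1 - a.2) + t * (b.1 - b.2) := by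
      simp; ring
    rw [e, abs_le]
    constructor
    · nlinarith [mul_le_mul_of_nonneg_left ha'.1 hs, mul_le_mul_of_nonneg_left hb'.1 ht]
    · nlinarith [mul_le_mul_of_nonneg_left ha'.2 hs, mul_le_mul_of_nonneg_left hb'.2 ht]
  have := hconv.norm_image_sub_le_of_norm_fderiv_le (𝕜 := ℝ) (f := F) (C := C)
    (fun x hx => hF.differentiableAt (by
      have hx' : |x.1 - x.2| ≤ T / 2 := hx
      show |x.1 - x.2| < T
      linarith)) (fun x hx => hC x hx) hq hp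
  exact this

lemma lip_swap (hF : Nice T F) (hT : 0 < T) :
    ∃ C, 0 ≤ C ∧ ∀ x y : ℝ, |x - y| ≤ T / 2 → |F (x, y) - F (y, x)| ≤ C * |x - y| := by
  obtain ⟨C, hC0, hC⟩ := hF.lip hT
  refine ⟨C, hC0, fun x y hxy => (hC (x, y) (y, x) hxy (by rwa [abs_sub_comm] at hxy)).trans ?_⟩
  refine mul_le_mul_of_nonneg_left ?_ hC0
  rw [Prod.norm_def]
  simp only [Prod.fst_sub, Prod.snd_sub, Real.norm_eq_abs]
  rw [abs_sub_comm y x, max_self]

lemma lip_left (hF : Nice T F) (hT : 0 < T) (h0 : ∀ x, F (x, x) = 0) :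
    ∃ C, 0 ≤ C ∧ ∀ x y : ℝ, |x - y| ≤ T / 2 → |F (x, y)| ≤ C * |x - y| := by
  obtain ⟨C, hC0, hC⟩ := hF.lip hT
  refine ⟨C, hC0, fun x y hxy => ?_⟩
  have h1 := hC (x, y) (x, x) hxy (by simp; positivity)
  rw [h0, sub_zero] at h1
  refine h1.trans (mul_le_mul_of_nonneg_left ?_ hC0)
  rw [Prod.norm_def]
  simp only [Prod.fst_sub, Prod.snd_sub, Real.norm_eq_abs, sub_self, abs_zero]
  rw [abs_sub_comm y x]
  exact max_le (abs_nonneg _) le_rfl

/-- Second order estimate for the symmetrization. -/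
lemma sym (hF : Nice T F) (hT : 0 < T) (h0 : ∀ x, F (x, x) = 0) :
    ∃ C, 0 ≤ C ∧ ∀ x y : ℝ, |x - y| ≤ T / 2 → |F (x, y) + F (y, x)| ≤ C * (x - y) ^ 2 := by
  obtain ⟨C, hC0, hC⟩ := (hF.P1.sub hF.P2).lip hT
  refine ⟨C, hC0, fun x y hxy => ?_⟩
  set m : ℝ := (x + y) / 2 with hm
  set θ : ℝ := (x - y) / 2 with hθ
  set g : ℝ → ℝ := fun r => F (m + r * θ, m - r * θ) + F (m - r * θ, m + r * θ) with hg
  have hθ2 : |2 * θ| ≤ T / 2 := by
    have : 2 * θ = x - y := by rw [hθ]; ring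
    rwa [this]
  have hseg : ∀ r ∈ Icc (0:ℝ) 1, |(m + r * θ) - (m - r * θ)| ≤ T / 2 := by
    intro r hr
    have e : (m + r * θ) - (m - r * θ) = r * (2 * θ) := by ring
    rw [e, abs_mul, abs_of_nonneg hr.1]
    calc r * |2 * θ| ≤ 1 * |2 * θ| := mul_le_mul_of_nonneg_right hr.2 (abs_nonneg _)
      _ ≤ T / 2 := by rw [one_mul]; exact hθ2
  have hseg' : ∀ r ∈ Icc (0:ℝ) 1, |(m - r * θ) - (m + r * θ)| ≤ T / 2 := by
    intro r hr
    rw [abs_sub_comm]; exact hseg r hr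
  set H : ℝ × ℝ → ℝ := fun p => Pool.Agent.MP_ae5b4e_an_hopf.P1 F p -
    Pool.Agent.MP_ae5b4e_an_hopf.P2 F p with hH
  have hgd : ∀ r ∈ Icc (0:ℝ) 1, HasDerivWithinAt g
      (θ * (H (m + r * θ, m - r * θ) - H (m - r * θ, m + r * θ))) (Icc 0 1) r := by
    intro r hr
    have e1 : HasDerivAt (fun r : ℝ => m + r * θ) θ r := by
      simpa using ((hasDerivAt_id r).mul_const θ).const_add m
    have e2 : HasDerivAt (fun r : ℝ => m - r * θ) (-θ) r := by
      simpa using ((hasDerivAt_id r).mul_const θ).const_sub m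
    have k1 := hF.hasDerivAt_comp e1 e2 (by
      show |(m + r * θ) - (m - r * θ)| < T
      have := hseg r hr
      linarith)
    have k2 := hF.hasDerivAt_comp e2 e1 (by
      show |(m - r * θ) - (m + r * θ)| < T
      have := hseg' r hr
      linarith)
    refine ((k1.add k2).congr_deriv ?_).hasDerivWithinAt
    rw [hH]
    ring
  have hbd : ∀ r ∈ Ico (0:ℝ) 1,
      ‖θ * (H (m + r * θ, m - r * θ) - H (m - r * θ, m + r * θ))‖ ≤ C * (x - y) ^ 2 := by
    intro r hr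
    have hr' : r ∈ Icc (0:ℝ) 1 := ⟨hr.1, hr.2.le⟩
    have h1 := hC (m + r * θ, m - r * θ) (m - r * θ, m + r * θ) (hseg r hr') (hseg' r hr')
    have h2 : ‖((m + r * θ, m - r * θ) : ℝ × ℝ) - (m - r * θ, m + r * θ)‖ ≤ |x - y| := by
      rw [Prod.norm_def]
      simp only [Prod.fst_sub, Prod.snd_sub, Real.norm_eq_abs]
      have e1 : m + r * θ - (m - r * θ) = r * (x - y) := by rw [hθ]; ring
      have e2 : m - r * θ - (m + r * θ) = -(r * (x - y)) := by rw [hθ]; ring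
      rw [e1, e2, abs_neg, max_self, abs_mul, abs_of_nonneg hr.1]
      calc r * |x - y| ≤ 1 * |x - y| := mul_le_mul_of_nonneg_right hr.2.le (abs_nonneg _)
        _ = |x - y| := one_mul _
    rw [norm_mul, Real.norm_eq_abs, Real.norm_eq_abs]
    have h3 : |θ| ≤ |x - y| := by
      rw [hθ, abs_div, abs_two]
      have := abs_nonneg (x - y)
      linarith
    calc |θ| * |H (m + r * θ, m - r * θ) - H (m - r * θ, m + r * θ)|
        ≤ |x - y| * (C * |x - y|) := by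
          refine mul_le_mul h3 (h1.trans (mul_le_mul_of_nonneg_left h2 hC0)) (abs_nonneg _)
            (abs_nonneg _)
      _ = C * (x - y) ^ 2 := by rw [← sq_abs (x - y)]; ring
  have hfin := norm_image_sub_le_of_norm_deriv_le_segment_01' hgd hbd
  have g0 : g 0 = 0 := by simp [hg, h0]
  have g1 : g 1 = F (x, y) + F (y, x) := by
    simp only [hg]
    have e1 : m + 1 * θ = x := by rw [hm, hθ]; ring
    have e2 : m - 1 * θ = y := by rw [hm, hθ]; ring
    rw [e1, e2]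
  rw [g0, g1, sub_zero] at hfin
  exact hfin

/-- Second order estimate when the function and its gradient vanish on the diagonal. -/
lemma quad (hF : Nice T F) (hT : 0 < T) {c : ℝ} (h0 : ∀ x, F (x, x) = c)
    (h2 : ∀ x, Pool.Agent.MP_ae5b4e_an_hopf.P2 F (x, x) = 0) :
    ∃ C, 0 ≤ C ∧ ∀ x y : ℝ, |x - y| ≤ T / 2 → |F (x, y) - c| ≤ C * (x - y) ^ 2 := by
  obtain ⟨C, hC0, hC⟩ := hF.P2.lip_left hT h2
  refine ⟨C, hC0, fun x y hxy => ?_⟩
  set g : ℝ → ℝ := fun r => F (x, x + r * (y - x)) with hg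
  have hseg : ∀ r ∈ Icc (0:ℝ) 1, |x - (x + r * (y - x))| ≤ |x - y| := by
    intro r hr
    have e : x - (x + r * (y - x)) = r * (x - y) := by ring
    rw [e, abs_mul, abs_of_nonneg hr.1]
    calc r * |x - y| ≤ 1 * |x - y| := mul_le_mul_of_nonneg_right hr.2 (abs_nonneg _)
      _ = |x - y| := one_mul _
  have hgd : ∀ r ∈ Icc (0:ℝ) 1, HasDerivWithinAt g
      ((y - x) * Pool.Agent.MP_ae5b4e_an_hopf.P2 F (x, x + r * (y - x))) (Icc 0 1) r := by
    intro r hr
    have e1 : HasDerivAt (fun r : ℝ => x + r * (y - x)) (y - x) r := by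
      simpa using ((hasDerivAt_id r).mul_const (y - x)).const_add x
    have k1 := hF.hasDerivAt_comp (hasDerivAt_const r x) e1 (by
      show |x - (x + r * (y - x))| < T
      have := hseg r hr
      linarith)
    refine (k1.congr_deriv ?_).hasDerivWithinAt
    ring
  have hbd : ∀ r ∈ Ico (0:ℝ) 1,
      ‖(y - x) * Pool.Agent.MP_ae5b4e_an_hopf.P2 F (x, x + r * (y - x))‖ ≤ C * (x - y) ^ 2 := by
    intro r hr
    have hr' : r ∈ Icc (0:ℝ) 1 := ⟨hr.1, hr.2.le⟩
    have h1 := hC x (x + r * (y - x)) ((hseg r hr').trans hxy)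
    rw [norm_mul, Real.norm_eq_abs, Real.norm_eq_abs, abs_sub_comm y x]
    calc |x - y| * |Pool.Agent.MP_ae5b4e_an_hopf.P2 F (x, x + r * (y - x))|
        ≤ |x - y| * (C * |x - y|) :=
          mul_le_mul_of_nonneg_left (h1.trans (mul_le_mul_of_nonneg_left (hseg r hr') hC0))
            (abs_nonneg _)
      _ = C * (x - y) ^ 2 := by rw [← sq_abs (x - y)]; ring
  have hfin := norm_image_sub_le_of_norm_deriv_le_segment_01' hgd hbd
  have g0 : g 0 = c := by simp [hg, h0]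
  have g1 : g 1 = F (x, y) := by simp [hg]
  rw [g0, g1] at hfin
  exact hfin

end Nice

end Pool.Agent.MP_ae5b4e_an_hopf
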