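import Mathlib
import Pool.Agent.Lib.MP_ae5b4e_an_hopf.Det
import Pool.Agent.Lib.MP_ae5b4e_an_hopf.Nice

/-!
The behaviour of `dd` near the diagonal: `dd x y = (x - y)² dq x y` with a smooth positive `dq`,
and the consequences for the logarithmic derivatives.
-/

noncomputable section

namespace Pool.Agent.MP_ae5b4e_an_hopf

open Set Filter Topology
open scoped ContDiff

variable (Γ : ℝ → Fin 3 → ℝ)

/-- the quotient of `dd` by `(x - y)²` -/
def dq (x y : ℝ) : ℝ := ∫ r in (0:ℝ)..1, (1 - r) * ddxx Γ (y + r * (x - y)) y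

/-- the logarithm of the quotient -/
def el (p : ℝ × ℝ) : ℝ := Real.log (dq Γ p.1 p.2)

variable {Γ} {T : ℝ}

namespace Curve

variable (h : Curve T Γ)
include h

lemma contDiff_dq : ContDiff ℝ ∞ (fun p : ℝ × ℝ => dq Γ p.1 p.2) := by
  have h1 : ContDiff ℝ ∞ (fun q : (ℝ × ℝ) × ℝ =>
      (1 - q.2) * ddxx Γ (q.1.2 + q.2 * (q.1.1 - q.1.2)) q.1.2) := by
    refine (contDiff_const.sub contDiff_snd).mul ?_
    refine h.contDiff_ddxx.comp (g := fun p : ℝ × ℝ => ddxx Γ p.1 p.2)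
      (f := fun q : (ℝ × ℝ) × ℝ => (q.1.2 + q.2 * (q.1.1 - q.1.2), q.1.2)) ?_
    fun_prop
  exact contDiff_param h1

lemma dd_eq (x y : ℝ) : dd Γ x y = (x - y) ^ 2 * dq Γ x y := by
  have hc : Continuous fun x => ddxx Γ x y :=
    h.contDiff_ddxx.continuous.comp (by fun_prop : Continuous fun x : ℝ => (x, y))
  have h1 := taylor_two (g := fun x => dd Γ x y) (g' := fun x => ddx Γ x y)
    (g'' := fun x => ddxx Γ x y) (fun t => h.hasDerivAt_dd_left t y)
    (fun t => h.hasDerivAt_ddx_left t y) hc x y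
  rw [h1]
  have e1 : dd Γ y y = 0 := det3_self_left _ _
  have e2 : ddx Γ y y = 0 := det3_self_outer _ _
  rw [e1, e2, mul_zero, zero_add, zero_add]
  rfl

lemma dq_diag (x : ℝ) : dq Γ x x = Wr Γ x / 2 := by
  unfold dq
  simp only [sub_self, mul_zero, add_zero]
  have e : ddxx Γ x x = Wr Γ x := by unfold ddxx Wr; rw [det3_cycle]
  rw [e, intervalIntegral.integral_mul_const]
  have : ∫ r in (0:ℝ)..1, (1 - r) = 1 / 2 := by
    rw [intervalIntegral.integral_sub (continuous_const.intervalIntegrable _ _)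
      (continuous_id'.intervalIntegrable _ _)]
    simp
    norm_num
  rw [this]
  ring

lemma dq_per (x y : ℝ) : dq Γ (x + T) (y + T) = dq Γ x y := by
  unfold dq
  refine intervalIntegral.integral_congr fun r _ => ?_
  have e : y + T + r * (x + T - (y + T)) = (y + r * (x - y)) + T := by ring
  simp only [e, h.ddxx_per_left, h.ddxx_per_right]

lemma dq_pos {x y : ℝ} (hxy : |x - y| < T) : 0 < dq Γ x y := by
  by_cases hne : x = y
  · subst hne
    rw [h.dq_diag]
    exact half_pos (h.Wr_pos _)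
  · have h1 := h.dd_pos hne hxy
    rw [h.dd_eq] at h1
    exact pos_of_mul_pos_right h1 (sq_nonneg _)

lemma nice_dq : Nice T (fun p => dq Γ p.1 p.2) where
  smooth := h.contDiff_dq.contDiffOn
  per p := h.dq_per p.1 p.2

lemma nice_el : Nice T (el Γ) := h.nice_dq.log fun _ hp => (h.dq_pos hp).ne'

lemma el_diag (x : ℝ) : el Γ (x, x) = Real.log (Wr Γ x / 2) := by
  unfold el; rw [h.dq_diag]

lemma log_dd {x y : ℝ} (hne : x ≠ y) (hxy : |x - y| < T) :
    Real.log (dd Γ x y) = 2 * Real.log (x - y) + el Γ (x, y) := by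
  rw [h.dd_eq, Real.log_mul (pow_ne_zero 2 (sub_ne_zero.2 hne)) (h.dq_pos hxy).ne',
    Real.log_pow]
  rfl

omit h in
/-- off the diagonal, near a point -/
lemma eventually_left {x y : ℝ} (hne : x ≠ y) (hxy : |x - y| < T) :
    ∀ᶠ z in 𝓝 x, z ≠ y ∧ |z - y| < T := by
  have h1 : ∀ᶠ z in 𝓝 x, z ≠ y := isOpen_ne.mem_nhds hne
  have h2 : ∀ᶠ z in 𝓝 x, |z - y| < T :=
    (isOpen_lt (by fun_prop : Continuous fun z : ℝ => |z - y|) continuous_const).mem_nhds hxy
  exact h1.and h2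

omit h in
lemma eventually_right {x y : ℝ} (hne : x ≠ y) (hxy : |x - y| < T) :
    ∀ᶠ z in 𝓝 y, x ≠ z ∧ |x - z| < T := by
  have h1 : ∀ᶠ z in 𝓝 y, x ≠ z := by
    filter_upwards [isOpen_ne.mem_nhds hne.symm] with z hz
    exact fun e => hz e.symm
  have h2 : ∀ᶠ z in 𝓝 y, |x - z| < T :=
    (isOpen_lt (by fun_prop : Continuous fun z : ℝ => |x - z|) continuous_const).mem_nhds hxy
  exact h1.and h2

lemma L1_eq {x y : ℝ} (hne : x ≠ y) (hxy : |x - y| < T) :
    L1 Γ x y = 2 / (x - y) + P1 (el Γ) (x, y) := by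
  have h1 := h.hasDerivAt_log_left (h.dd_pos hne hxy).ne'
  have e1 : HasDerivAt (fun z : ℝ => Real.log (z - y)) (1 / (x - y)) x :=
    ((hasDerivAt_id x).sub_const y).log (sub_ne_zero.2 hne)
  have h2 := (e1.const_mul 2).add (h.nice_el.hasDerivAt_left hxy)
  have h3 : (fun z => Real.log (dd Γ z y)) =ᶠ[𝓝 x]
      fun z => 2 * Real.log (z - y) + el Γ (z, y) := by
    filter_upwards [eventually_left hne hxy] with z hz
    exact h.log_dd hz.1 hz.2
  have h4 := h1.unique (h2.congr_of_eventuallyEq h3)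
  rw [h4]
  ring

lemma L2_eq {x y : ℝ} (hne : x ≠ y) (hxy : |x - y| < T) :
    L2 Γ x y = -(2 / (x - y)) + P2 (el Γ) (x, y) := by
  have h1 := h.hasDerivAt_log_right (h.dd_pos hne hxy).ne'
  have e1 : HasDerivAt (fun z : ℝ => Real.log (x - z)) (-1 / (x - y)) y :=
    ((hasDerivAt_id y).const_sub x).log (sub_ne_zero.2 hne)
  have h2 := (e1.const_mul 2).add (h.nice_el.hasDerivAt_right hxy)
  have h3 : (fun z => Real.log (dd Γ x z)) =ᶠ[𝓝 y]
      fun z => 2 * Real.log (x - z) + el Γ (x, z) := by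
    filter_upwards [eventually_right hne hxy] with z hz
    exact h.log_dd hz.1 hz.2
  have h4 := h1.unique (h2.congr_of_eventuallyEq h3)
  rw [h4]
  ring

lemma KK_eq {x y : ℝ} (hne : x ≠ y) (hxy : |x - y| < T) :
    KK Γ x y = 2 / (x - y) ^ 2 + P2 (P1 (el Γ)) (x, y) := by
  have h1 := h.hasDerivAt_L1_right (h.dd_pos hne hxy).ne'
  have hne' : x - y ≠ 0 := sub_ne_zero.2 hne
  have e1 : HasDerivAt (fun z : ℝ => 2 / (x - z)) (2 / (x - y) ^ 2) y := by
    refine ((hasDerivAt_const y (2:ℝ)).div ((hasDerivAt_id y).const_sub x) hne').congr_deriv ?_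
    simp
  have h2 := e1.add (h.nice_el.P1.hasDerivAt_right hxy)
  have h3 : (fun z => L1 Γ x z) =ᶠ[𝓝 y] fun z => 2 / (x - z) + P1 (el Γ) (x, z) := by
    filter_upwards [eventually_right hne hxy] with z hz
    exact h.L1_eq hz.1 hz.2
  exact h1.unique (h2.congr_of_eventuallyEq h3)

lemma L11_eq {x y : ℝ} (hne : x ≠ y) (hxy : |x - y| < T) :
    L11 Γ x y = -(2 / (x - y) ^ 2) + P1 (P1 (el Γ)) (x, y) := by
  have h1 := h.hasDerivAt_L1_left (h.dd_pos hne hxy).ne'
  have hne' : x - y ≠ 0 := sub_ne_zero.2 hne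
  have e1 : HasDerivAt (fun z : ℝ => 2 / (z - y)) (-(2 / (x - y) ^ 2)) x := by
    refine ((hasDerivAt_const x (2:ℝ)).div ((hasDerivAt_id x).sub_const y) hne').congr_deriv ?_
    simp
    ring
  have h2 := e1.add (h.nice_el.P1.hasDerivAt_left hxy)
  have h3 : (fun z => L1 Γ z y) =ᶠ[𝓝 x] fun z => 2 / (z - y) + P1 (el Γ) (z, y) := by
    filter_upwards [eventually_left hne hxy] with z hz
    exact h.L1_eq hz.1 hz.2
  exact h1.unique (h2.congr_of_eventuallyEq h3)

lemma KK_dq {x y : ℝ} (hne : x ≠ y) (hxy : |x - y| < T) :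
    KK Γ x y * (x - y) ^ 2 = Wr Γ y * dq Γ y x / dq Γ x y ^ 2 := by
  unfold KK
  rw [h.dd_eq x y, h.dd_eq y x]
  have h1 := (h.dq_pos hxy).ne'
  have h2 : x - y ≠ 0 := sub_ne_zero.2 hne
  have e : (y - x) ^ 2 = (x - y) ^ 2 := by ring
  rw [e]
  field_simp

/-- the relation between the mixed derivative and the quotient, valid also on the diagonal -/
lemma dq_rel {x y : ℝ} (hxy : |x - y| < T) :
    Wr Γ y * dq Γ y x / dq Γ x y ^ 2 = 2 + (x - y) ^ 2 * P2 (P1 (el Γ)) (x, y) := by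
  by_cases hne : x = y
  · subst hne
    have h1 := (h.Wr_pos x).ne'
    rw [h.dq_diag]
    simp
    field_simp
  · rw [← h.KK_dq hne hxy, h.KK_eq hne hxy]
    have h2 : x - y ≠ 0 := sub_ne_zero.2 hne
    field_simp

lemma hasDerivAt_Wr (y : ℝ) : HasDerivAt (Wr Γ) (deriv (Wr Γ) y) y :=
  ((h.contDiff_Wr.differentiable (by simp)) y).hasDerivAt

/-- sum of the partial derivatives on the diagonal -/
lemma el_sum (x : ℝ) : P1 (el Γ) (x, x) + P2 (el Γ) (x, x) = deriv (Wr Γ) x / Wr Γ x := by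
  have h1 := h.nice_el.hasDerivAt_comp (hasDerivAt_id x) (hasDerivAt_id x) (by
    show |id x - id x| < T
    simpa using h.T_pos)
  have h2 : HasDerivAt (fun z => Real.log (Wr Γ z / 2)) (deriv (Wr Γ) x / Wr Γ x) x := by
    refine (((h.hasDerivAt_Wr x).div_const 2).log (half_pos (h.Wr_pos x)).ne').congr_deriv ?_
    have := (h.Wr_pos x).ne'
    field_simp
  have h3 : (fun s : ℝ => el Γ (id s, id s)) = fun z => Real.log (Wr Γ z / 2) :=
    funext fun z => h.el_diag z
  rw [h3] at h1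
  have h4 := h1.unique h2
  simpa using h4

/-- relation between the partial derivatives on the diagonal -/
lemma el_rel (y : ℝ) : P2 (el Γ) (y, y) = 2 * P1 (el Γ) (y, y) := by
  have hyy : |y - y| < T := by simpa using h.T_pos
  have hev : ∀ᶠ x in 𝓝 y, |x - y| < T :=
    (isOpen_lt (by fun_prop : Continuous fun z : ℝ => |z - y|) continuous_const).mem_nhds hyy
  -- left side through logarithms
  have h1 : HasDerivAt (fun x => Real.log (Wr Γ y) + el Γ (y, x) - 2 * el Γ (x, y))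
      (P2 (el Γ) (y, y) - 2 * P1 (el Γ) (y, y)) y :=
    ((h.nice_el.hasDerivAt_right hyy).const_add _).sub
      ((h.nice_el.hasDerivAt_left hyy).const_mul 2)
  have hcont : ContinuousAt (fun x => P2 (P1 (el Γ)) (x, y)) y :=
    (h.nice_el.P1.P2.hasDerivAt_left hyy).continuousAt
  have h2 : HasDerivAt (fun x => Real.log (2 + (x - y) ^ 2 * P2 (P1 (el Γ)) (x, y))) 0 y := by
    have e1 := (((hasDerivAt_id y).sub_const y).pow 2).mul
      (h.nice_el.P1.P2.hasDerivAt_left hyy)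
    have e2 := (e1.const_add 2).log (by simp)
    refine e2.congr_deriv ?_
    simp
  have h3 : (fun x => Real.log (2 + (x - y) ^ 2 * P2 (P1 (el Γ)) (x, y))) =ᶠ[𝓝 y]
      fun x => Real.log (Wr Γ y) + el Γ (y, x) - 2 * el Γ (x, y) := by
    filter_upwards [hev] with x hx
    rw [← h.dq_rel hx]
    have hx' : |y - x| < T := by rwa [abs_sub_comm]
    have p1 := (h.Wr_pos y).ne'
    have p2 := (h.dq_pos hx).ne'
    have p3 := (h.dq_pos hx').ne'
    rw [Real.log_div (mul_ne_zero p1 p3) (pow_ne_zero 2 p2), Real.log_mul p1 p3, Real.log_pow]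
    rfl
  have h4 := h2.unique (h1.congr_of_eventuallyEq h3)
  linarith

lemma el_P1 (y : ℝ) : P1 (el Γ) (y, y) = deriv (Wr Γ) y / Wr Γ y / 3 := by
  have h1 := h.el_sum y
  have h2 := h.el_rel y
  linarith

lemma el_P2 (y : ℝ) : P2 (el Γ) (y, y) = 2 * (deriv (Wr Γ) y / Wr Γ y / 3) := by
  rw [h.el_rel, h.el_P1]

end Curve

end Pool.Agent.MP_ae5b4e_an_hopf
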