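import Mathlib
import Pool.Agent.Lib.MP_ae5b4e_an_hopf.Diag
import Pool.Agent.Lib.MP_ae5b4e_an_hopf.Cert

/-!
The density of the Hopf inequality and the null Lagrangian.
-/

noncomputable section

namespace Pool.Agent.MP_ae5b4e_an_hopf

open Set Filter Topology Real
open scoped ContDiff

/-- `tanh (3 δ / 4)` -/
def tf (δ : ℝ) : ℝ := (exp (3 / 2 * δ) - 1) / (exp (3 / 2 * δ) + 1)

lemma tf_neg (δ : ℝ) : tf (-δ) = -tf δ := by
  unfold tf
  have e : exp (3 / 2 * -δ) = (exp (3 / 2 * δ))⁻¹ := by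
    rw [← exp_neg]; congr 1; ring
  rw [e]
  have h := exp_pos (3 / 2 * δ)
  field_simp
  ring

lemma one_add_tf (δ : ℝ) : 1 + tf δ = 2 * exp (3 / 2 * δ) / (exp (3 / 2 * δ) + 1) := by
  unfold tf
  have h := exp_pos (3 / 2 * δ)
  field_simp
  ring

lemma one_sub_tf (δ : ℝ) : 1 - tf δ = 2 / (exp (3 / 2 * δ) + 1) := by
  unfold tf
  have h := exp_pos (3 / 2 * δ)
  field_simp
  ring

lemma one_add_tf_pos (δ : ℝ) : 0 < 1 + tf δ := by
  rw [one_add_tf]; positivity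

lemma one_sub_tf_pos (δ : ℝ) : 0 < 1 - tf δ := by
  rw [one_sub_tf]; positivity

lemma one_sub_tf_sq_pos (δ : ℝ) : 0 < 1 - tf δ ^ 2 := by
  have e : 1 - tf δ ^ 2 = (1 - tf δ) * (1 + tf δ) := by ring
  rw [e]
  exact mul_pos (one_sub_tf_pos δ) (one_add_tf_pos δ)

lemma exp_tf (δ : ℝ) : (1 + tf δ) / (1 - tf δ) = exp (3 / 2 * δ) := by
  rw [one_add_tf, one_sub_tf]
  have h := exp_pos (3 / 2 * δ)
  field_simp

lemma exp_tf' (δ : ℝ) : (1 - tf δ) / (1 + tf δ) = exp (-(3 / 2 * δ)) := by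
  rw [one_add_tf, one_sub_tf, exp_neg]
  have h := exp_pos (3 / 2 * δ)
  field_simp

lemma hasDerivAt_tf (δ : ℝ) : HasDerivAt tf (3 / 4 * (1 - tf δ ^ 2)) δ := by
  have h1 : HasDerivAt (fun δ : ℝ => exp (3 / 2 * δ)) (exp (3 / 2 * δ) * (3 / 2)) δ := by
    have := ((hasDerivAt_id δ).const_mul (3 / 2 : ℝ)).exp
    simpa using this
  have hp := exp_pos (3 / 2 * δ)
  have h2 := (h1.sub_const 1).div (h1.add_const 1) (by positivity)
  have h3 : (fun δ : ℝ => exp (3 / 2 * δ) - 1) / (fun δ : ℝ => exp (3 / 2 * δ) + 1) = tf := rfl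
  rw [h3] at h2
  refine h2.congr_deriv ?_
  unfold tf
  field_simp
  ring

lemma tf_zero : tf 0 = 0 := by unfold tf; simp

lemma abs_tf_le (δ : ℝ) : |tf δ| ≤ |δ| := by
  have h := Convex.norm_image_sub_le_of_norm_hasDerivWithin_le (f := tf) (C := 1)
    (s := univ) (x := 0) (y := δ) (fun x _ => (hasDerivAt_tf x).hasDerivWithinAt) ?_ convex_univ
    (mem_univ _) (mem_univ _)
  · rw [tf_zero, sub_zero, sub_zero, one_mul] at h
    exact h
  · intro x _
    rw [norm_eq_abs, abs_of_pos (mul_pos (by norm_num) (one_sub_tf_sq_pos x))]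
    nlinarith [sq_nonneg (tf x)]

lemma tf_eq_zero {δ : ℝ} (h : tf δ = 0) : δ = 0 := by
  unfold tf at h
  have hp := exp_pos (3 / 2 * δ)
  rw [div_eq_zero_iff] at h
  rcases h with h | h
  · have h1 : exp (3 / 2 * δ) = 1 := by linarith
    rw [exp_eq_one_iff] at h1
    linarith
  · linarith

variable (Γ : ℝ → Fin 3 → ℝ)

/-- the difference of the logarithms -/
def dl (x y : ℝ) : ℝ := log (dd Γ x y) - log (dd Γ y x)

/-- `1 / √(D₁ D₂)` -/
def vv (x y : ℝ) : ℝ := exp (-((log (dd Γ x y) + log (dd Γ y x)) / 2))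

/-- the density -/
def Idens (x y : ℝ) : ℝ :=
  L11 Γ x y * KK Γ x y + L11 Γ y x * KK Γ y x + 2 * (KK Γ x y * KK Γ y x)

/-- the potential -/
def Phi (x y : ℝ) : ℝ :=
  HC (L1 Γ x y) (L2 Γ y x) +
    2 * (vv Γ x y * ((n1 (tf (dl Γ x y)) * L1 Γ x y + n2 (tf (dl Γ x y)) * L2 Γ y x) /
      (1 - tf (dl Γ x y) ^ 2)))

/-- its derivative in the second variable -/
def Psi (x y : ℝ) : ℝ :=
  HCx (L1 Γ x y) (L2 Γ y x) * KK Γ x y + HCy (L1 Γ x y) (L2 Γ y x) * KK Γ y x +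
    2 * dS (tf (dl Γ x y)) (vv Γ x y) (L1 Γ x y) (L2 Γ y x) (KK Γ x y) (KK Γ y x)
      (L2 Γ x y + L1 Γ y x) (L2 Γ x y - L1 Γ y x)

/-- the nonnegative density -/
def Qdens (x y : ℝ) : ℝ :=
  2 * (vv Γ x y * QF (tf (dl Γ x y)) (L1 Γ x y) (L2 Γ y x) (L2 Γ x y) (L1 Γ y x) /
    (1 - tf (dl Γ x y) ^ 2)) +
  96 * vv Γ x y ^ 2 * tf (dl Γ x y) ^ 4 / (1 - tf (dl Γ x y) ^ 2) ^ 2

/-- the potential of the diagonal derivative -/
def Th (x y : ℝ) : ℝ := L1 Γ x y * KK Γ x y + L1 Γ y x * KK Γ y x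

variable {Γ} {T : ℝ}

lemma dl_swap (x y : ℝ) : dl Γ y x = -dl Γ x y := by unfold dl; ring
lemma vv_swap (x y : ℝ) : vv Γ y x = vv Γ x y := by unfold vv; rw [add_comm]
lemma vv_pos (x y : ℝ) : 0 < vv Γ x y := exp_pos _
lemma Idens_swap (x y : ℝ) : Idens Γ y x = Idens Γ x y := by unfold Idens; ring

lemma Qdens_nonneg (x y : ℝ) : 0 ≤ Qdens Γ x y := by
  have h1 := one_sub_tf_sq_pos (dl Γ x y)
  have h2 := vv_pos (Γ := Γ) x y
  have h4 : -1 ≤ tf (dl Γ x y) := by linarith [one_add_tf_pos (dl Γ x y)]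
  have h5 : tf (dl Γ x y) ≤ 1 := by linarith [one_sub_tf_pos (dl Γ x y)]
  have h3 := QF_nonneg h4 h5 (L1 Γ x y) (L2 Γ y x) (L2 Γ x y) (L1 Γ y x)
  unfold Qdens
  positivity

/-- derivative of the products in the potential -/
lemma hasDerivAt_pot {X Y V δ : ℝ → ℝ} {A B p q t : ℝ} (hX : HasDerivAt X A t)
    (hY : HasDerivAt Y B t) (hV : HasDerivAt V (-(V t * p / 2)) t) (hδ : HasDerivAt δ q t) :
    HasDerivAt (fun s => HC (X s) (Y s) + 2 * (V s * ((n1 (tf (δ s)) * X s +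
        n2 (tf (δ s)) * Y s) / (1 - tf (δ s) ^ 2))))
      (HCx (X t) (Y t) * A + HCy (X t) (Y t) * B +
        2 * dS (tf (δ t)) (V t) (X t) (Y t) A B p q) t := by
  have hτ : HasDerivAt (fun s => tf (δ s)) (3 / 4 * (1 - tf (δ t) ^ 2) * q) t :=
    (hasDerivAt_tf (δ t)).comp t hδ
  have hn0 := (one_sub_tf_sq_pos (δ t)).ne'
  have k1 : HasDerivAt (fun s => HC (X s) (Y s)) (HCx (X t) (Y t) * A + HCy (X t) (Y t) * B) t := by
    unfold HC
    have e := (hY.sub hX).mul ((((hX.pow 2).const_mul 24).add ((hX.const_mul 8).mul hY)).add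
      ((hY.pow 2).const_mul 3))
    refine e.congr_deriv ?_
    unfold HCx HCy
    simp only [Pi.add_apply, Pi.mul_apply, Pi.sub_apply, Pi.pow_apply]
    ring
  have k2 : HasDerivAt (fun s => n1 (tf (δ s))) (dn1 (tf (δ t)) *
      (3 / 4 * (1 - tf (δ t) ^ 2) * q)) t := by
    unfold n1
    have e := (((hτ.pow 2).const_mul 10).const_add (-94)).sub ((hτ.pow 4).const_mul 20)
    refine e.congr_deriv ?_
    unfold dn1
    push_cast
    ring
  have k3 : HasDerivAt (fun s => n2 (tf (δ s))) (dn2 (tf (δ t)) *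
      (3 / 4 * (1 - tf (δ t) ^ 2) * q)) t := by
    unfold n2
    have e := ((((hτ.const_mul 72).const_add 94).add ((hτ.pow 2).const_mul 46)).sub
      ((hτ.pow 3).const_mul 16)).add ((hτ.pow 4).const_mul 20)
    refine e.congr_deriv ?_
    unfold dn2
    push_cast
    ring
  have k4 : HasDerivAt (fun s => 1 - tf (δ s) ^ 2) (-(2 * tf (δ t) *
      (3 / 4 * (1 - tf (δ t) ^ 2) * q))) t := by
    refine ((hτ.pow 2).const_sub 1).congr_deriv ?_
    push_cast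
    ring
  have k5 := (hV.mul (((k2.mul hX).add (k3.mul hY)).div k4 hn0)).const_mul 2
  refine (k1.add k5).congr_deriv ?_
  unfold dS
  simp only [Pi.add_apply, Pi.mul_apply, Pi.div_apply]
  field_simp
  ring

namespace Curve

variable (h : Curve T Γ)
include h

lemma dl_per_left (x y : ℝ) : dl Γ (x + T) y = dl Γ x y := by
  unfold dl; rw [h.dd_per_left, h.dd_per_right]
lemma dl_per_right (x y : ℝ) : dl Γ x (y + T) = dl Γ x y := by
  unfold dl; rw [h.dd_per_left, h.dd_per_right]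
lemma vv_per_left (x y : ℝ) : vv Γ (x + T) y = vv Γ x y := by
  unfold vv; rw [h.dd_per_left, h.dd_per_right]
lemma vv_per_right (x y : ℝ) : vv Γ x (y + T) = vv Γ x y := by
  unfold vv; rw [h.dd_per_left, h.dd_per_right]
lemma Idens_per_left (x y : ℝ) : Idens Γ (x + T) y = Idens Γ x y := by
  unfold Idens; rw [h.L11_per_left, h.L11_per_right, h.KK_per_left, h.KK_per_right]
lemma Idens_per_right (x y : ℝ) : Idens Γ x (y + T) = Idens Γ x y := by
  unfold Idens; rw [h.L11_per_left, h.L11_per_right, h.KK_per_left, h.KK_per_right]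
lemma Phi_per_left (x y : ℝ) : Phi Γ (x + T) y = Phi Γ x y := by
  unfold Phi; rw [h.L1_per_left, h.L2_per_right, h.vv_per_left, h.dl_per_left]
lemma Phi_per_right (x y : ℝ) : Phi Γ x (y + T) = Phi Γ x y := by
  unfold Phi; rw [h.L1_per_right, h.L2_per_left, h.vv_per_right, h.dl_per_right]
lemma Psi_per_left (x y : ℝ) : Psi Γ (x + T) y = Psi Γ x y := by
  unfold Psi
  rw [h.L1_per_left, h.L1_per_right, h.L2_per_right, h.L2_per_left, h.vv_per_left, h.dl_per_left,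
    h.KK_per_left, h.KK_per_right]
lemma Psi_per_right (x y : ℝ) : Psi Γ x (y + T) = Psi Γ x y := by
  unfold Psi
  rw [h.L1_per_left, h.L1_per_right, h.L2_per_right, h.L2_per_left, h.vv_per_right, h.dl_per_right,
    h.KK_per_left, h.KK_per_right]
lemma Th_per_left (x y : ℝ) : Th Γ (x + T) y = Th Γ x y := by
  unfold Th; rw [h.L1_per_left, h.L1_per_right, h.KK_per_left, h.KK_per_right]
lemma Th_per_right (x y : ℝ) : Th Γ x (y + T) = Th Γ x y := by
  unfold Th; rw [h.L1_per_left, h.L1_per_right, h.KK_per_left, h.KK_per_right]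

omit h in
lemma KK_vv {x y : ℝ} (hW : ∀ y, Wr Γ y = 1) (h1 : 0 < dd Γ x y) (h2 : 0 < dd Γ y x) :
    KK Γ x y = vv Γ x y * (1 - tf (dl Γ x y)) / (1 + tf (dl Γ x y)) := by
  rw [mul_div_assoc, exp_tf']
  unfold KK vv dl
  rw [hW, one_mul, ← exp_add]
  have e1 : dd Γ y x / dd Γ x y ^ 2 = exp (log (dd Γ y x) - 2 * log (dd Γ x y)) := by
    rw [exp_sub, exp_log h2, two_mul, exp_add, exp_log h1, sq]
  rw [e1]
  congr 1
  ring

omit h in
lemma KK_vv' {x y : ℝ} (hW : ∀ y, Wr Γ y = 1) (h1 : 0 < dd Γ x y) (h2 : 0 < dd Γ y x) :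
    KK Γ y x = vv Γ x y * (1 + tf (dl Γ x y)) / (1 - tf (dl Γ x y)) := by
  rw [KK_vv hW h2 h1, vv_swap, dl_swap, tf_neg, sub_neg_eq_add, ← sub_eq_add_neg]

/-- `Psi` is the derivative of `Phi` in the second variable. -/
lemma hasDerivAt_Phi {x y : ℝ} (h1 : dd Γ x y ≠ 0) (h2 : dd Γ y x ≠ 0) :
    HasDerivAt (fun y => Phi Γ x y) (Psi Γ x y) y := by
  have hV : HasDerivAt (fun y => vv Γ x y) (-(vv Γ x y * (L2 Γ x y + L1 Γ y x) / 2)) y := by
    have e := ((((h.hasDerivAt_log_right h1).add (h.hasDerivAt_log_left h2)).div_const 2).neg).exp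
    refine e.congr_deriv ?_
    unfold vv
    simp only [Pi.add_apply, Pi.neg_apply]
    ring
  have hδ : HasDerivAt (fun y => dl Γ x y) (L2 Γ x y - L1 Γ y x) y :=
    (h.hasDerivAt_log_right h1).sub (h.hasDerivAt_log_left h2)
  exact hasDerivAt_pot (h.hasDerivAt_L1_right h1) (h.hasDerivAt_L2_left h2) hV hδ

/-- derivative along the diagonal direction -/
lemma hasDerivAt_diag_dd (x y r : ℝ) :
    HasDerivAt (fun r => dd Γ (x + r) (y + r)) (ddx Γ (x + r) (y + r) + ddy Γ (x + r) (y + r)) r := by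
  have e1 : HasDerivAt (fun r : ℝ => x + r) 1 r := (hasDerivAt_id r).const_add x
  have e2 : HasDerivAt (fun r : ℝ => y + r) 1 r := (hasDerivAt_id r).const_add y
  have k0 := (h.hd0 (x + r)).scomp r e1
  have k1 := (h.hd0 (y + r)).scomp r e2
  have k2 := (h.hd1 (y + r)).scomp r e2
  refine (hasDerivAt_det3 k0 k1 k2).congr_deriv ?_
  unfold ddx ddy det3
  simp only [one_smul, Function.comp]
  ring

lemma hasDerivAt_diag_ddx (x y r : ℝ) :
    HasDerivAt (fun r => ddx Γ (x + r) (y + r))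
      (ddxx Γ (x + r) (y + r) + ddxy Γ (x + r) (y + r)) r := by
  have e1 : HasDerivAt (fun r : ℝ => x + r) 1 r := (hasDerivAt_id r).const_add x
  have e2 : HasDerivAt (fun r : ℝ => y + r) 1 r := (hasDerivAt_id r).const_add y
  have k0 := (h.hd1 (x + r)).scomp r e1
  have k1 := (h.hd0 (y + r)).scomp r e2
  have k2 := (h.hd1 (y + r)).scomp r e2
  refine (hasDerivAt_det3 k0 k1 k2).congr_deriv ?_
  unfold ddxx ddxy det3
  simp only [one_smul, Function.comp]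
  ring

lemma hasDerivAt_diag_L1 {x y r : ℝ} (hn : dd Γ (x + r) (y + r) ≠ 0) :
    HasDerivAt (fun r => L1 Γ (x + r) (y + r))
      (L11 Γ (x + r) (y + r) + KK Γ (x + r) (y + r)) r := by
  refine ((h.hasDerivAt_diag_ddx x y r).div (h.hasDerivAt_diag_dd x y r) hn).congr_deriv ?_
  unfold L11 KK
  rw [← pluecker]
  field_simp
  ring

lemma hasDerivAt_diag_KK {x y r : ℝ} (hW : ∀ y, Wr Γ y = 1) (hn : dd Γ (x + r) (y + r) ≠ 0)
    (hn' : dd Γ (y + r) (x + r) ≠ 0) :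
    HasDerivAt (fun r => KK Γ (x + r) (y + r))
      (KK Γ (x + r) (y + r) * ((L1 Γ (y + r) (x + r) + L2 Γ (y + r) (x + r)) -
        2 * (L1 Γ (x + r) (y + r) + L2 Γ (x + r) (y + r)))) r := by
  have e : (fun r => KK Γ (x + r) (y + r)) =
      fun r => dd Γ (y + r) (x + r) / dd Γ (x + r) (y + r) ^ 2 := by
    funext r; unfold KK; rw [hW, one_mul]
  rw [e]
  refine ((h.hasDerivAt_diag_dd y x r).div ((h.hasDerivAt_diag_dd x y r).pow 2)
    (pow_ne_zero 2 hn)).congr_deriv ?_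
  unfold KK L1 L2
  rw [hW]
  simp only [Pi.pow_apply]
  push_cast
  field_simp

/-- the derivative of `Th` along the diagonal direction -/
def dTh (Γ : ℝ → Fin 3 → ℝ) (x y : ℝ) : ℝ :=
  (L11 Γ x y + KK Γ x y) * KK Γ x y +
    L1 Γ x y * (KK Γ x y * ((L1 Γ y x + L2 Γ y x) - 2 * (L1 Γ x y + L2 Γ x y))) +
  ((L11 Γ y x + KK Γ y x) * KK Γ y x +
    L1 Γ y x * (KK Γ y x * ((L1 Γ x y + L2 Γ x y) - 2 * (L1 Γ y x + L2 Γ y x))))

lemma hasDerivAt_diag_Th {x y r : ℝ} (hW : ∀ y, Wr Γ y = 1) (hn : dd Γ (x + r) (y + r) ≠ 0)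
    (hn' : dd Γ (y + r) (x + r) ≠ 0) :
    HasDerivAt (fun r => Th Γ (x + r) (y + r)) (dTh Γ (x + r) (y + r)) r :=
  ((h.hasDerivAt_diag_L1 hn).mul (h.hasDerivAt_diag_KK hW hn hn')).add
    ((h.hasDerivAt_diag_L1 hn').mul (h.hasDerivAt_diag_KK hW hn' hn))

omit h in
/-- The density is the nonnegative density up to null Lagrangians. -/
theorem density_identity {x y : ℝ} (hW : ∀ y, Wr Γ y = 1) (h1 : 0 < dd Γ x y)
    (h2 : 0 < dd Γ y x) :
    50 * Idens Γ x y = Qdens Γ x y - Psi Γ x y - Psi Γ y x + 50 * dTh Γ x y := by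
  have hA := KK_vv hW h1 h2
  have hB := KK_vv' hW h1 h2
  have key := main_identity (one_add_tf_pos (dl Γ x y)).ne' (one_sub_tf_pos (dl Γ x y)).ne' hA hB
    (L1 Γ x y) (L2 Γ y x) (L2 Γ x y) (L1 Γ y x)
  unfold Qdens
  rw [← key]
  unfold Idens Psi dTh
  rw [vv_swap x y, dl_swap x y, tf_neg]
  have e1 : L2 Γ y x + L1 Γ x y = L1 Γ x y + L2 Γ y x := add_comm _ _
  have e2 : L2 Γ y x - L1 Γ x y = -(L1 Γ x y - L2 Γ y x) := by ring
  rw [e1, e2]
  ring

end Curve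

end Pool.Agent.MP_ae5b4e_an_hopf
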