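import Mathlib
import Pool.Agent.Lib.MP_ae5b4e_an_hopf.Phi

/-!
The equality case: if the nonnegative density vanishes identically, the curve is
`e₀ + cos (w t) e₁ + sin (w t) e₂`.
-/

noncomputable section

namespace Pool.Agent.MP_ae5b4e_an_hopf

open Set Filter Topology Real MeasureTheory intervalIntegral
open scoped ContDiff

variable {Γ : ℝ → Fin 3 → ℝ} {T : ℝ}

namespace Curve

variable (h : Curve T Γ)
include h

lemma contDiff_all : ContDiff ℝ ∞ (deriv (deriv (deriv Γ))) := (contDiff_infty_iff_deriv.1 h.smooth2).2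

/-- consequences of the vanishing of the density -/
lemma of_Q_zero (hQ : ∀ t s, t < s → s < t + T → Qdens Γ t s = 0) :
    (∀ t s, t < s → s < t + T → dd Γ t s = dd Γ s t) ∧
    (∀ t s, t < s → s < t + T → L1 Γ t s + L2 Γ t s = 0) := by
  have hS : ∀ t s, t < s → s < t + T → dd Γ t s = dd Γ s t ∧ tf (dl Γ t s) = 0 := by
    intro t s h1 h2
    have hq := hQ t s h1 h2
    have e1 := one_sub_tf_sq_pos (dl Γ t s)
    have e2 := vv_pos (Γ := Γ) t s
    have e4 : -1 ≤ tf (dl Γ t s) := by linarith [one_add_tf_pos (dl Γ t s)]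
    have e5 : tf (dl Γ t s) ≤ 1 := by linarith [one_sub_tf_pos (dl Γ t s)]
    have e3 := QF_nonneg e4 e5 (L1 Γ t s) (L2 Γ s t) (L2 Γ t s) (L1 Γ s t)
    unfold Qdens at hq
    have k1 : 0 ≤ 2 * (vv Γ t s * QF (tf (dl Γ t s)) (L1 Γ t s) (L2 Γ s t) (L2 Γ t s) (L1 Γ s t) /
        (1 - tf (dl Γ t s) ^ 2)) := by positivity
    have k2 : 0 ≤ 96 * vv Γ t s ^ 2 * tf (dl Γ t s) ^ 4 / (1 - tf (dl Γ t s) ^ 2) ^ 2 := by
      positivity
    have k3 : 96 * vv Γ t s ^ 2 * tf (dl Γ t s) ^ 4 / (1 - tf (dl Γ t s) ^ 2) ^ 2 = 0 := by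
      linarith
    rw [div_eq_zero_iff] at k3
    have k4 : tf (dl Γ t s) = 0 := by
      rcases k3 with k3 | k3
      · have := (mul_eq_zero.1 k3).resolve_left (by positivity)
        exact pow_eq_zero_iff (by norm_num) |>.1 this
      · exact absurd k3 (by positivity)
    refine ⟨?_, k4⟩
    have k5 := tf_eq_zero k4
    unfold dl at k5
    have d1 := h.dd_pos_right h1 h2
    have d2 := h.dd_pos_left h1 h2
    exact log_injOn_pos d1 d2 (by linarith)
  refine ⟨fun t s h1 h2 => (hS t s h1 h2).1, fun t s h1 h2 => ?_⟩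
  have d1 := h.dd_pos_right h1 h2
  have d2 := h.dd_pos_left h1 h2
  -- `L1 t s = L2 s t`
  have f1 : L1 Γ t s = L2 Γ s t := by
    have a1 := h.hasDerivAt_dd_left t s
    have a2 := h.hasDerivAt_dd_right s t
    have a3 : (fun t => dd Γ t s) =ᶠ[𝓝 t] fun t => dd Γ s t := by
      have o1 : ∀ᶠ x in 𝓝 t, x < s := isOpen_Iio.mem_nhds h1
      have o2 : ∀ᶠ x in 𝓝 t, s < x + T := by
        have : ∀ᶠ x in 𝓝 t, s - T < x := isOpen_Ioi.mem_nhds (by
          show s - T < t
          linarith)
        filter_upwards [this] with x hx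
        linarith
      filter_upwards [o1, o2] with x hx1 hx2
      exact (hS x s hx1 hx2).1
    have a4 := a1.unique (a2.congr_of_eventuallyEq a3)
    unfold L1 L2
    rw [a4, (hS t s h1 h2).1]
  have f2 : L2 Γ t s = L1 Γ s t := by
    have a1 := h.hasDerivAt_dd_right t s
    have a2 := h.hasDerivAt_dd_left s t
    have a3 : (fun s => dd Γ t s) =ᶠ[𝓝 s] fun s => dd Γ s t := by
      have o1 : ∀ᶠ x in 𝓝 s, t < x := isOpen_Ioi.mem_nhds h1
      have o2 : ∀ᶠ x in 𝓝 s, x < t + T := isOpen_Iio.mem_nhds h2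
      filter_upwards [o1, o2] with x hx1 hx2
      exact (hS t x hx1 hx2).1
    have a4 := a1.unique (a2.congr_of_eventuallyEq a3)
    unfold L1 L2
    rw [a4, (hS t s h1 h2).1]
  have hq := hQ t s h1 h2
  have k4 := (hS t s h1 h2).2
  unfold Qdens at hq
  rw [k4, ← f1, ← f2, QF_zero] at hq
  have e2 := vv_pos (Γ := Γ) t s
  have k5 : vv Γ t s * (L1 Γ t s + L2 Γ t s) ^ 2 = 0 := by
    norm_num at hq
    rcases hq with hq | hq
    · exact absurd hq e2.ne'
    · rw [hq]; ring
  rcases mul_eq_zero.1 k5 with k6 | k6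
  · exact absurd k6 e2.ne'
  · exact pow_eq_zero_iff (by norm_num) |>.1 k6

/-- symmetry and translation invariance everywhere -/
lemma dd_symm_all (hS : ∀ t s, t < s → s < t + T → dd Γ t s = dd Γ s t) (x y : ℝ) :
    dd Γ x y = dd Γ y x := by
  have hper : Function.Periodic (fun y => dd Γ x y - dd Γ y x) T := by
    intro y
    simp only [h.dd_per_left, h.dd_per_right]
  obtain ⟨z, hz, hz'⟩ := hper.exists_mem_Ico h.T_pos y x
  have : dd Γ x z - dd Γ z x = 0 := by
    rcases hz.1.eq_or_lt with e | e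
    · rw [e, sub_self]
    · rw [hS x z e hz.2, sub_self]
  linarith

lemma dd_shift_all (hL : ∀ t s, t < s → s < t + T → L1 Γ t s + L2 Γ t s = 0) (x y r : ℝ) :
    dd Γ (x + r) (y + r) = dd Γ x y := by
  have key : ∀ y, x < y → y < x + T → ∀ r, dd Γ (x + r) (y + r) = dd Γ x y := by
    intro y h1 h2 r
    have hd : ∀ r, HasDerivAt (fun r => dd Γ (x + r) (y + r)) 0 r := by
      intro r
      refine (h.hasDerivAt_diag_dd x y r).congr_deriv ?_
      have h3 : x + r < y + r := by linarith
      have h4 : y + r < x + r + T := by linarith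
      have h5 := (h.dd_pos_right h3 h4).ne'
      have h6 := hL _ _ h3 h4
      unfold L1 L2 at h6
      field_simp at h6
      simpa using h6
    have := is_const_of_deriv_eq_zero (fun r => (hd r).differentiableAt) (fun r => (hd r).deriv) r 0
    simpa using this
  have hper : Function.Periodic (fun y => dd Γ (x + r) (y + r) - dd Γ x y) T := by
    intro y
    have e : y + T + r = (y + r) + T := by ring
    simp only [e, h.dd_per_right]
  obtain ⟨z, hz, hz'⟩ := hper.exists_mem_Ico h.T_pos y x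
  have : dd Γ (x + r) (z + r) - dd Γ x z = 0 := by
    rcases hz.1.eq_or_lt with e | e
    · rw [← e]
      unfold dd
      rw [det3_self_left, det3_self_left, sub_zero]
    · rw [key z e hz.2 r, sub_self]
  linarith

end Curve

lemma deriv_parity {f f' : ℝ → ℝ} {s : ℝ} (hf : ∀ z, HasDerivAt f (f' z) z)
    (h : ∀ z, f (-z) = s * f z) (z : ℝ) : f' (-z) = -s * f' z := by
  have h1 : HasDerivAt (fun z => f (-z)) (f' (-z) * -1) z :=
    (hf (-z)).comp z (hasDerivAt_neg z)
  have h2 : HasDerivAt (fun z => s * f z) (s * f' z) z := (hf z).const_mul s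
  have h3 : (fun z => f (-z)) = fun z => s * f z := funext h
  rw [h3] at h1
  have := h1.unique h2
  linarith

/-- Cramer's rule -/
lemma cramer (a b c v : Fin 3 → ℝ) (i : Fin 3) :
    det3 a b c * v i = det3 v b c * a i + det3 a v c * b i + det3 a b v * c i := by
  fin_cases i <;> simp [det3] <;> ring

namespace Curve

variable (h : Curve T Γ)
include h

lemma det_third (hW : ∀ y, Wr Γ y = 1) (x : ℝ) :
    det3 (Γ x) (deriv Γ x) (deriv (deriv (deriv Γ)) x) = 0 := by
  have h1 := hasDerivAt_det3 (h.hd0 x) (h.hd1 x) (h.hd2 x)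
  have h2 : (fun s => det3 (Γ s) (deriv Γ s) (deriv (deriv Γ) s)) = fun _ => (1:ℝ) :=
    funext fun s => hW s
  rw [h2] at h1
  have h3 := h1.unique (hasDerivAt_const x (1:ℝ))
  rw [det3_self_left, det3_self_right, zero_add, zero_add] at h3
  exact h3

/-- the third order equation -/
lemma third_order (hW : ∀ y, Wr Γ y = 1) (x : ℝ) (i : Fin 3) :
    deriv (deriv (deriv Γ)) x i =
      det3 (deriv (deriv (deriv Γ)) x) (deriv Γ x) (deriv (deriv Γ) x) * Γ x i +
      det3 (Γ x) (deriv (deriv (deriv Γ)) x) (deriv (deriv Γ) x) * deriv Γ x i := by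
  have h1 := cramer (Γ x) (deriv Γ x) (deriv (deriv Γ) x) (deriv (deriv (deriv Γ)) x) i
  have h2 : det3 (Γ x) (deriv Γ x) (deriv (deriv Γ) x) = 1 := hW x
  rw [h2, h.det_third hW, zero_mul, add_zero, one_mul] at h1
  exact h1

/-- The third derivative is a constant multiple of the first. -/
theorem third_eq (hW : ∀ y, Wr Γ y = 1) (hS : ∀ x y, dd Γ x y = dd Γ y x)
    (hD : ∀ x y r, dd Γ (x + r) (y + r) = dd Γ x y) :
    ∃ c : ℝ, ∀ x i, deriv (deriv (deriv Γ)) x i = c * deriv Γ x i := by
  set q : ℝ → ℝ := fun x => det3 (deriv (deriv (deriv Γ)) x) (deriv Γ x) (deriv (deriv Γ) x)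
    with hq
  set p : ℝ → ℝ := fun x => det3 (Γ x) (deriv (deriv (deriv Γ)) x) (deriv (deriv Γ) x) with hp
  set d3 : ℝ → ℝ → ℝ := fun x y => det3 (deriv (deriv (deriv Γ)) x) (Γ y) (deriv Γ y) with hd3
  have hdd3 : ∀ x y, HasDerivAt (fun x => ddxx Γ x y) (d3 x y) x := by
    intro x y
    refine (hasDerivAt_det3 (h.hd2 x) (hasDerivAt_const x (Γ y))
      (hasDerivAt_const x (deriv Γ y))).congr_deriv ?_
    simp only [hd3]
    unfold det3
    simp
  have hode : ∀ x y, d3 x y = q x * dd Γ x y + p x * ddx Γ x y := by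
    intro x y
    have e0 := h.third_order hW x 0
    have e1 := h.third_order hW x 1
    have e2 := h.third_order hW x 2
    simp only [hd3]
    unfold dd ddx
    rw [det3, e0, e1, e2]
    simp only [hq, hp, det3]
    ring
  -- translation invariance of the derivatives
  have s1 : ∀ x y r, ddx Γ (x + r) (y + r) = ddx Γ x y := by
    intro x y r
    have a1 := (h.hasDerivAt_dd_left (x + r) (y + r)).comp_add_const x r
    have a2 : (fun x => dd Γ (x + r) (y + r)) = fun x => dd Γ x y := funext fun x => hD x y r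
    rw [a2] at a1
    exact a1.unique (h.hasDerivAt_dd_left x y)
  have s2 : ∀ x y r, ddxx Γ (x + r) (y + r) = ddxx Γ x y := by
    intro x y r
    have a1 := (h.hasDerivAt_ddx_left (x + r) (y + r)).comp_add_const x r
    have a2 : (fun x => ddx Γ (x + r) (y + r)) = fun x => ddx Γ x y := funext fun x => s1 x y r
    rw [a2] at a1
    exact a1.unique (h.hasDerivAt_ddx_left x y)
  have s3 : ∀ x y r, d3 (x + r) (y + r) = d3 x y := by
    intro x y r
    have a1 := (hdd3 (x + r) (y + r)).comp_add_const x r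
    have a2 : (fun x => ddxx Γ (x + r) (y + r)) = fun x => ddxx Γ x y := funext fun x => s2 x y r
    rw [a2] at a1
    exact a1.unique (hdd3 x y)
  have hode' : ∀ x z, d3 z 0 = q x * dd Γ z 0 + p x * ddx Γ z 0 := by
    intro x z
    have e := hode x (x - z)
    have e1 : x = z + (x - z) := by ring
    have e2 : x - z = 0 + (x - z) := by ring
    have k1 : d3 x (x - z) = d3 z 0 := by
      have := s3 z 0 (x - z)
      rw [← e1, ← e2] at this
      exact this
    have k2 : dd Γ x (x - z) = dd Γ z 0 := by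
      have := hD z 0 (x - z)
      rw [← e1, ← e2] at this
      exact this
    have k3 : ddx Γ x (x - z) = ddx Γ z 0 := by
      have := s1 z 0 (x - z)
      rw [← e1, ← e2] at this
      exact this
    rw [k1, k2, k3] at e
    exact e
  have v0 : dd Γ 0 0 = 0 := det3_self_left _ _
  have v1 : ddx Γ 0 0 = 0 := det3_self_outer _ _
  have v2 : ddxx Γ 0 0 = 1 := by
    have := hW 0
    unfold Wr at this
    unfold ddxx
    rw [det3_cycle]; exact this
  have hT := h.T_pos
  have vpos : 0 < dd Γ (T / 2) 0 := h.dd_pos (by positivity) (by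
    rw [sub_zero, abs_of_pos (by positivity)]; linarith)
  have hpc : ∀ x, p x = p 0 := by
    intro x
    have a1 : ∀ z, (q x - q 0) * dd Γ z 0 + (p x - p 0) * ddx Γ z 0 = 0 := by
      intro z
      have b1 := hode' x z
      have b2 := hode' 0 z
      linarith
    have a2 : HasDerivAt (fun z => (q x - q 0) * dd Γ z 0 + (p x - p 0) * ddx Γ z 0)
        ((q x - q 0) * ddx Γ 0 0 + (p x - p 0) * ddxx Γ 0 0) 0 :=
      ((h.hasDerivAt_dd_left 0 0).const_mul _).add ((h.hasDerivAt_ddx_left 0 0).const_mul _)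
    have a3 : (fun z => (q x - q 0) * dd Γ z 0 + (p x - p 0) * ddx Γ z 0) = fun _ => (0:ℝ) :=
      funext a1
    rw [a3] at a2
    have a4 := a2.unique (hasDerivAt_const (0:ℝ) (0:ℝ))
    rw [v1, v2] at a4
    linarith
  -- parity
  have par0 : ∀ z, dd Γ (-z) 0 = 1 * dd Γ z 0 := by
    intro z
    have e1 := hD (-z) 0 z
    rw [neg_add_cancel, zero_add] at e1
    rw [one_mul, ← e1]
    exact hS 0 z
  have par1 := deriv_parity (fun z => h.hasDerivAt_dd_left z 0) par0
  have par2 := deriv_parity (fun z => h.hasDerivAt_ddx_left z 0) par1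
  have par3 := deriv_parity (fun z => hdd3 z 0) par2
  have hq0 : ∀ x, q x = 0 := by
    intro x
    have b1 := hode' x (T / 2)
    have b2 := hode' x (-(T / 2))
    rw [par3, par0, par1] at b2
    have : q x * dd Γ (T / 2) 0 = 0 := by linarith
    exact (mul_eq_zero.1 this).resolve_right vpos.ne'
  refine ⟨p 0, fun x i => ?_⟩
  have := h.third_order hW x i
  have e1 : det3 (deriv (deriv (deriv Γ)) x) (deriv Γ x) (deriv (deriv Γ) x) = 0 := hq0 x
  have e2 : det3 (Γ x) (deriv (deriv (deriv Γ)) x) (deriv (deriv Γ) x) = p 0 := hpc x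
  rw [e1, e2, zero_mul, zero_add] at this
  exact this

lemma hdc0 (t : ℝ) (i : Fin 3) : HasDerivAt (fun t => Γ t i) (deriv Γ t i) t :=
  (hasDerivAt_pi.1 (h.hd0 t)) i
lemma hdc1 (t : ℝ) (i : Fin 3) : HasDerivAt (fun t => deriv Γ t i) (deriv (deriv Γ) t i) t :=
  (hasDerivAt_pi.1 (h.hd1 t)) i
lemma hdc2 (t : ℝ) (i : Fin 3) :
    HasDerivAt (fun t => deriv (deriv Γ) t i) (deriv (deriv (deriv Γ)) t i) t :=
  (hasDerivAt_pi.1 (h.hd2 t)) i

/-- the constant is negative -/
lemma const_neg (hW : ∀ y, Wr Γ y = 1) {c : ℝ}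
    (hc : ∀ x i, deriv (deriv (deriv Γ)) x i = c * deriv Γ x i) : c < 0 := by
  by_contra hneg
  push Not at hneg
  have hT := h.T_pos
  have c1 : ∀ i, Continuous fun t => deriv Γ t i := fun i =>
    continuous_iff_continuousAt.2 fun t => (h.hdc1 t i).continuousAt
  have c2 : ∀ i, Continuous fun t => deriv (deriv Γ) t i := fun i =>
    continuous_iff_continuousAt.2 fun t => (h.hdc2 t i).continuousAt
  have hz : ∀ i t, deriv (deriv Γ) t i = 0 := by
    intro i
    have hint : ∫ t in (0)..T, ((deriv (deriv Γ) t i) ^ 2 + c * (deriv Γ t i) ^ 2) = 0 := by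
      have hd : ∀ t ∈ uIcc 0 T, HasDerivAt (fun t => deriv Γ t i * deriv (deriv Γ) t i)
          ((deriv (deriv Γ) t i) ^ 2 + c * (deriv Γ t i) ^ 2) t := by
        intro t _
        refine ((h.hdc1 t i).mul (h.hdc2 t i)).congr_deriv ?_
        rw [hc]
        ring
      rw [intervalIntegral.integral_eq_sub_of_hasDerivAt hd
        ((((c2 i).pow 2).add (continuous_const.mul ((c1 i).pow 2))).intervalIntegrable _ _)]
      have e1 : deriv Γ T = deriv Γ 0 := by simpa using h.per1 0
      have e2 : deriv (deriv Γ) T = deriv (deriv Γ) 0 := by simpa using h.per2 0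
      rw [e1, e2, sub_self]
    have hz' : ∀ t ∈ Icc 0 T, (deriv (deriv Γ) t i) ^ 2 + c * (deriv Γ t i) ^ 2 = 0 := by
      intro t ht
      by_contra hne
      have hpos : 0 < (deriv (deriv Γ) t i) ^ 2 + c * (deriv Γ t i) ^ 2 :=
        lt_of_le_of_ne (by positivity) (Ne.symm hne)
      have : 0 < ∫ t in (0)..T, ((deriv (deriv Γ) t i) ^ 2 + c * (deriv Γ t i) ^ 2) :=
        intervalIntegral.integral_pos hT
          (((c2 i).pow 2).add (continuous_const.mul ((c1 i).pow 2))).continuousOn
          (fun t _ => by positivity) ⟨t, ht, hpos⟩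
      linarith
    intro t
    have hper : Function.Periodic (fun t => deriv (deriv Γ) t i) T := fun t => by
      simp only [h.per2]
    obtain ⟨z, hz, hz2⟩ := hper.exists_mem_Ico₀ hT t
    rw [hz2]
    have := hz' z ⟨hz.1, hz.2.le⟩
    have k1 : 0 ≤ c * (deriv Γ z i) ^ 2 := by positivity
    have k2 : (deriv (deriv Γ) z i) ^ 2 = 0 := by
      have := sq_nonneg (deriv (deriv Γ) z i)
      linarith
    exact pow_eq_zero_iff (by norm_num) |>.1 k2
  have := hW 0
  unfold Wr det3 at this
  rw [hz 0 0, hz 1 0, hz 2 0] at this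
  norm_num at this

/-- The equality case. -/
theorem circle (hW : ∀ y, Wr Γ y = 1) (hQ : ∀ t s, t < s → s < t + T → Qdens Γ t s = 0) :
    ∃ (w : ℝ) (e₀ e₁ e₂ : Fin 3 → ℝ), 0 < w ∧ det3 e₀ e₁ e₂ ≠ 0 ∧
      ∀ t, Γ t = e₀ + cos (w * t) • e₁ + sin (w * t) • e₂ := by
  obtain ⟨hS, hL⟩ := h.of_Q_zero hQ
  obtain ⟨c, hc⟩ := h.third_eq hW (h.dd_symm_all hS) (h.dd_shift_all hL)
  have hcn := h.const_neg hW hc
  set w : ℝ := √(-c) with hw
  have hwp : 0 < w := sqrt_pos.2 (by linarith)
  have hw2 : w ^ 2 = -c := sq_sqrt (by linarith)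
  -- the centre
  set e₀ : Fin 3 → ℝ := fun i => Γ 0 i + deriv (deriv Γ) 0 i / w ^ 2 with he₀
  have hcen : ∀ t i, Γ t i + deriv (deriv Γ) t i / w ^ 2 = e₀ i := by
    intro t i
    have hd : ∀ t, HasDerivAt (fun t => Γ t i + deriv (deriv Γ) t i / w ^ 2) 0 t := by
      intro t
      refine ((h.hdc0 t i).add ((h.hdc2 t i).div_const (w ^ 2))).congr_deriv ?_
      rw [hc, hw2]
      have : c ≠ 0 := hcn.ne
      field_simp
      ring
    exact is_const_of_deriv_eq_zero (fun r => (hd r).differentiableAt) (fun r => (hd r).deriv) t 0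
  set e₁ : Fin 3 → ℝ := fun i => -(deriv (deriv Γ) 0 i / w ^ 2) with he₁
  set e₂ : Fin 3 → ℝ := fun i => deriv Γ 0 i / w with he₂
  -- the two constants of motion
  have hA : ∀ t i, cos (w * t) * (-(deriv (deriv Γ) t i / w ^ 2)) -
      sin (w * t) * (deriv Γ t i / w) = e₁ i := by
    intro t i
    have hd : ∀ t, HasDerivAt (fun t => cos (w * t) * (-(deriv (deriv Γ) t i / w ^ 2)) -
        sin (w * t) * (deriv Γ t i / w)) 0 t := by
      intro t
      have k0 : HasDerivAt (fun t => w * t) w t := by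
        simpa using (hasDerivAt_id t).const_mul w
      refine ((k0.cos.mul ((h.hdc2 t i).div_const (w ^ 2)).neg).sub
        (k0.sin.mul ((h.hdc1 t i).div_const w))).congr_deriv ?_
      rw [hc]
      have : c = -w ^ 2 := by linarith
      rw [this]
      simp only [Pi.neg_apply]
      field_simp
      ring
    have := is_const_of_deriv_eq_zero (fun r => (hd r).differentiableAt)
      (fun r => (hd r).deriv) t 0
    simpa using this
  have hB : ∀ t i, sin (w * t) * (-(deriv (deriv Γ) t i / w ^ 2)) +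
      cos (w * t) * (deriv Γ t i / w) = e₂ i := by
    intro t i
    have hd : ∀ t, HasDerivAt (fun t => sin (w * t) * (-(deriv (deriv Γ) t i / w ^ 2)) +
        cos (w * t) * (deriv Γ t i / w)) 0 t := by
      intro t
      have k0 : HasDerivAt (fun t => w * t) w t := by
        simpa using (hasDerivAt_id t).const_mul w
      refine ((k0.sin.mul ((h.hdc2 t i).div_const (w ^ 2)).neg).add
        (k0.cos.mul ((h.hdc1 t i).div_const w))).congr_deriv ?_
      rw [hc]
      have : c = -w ^ 2 := by linarith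
      rw [this]
      simp only [Pi.neg_apply]
      field_simp
      ring
    have := is_const_of_deriv_eq_zero (fun r => (hd r).differentiableAt)
      (fun r => (hd r).deriv) t 0
    simpa using this
  have hform : ∀ t i, Γ t i = e₀ i + cos (w * t) * e₁ i + sin (w * t) * e₂ i := by
    intro t i
    have k1 := hcen t i
    have k2 := hA t i
    have k3 := hB t i
    rw [← k1, ← k2, ← k3]
    have := sin_sq_add_cos_sq (w * t)
    linear_combination (-(deriv (deriv Γ) t i / w ^ 2)) * (-this)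
  refine ⟨w, e₀, e₁, e₂, hwp, ?_, fun t => ?_⟩
  · have h1 := hW 0
    have k : det3 (Γ 0) (deriv Γ 0) (deriv (deriv Γ) 0) = 1 := h1
    have e : det3 e₀ e₁ e₂ = det3 (Γ 0) (deriv Γ 0) (deriv (deriv Γ) 0) / w ^ 3 := by
      rw [he₀, he₁, he₂]
      unfold det3
      field_simp
      ring
    rw [e, k]
    positivity
  · funext i
    rw [hform t i]
    simp

end Curve

end Pool.Agent.MP_ae5b4e_an_hopf
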