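import Mathlib
import Pool.Agent.Lib.MP_ae5b4e_an_hopf.Phi

/-!
Uniform estimates near the diagonal for a normalized curve (Wronskian one): the density of the
Hopf inequality is bounded and the boundary term of the null Lagrangian tends to zero.
-/

noncomputable section

namespace Pool.Agent.MP_ae5b4e_an_hopf

open Set Filter Topology Real
open scoped ContDiff

variable {Γ : ℝ → Fin 3 → ℝ} {T : ℝ}

/-- If a nice function vanishes on the diagonal so does its derivative in the diagonal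
direction. -/
lemma nice_diag_deriv {F : ℝ × ℝ → ℝ} (hF : Nice T F) (hT : 0 < T) (h0 : ∀ x, F (x, x) = 0)
    (x : ℝ) : P1 F (x, x) + P2 F (x, x) = 0 := by
  have h1 := hF.hasDerivAt_comp (hasDerivAt_id x) (hasDerivAt_id x) (by
    show |id x - id x| < T
    simpa using hT)
  have h2 : (fun s : ℝ => F (id s, id s)) = fun _ => 0 := funext fun s => h0 s
  rw [h2] at h1
  have h3 := h1.unique (hasDerivAt_const x (0:ℝ))
  simpa using h3

namespace Curve

variable (h : Curve T Γ) (hW : ∀ y, Wr Γ y = 1)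
include h hW

lemma el_P1_zero (y : ℝ) : P1 (el Γ) (y, y) = 0 := by
  have e : Wr Γ = fun _ => 1 := funext hW
  rw [h.el_P1, e]; simp

lemma el_P2_zero (y : ℝ) : P2 (el Γ) (y, y) = 0 := by
  have e : Wr Γ = fun _ => 1 := funext hW
  rw [h.el_P2, e]; simp

omit hW in
lemma KK_bound : ∃ C, 0 ≤ C ∧ ∀ x y : ℝ, x ≠ y → |x - y| ≤ T / 2 →
    KK Γ x y ≤ 2 / (x - y) ^ 2 + C := by
  obtain ⟨C, hC0, hC⟩ := h.nice_el.P1.P2.bounded h.T_pos
  refine ⟨C, hC0, fun x y hne hxy => ?_⟩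
  rw [h.KK_eq hne (by linarith [h.T_pos])]
  have := (abs_le.1 (hC (x, y) hxy)).2
  linarith

/-- The density is bounded near the diagonal. -/
theorem Idens_bound_near : ∃ C, 0 ≤ C ∧ ∀ x y : ℝ, x ≠ y → |x - y| ≤ T / 2 →
    |Idens Γ x y| ≤ C := by
  have hT := h.T_pos
  set M : ℝ × ℝ → ℝ := P2 (P1 (el Γ)) with hM
  set G : ℝ × ℝ → ℝ := fun p => P1 (P1 (el Γ)) p + P2 (P1 (el Γ)) p with hG
  have nM : Nice T M := h.nice_el.P1.P2
  have nG : Nice T G := h.nice_el.P1.P1.add h.nice_el.P1.P2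
  have hG0 : ∀ x, G (x, x) = 0 := fun x =>
    nice_diag_deriv h.nice_el.P1 hT (h.el_P1_zero hW) x
  obtain ⟨C1, hC1, b1⟩ := nM.bounded hT
  obtain ⟨C2, hC2, b2⟩ := nG.bounded hT
  obtain ⟨C3, hC3, b3⟩ := nG.sym hT hG0
  refine ⟨C3 * (2 + C1 * T ^ 2) + C2 * (2 * C1) + (2 * C1) ^ 2, by positivity,
    fun x y hne hxy => ?_⟩
  have hxy' : |y - x| ≤ T / 2 := by rwa [abs_sub_comm]
  have hlt : |x - y| < T := by linarith
  have hlt' : |y - x| < T := by linarith
  have e1 : L11 Γ x y + KK Γ x y = G (x, y) := by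
    rw [h.L11_eq hne hlt, h.KK_eq hne hlt]; simp only [hG]; ring
  have e2 : L11 Γ y x + KK Γ y x = G (y, x) := by
    rw [h.L11_eq hne.symm hlt', h.KK_eq hne.symm hlt']; simp only [hG]; ring
  have e3 : KK Γ x y - KK Γ y x = M (x, y) - M (y, x) := by
    rw [h.KK_eq hne hlt, h.KK_eq hne.symm hlt']
    have : (y - x) ^ 2 = (x - y) ^ 2 := by ring
    rw [this]; ring
  have e4 : Idens Γ x y = (G (x, y) + G (y, x)) * KK Γ x y -
      G (y, x) * (M (x, y) - M (y, x)) - (M (x, y) - M (y, x)) ^ 2 := by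
    rw [← e3, ← e1, ← e2]
    unfold Idens
    ring
  have m1 : |M (x, y) - M (y, x)| ≤ 2 * C1 := by
    have a1 := b1 (x, y) hxy
    have a2 := b1 (y, x) hxy'
    calc |M (x, y) - M (y, x)| ≤ |M (x, y)| + |M (y, x)| := abs_sub _ _
      _ ≤ 2 * C1 := by linarith
  have m2 : |G (y, x)| ≤ C2 := b2 (y, x) hxy'
  have m3 : |(G (x, y) + G (y, x)) * KK Γ x y| ≤ C3 * (2 + C1 * T ^ 2) := by
    have k1 := b3 x y hxy
    have k2 := (h.KK_pos hne hlt).le
    have k3 : (x - y) ^ 2 * KK Γ x y ≤ 2 + C1 * T ^ 2 := by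
      rw [h.KK_eq hne hlt]
      have hne' : x - y ≠ 0 := sub_ne_zero.2 hne
      have e : (x - y) ^ 2 * (2 / (x - y) ^ 2 + P2 (P1 (el Γ)) (x, y)) =
          2 + (x - y) ^ 2 * P2 (P1 (el Γ)) (x, y) := by field_simp
      rw [e]
      have a1 := (abs_le.1 (b1 (x, y) hxy)).2
      have a2 : (x - y) ^ 2 ≤ T ^ 2 := by
        rw [← sq_abs (x - y)]
        exact pow_le_pow_left₀ (abs_nonneg _) hlt.le 2
      have a3 : (x - y) ^ 2 * P2 (P1 (el Γ)) (x, y) ≤ (x - y) ^ 2 * C1 :=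
        mul_le_mul_of_nonneg_left a1 (sq_nonneg _)
      have a4 : (x - y) ^ 2 * C1 ≤ T ^ 2 * C1 := mul_le_mul_of_nonneg_right a2 hC1
      linarith
    rw [abs_mul, abs_of_nonneg k2]
    calc |G (x, y) + G (y, x)| * KK Γ x y ≤ C3 * (x - y) ^ 2 * KK Γ x y :=
          mul_le_mul_of_nonneg_right k1 k2
      _ = C3 * ((x - y) ^ 2 * KK Γ x y) := by ring
      _ ≤ C3 * (2 + C1 * T ^ 2) := mul_le_mul_of_nonneg_left k3 hC3
  have m4 : |G (y, x) * (M (x, y) - M (y, x))| ≤ C2 * (2 * C1) := by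
    rw [abs_mul]
    exact mul_le_mul m2 m1 (abs_nonneg _) hC2
  have m5 : |(M (x, y) - M (y, x)) ^ 2| ≤ (2 * C1) ^ 2 := by
    rw [abs_pow]
    exact pow_le_pow_left₀ (abs_nonneg _) m1 2
  rw [e4]
  calc |(G (x, y) + G (y, x)) * KK Γ x y - G (y, x) * (M (x, y) - M (y, x)) -
        (M (x, y) - M (y, x)) ^ 2|
      ≤ |(G (x, y) + G (y, x)) * KK Γ x y - G (y, x) * (M (x, y) - M (y, x))| +
        |(M (x, y) - M (y, x)) ^ 2| := abs_sub _ _
    _ ≤ |(G (x, y) + G (y, x)) * KK Γ x y| + |G (y, x) * (M (x, y) - M (y, x))| +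
        |(M (x, y) - M (y, x)) ^ 2| := by
        have := abs_sub ((G (x, y) + G (y, x)) * KK Γ x y) (G (y, x) * (M (x, y) - M (y, x)))
        linarith
    _ ≤ _ := by linarith

/-- The density is bounded. -/
theorem Idens_bound : ∃ C, 0 ≤ C ∧ ∀ t s : ℝ, t < s → s < t + T → |Idens Γ t s| ≤ C := by
  obtain ⟨C, hC0, hC⟩ := h.Idens_bound_near hW
  refine ⟨C, hC0, fun t s h1 h2 => ?_⟩
  rcases le_or_gt (s - t) (T / 2) with h3 | h3
  · exact hC t s h1.ne (by rw [abs_sub_comm, abs_of_pos (by linarith)]; exact h3)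
  · rw [← h.Idens_per_left]
    exact hC (t + T) s h2.ne' (by rw [abs_of_pos (by linarith)]; linarith)

/-- third order estimate for the antisymmetrization of the derivative in the diagonal direction -/
theorem mu_bound : ∃ C, 0 ≤ C ∧ ∀ x y : ℝ, x ≠ y → |x - y| ≤ T / 2 →
    |(P1 (el Γ) (x, y) + P2 (el Γ) (x, y)) - (P1 (el Γ) (y, x) + P2 (el Γ) (y, x))| ≤
      C * |x - y| ^ 3 := by
  have hT := h.T_pos
  set M : ℝ × ℝ → ℝ := P2 (P1 (el Γ)) with hM
  have nM : Nice T M := h.nice_el.P1.P2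
  set ν : ℝ × ℝ → ℝ := fun p => P1 M p + P2 M p with hν
  have nν : Nice T ν := nM.P1.add nM.P2
  set F : ℝ × ℝ → ℝ := fun p => ν p * (dq Γ p.1 p.2 * dq Γ p.1 p.2 / dq Γ p.2 p.1) with hF
  have nF : Nice T F := nν.mul ((h.nice_dq.mul h.nice_dq).div h.nice_dq.swap fun p hp =>
    (h.dq_pos (by
      have : |p.1 - p.2| < T := hp
      rwa [abs_sub_comm])).ne')
  obtain ⟨C, hC0, hC⟩ := nF.lip_swap hT
  -- the derivative of `KK` along the diagonal
  have key : ∀ x y : ℝ, x ≠ y → |x - y| < T →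
      (L1 Γ y x + L2 Γ y x) - 2 * (L1 Γ x y + L2 Γ x y) = (x - y) ^ 2 * F (x, y) := by
    intro x y hne hlt
    have hlt' : |y - x| < T := by rwa [abs_sub_comm]
    have d1 := (h.dd_pos hne hlt).ne'
    have d2 := (h.dd_pos hne.symm hlt').ne'
    have k1 := h.hasDerivAt_diag_KK (x := x) (y := y) (r := 0) hW (by simpa using d1)
      (by simpa using d2)
    simp only [add_zero] at k1
    have hx : HasDerivAt (fun r : ℝ => x + r) 1 0 := (hasDerivAt_id (0:ℝ)).const_add x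
    have hy : HasDerivAt (fun r : ℝ => y + r) 1 0 := (hasDerivAt_id (0:ℝ)).const_add y
    have k2 := (nM.hasDerivAt_comp hx hy (by
      show |x + 0 - (y + 0)| < T
      simpa using hlt)).const_add (2 / (x - y) ^ 2)
    have k3 : (fun r : ℝ => KK Γ (x + r) (y + r)) =
        fun r => 2 / (x - y) ^ 2 + M (x + r, y + r) := by
      funext r
      have e : x + r - (y + r) = x - y := by ring
      rw [h.KK_eq (by simpa using hne) (by rw [e]; exact hlt), e]
    rw [k3] at k1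
    have k4 := k1.unique k2
    simp only [add_zero, one_mul] at k4
    have k5 := h.KK_dq hne hlt
    rw [hW, one_mul] at k5
    have p1 := (h.dq_pos hlt).ne'
    have p2 := (h.dq_pos hlt').ne'
    have k6 : KK Γ x y ≠ 0 := (h.KK_pos hne hlt).ne'
    have hne' : x - y ≠ 0 := sub_ne_zero.2 hne
    have k7 : (L1 Γ y x + L2 Γ y x) - 2 * (L1 Γ x y + L2 Γ x y) = ν (x, y) / KK Γ x y := by
      rw [eq_div_iff k6, mul_comm]
      exact k4
    have k8 : KK Γ x y = dq Γ y x / dq Γ x y ^ 2 / (x - y) ^ 2 := by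
      rw [eq_div_iff (pow_ne_zero 2 hne')]
      exact k5
    rw [k7, k8]
    simp only [hF]
    field_simp
  refine ⟨C, hC0, fun x y hne hxy => ?_⟩
  have hlt : |x - y| < T := by linarith
  have hlt' : |y - x| < T := by rwa [abs_sub_comm]
  have a1 := key x y hne hlt
  have a2 := key y x hne.symm hlt'
  have a3 : L1 Γ x y + L2 Γ x y = P1 (el Γ) (x, y) + P2 (el Γ) (x, y) := by
    rw [h.L1_eq hne hlt, h.L2_eq hne hlt]; ring
  have a4 : L1 Γ y x + L2 Γ y x = P1 (el Γ) (y, x) + P2 (el Γ) (y, x) := by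
    rw [h.L1_eq hne.symm hlt', h.L2_eq hne.symm hlt']; ring
  rw [← a3, ← a4]
  have a5 : (L1 Γ x y + L2 Γ x y) - (L1 Γ y x + L2 Γ y x) =
      -((x - y) ^ 2 * (F (x, y) - F (y, x)) / 3) := by
    have e : (y - x) ^ 2 = (x - y) ^ 2 := by ring
    rw [e] at a2
    linarith
  rw [a5, abs_neg, abs_div, abs_mul, abs_of_nonneg (sq_nonneg (x - y)),
    abs_of_pos (by norm_num : (0:ℝ) < 3)]
  have a6 := hC x y hxy
  have a7 : (x - y) ^ 2 * |F (x, y) - F (y, x)| ≤ (x - y) ^ 2 * (C * |x - y|) :=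
    mul_le_mul_of_nonneg_left a6 (sq_nonneg _)
  have a8 : (x - y) ^ 2 * (C * |x - y|) = C * |x - y| ^ 3 := by
    rw [← sq_abs (x - y)]; ring
  have a9 : 0 ≤ C * |x - y| ^ 3 := by positivity
  linarith

/-- The boundary term of the null Lagrangian is small near the diagonal. -/
theorem Phi_bound : ∃ C, 0 ≤ C ∧ ∀ x y : ℝ, x ≠ y → |x - y| ≤ T / 2 →
    |Phi Γ x y - Phi Γ y x| ≤ C * |x - y| := by
  have hT := h.T_pos
  obtain ⟨C1, hC1, b1⟩ := h.nice_el.P1.lip_left hT (h.el_P1_zero hW)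
  obtain ⟨C2, hC2, b2⟩ := h.nice_el.P2.lip_left hT (h.el_P2_zero hW)
  obtain ⟨C3, hC3, b3⟩ := h.mu_bound hW
  obtain ⟨C4, hC4, b4⟩ := h.nice_el.quad hT (c := log (1 / 2))
    (fun x => by rw [h.el_diag, hW]) (h.el_P2_zero hW)
  obtain ⟨C5, hC5, b5⟩ := h.KK_bound
  -- the common bound of all the variables
  set R : ℝ := C1 + C2 + C3 + 2 * C4 + (2 + C5 * T ^ 2) + T with hR
  have hR0 : 0 ≤ R := by positivity
  -- the polynomial
  set Fp : (Fin 8 → ℝ) → ℝ := fun v =>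
    -140 * v 5 + ((v 2 - v 1) * (112 * v 1 + 28 * v 2) + (v 4 - v 3) * (112 * v 3 + 28 * v 4)) +
    (v 0) ^ 2 * ((v 2 - v 1) * (24 * v 1 ^ 2 + 8 * v 1 * v 2 + 3 * v 2 ^ 2) -
      (v 4 - v 3) * (24 * v 3 ^ 2 + 8 * v 3 * v 4 + 3 * v 4 ^ 2)) +
    2 * v 7 * (224 * v 6 ^ 2 + (-94 + 10 * (v 0 ^ 2 * v 6) ^ 2 - 20 * (v 0 ^ 2 * v 6) ^ 4) * v 5 +
      56 * v 0 ^ 2 * v 6 ^ 2 * (v 2 - v 4) + (72 * v 6 - 16 * v 0 ^ 4 * v 6 ^ 3) * (v 2 + v 4))
    with hFp
  have hFc : Continuous Fp := by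
    simp only [hFp]
    fun_prop
  have hK : IsCompact (Set.pi univ (fun _ : Fin 8 => Icc (-R) R)) :=
    isCompact_univ_pi fun _ => isCompact_Icc
  obtain ⟨C, hC⟩ := hK.exists_bound_of_continuousOn hFc.continuousOn
  refine ⟨max C 0, le_max_right _ _, fun x y hne hxy => ?_⟩
  have hlt : |x - y| < T := by linarith
  have hlt' : |y - x| < T := by rwa [abs_sub_comm]
  have hxy' : |y - x| ≤ T / 2 := by rwa [abs_sub_comm]
  have hD0 : x - y ≠ 0 := sub_ne_zero.2 hne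
  have hDa : 0 < |x - y| := abs_pos.2 hD0
  have d1 := h.dd_pos hne hlt
  have d2 := h.dd_pos hne.symm hlt'
  set D : ℝ := x - y with hD
  set p : ℝ := P1 (el Γ) (x, y) with hp
  set q : ℝ := P2 (el Γ) (y, x) with hq
  set r : ℝ := P1 (el Γ) (y, x) with hr
  set z : ℝ := P2 (el Γ) (x, y) with hz
  set τ : ℝ := tf (dl Γ x y) with hτ
  set W : ℝ := vv Γ x y / (1 - τ ^ 2) with hWd
  have eX : L1 Γ x y = 2 / D + p := h.L1_eq hne hlt
  have eY : L2 Γ y x = 2 / D + q := by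
    rw [h.L2_eq hne.symm hlt']
    have : y - x = -D := by rw [hD]; ring
    rw [this, ← hq, div_neg, neg_neg]
  have eX' : L1 Γ y x = -(2 / D) + r := by
    rw [h.L1_eq hne.symm hlt']
    have : y - x = -D := by rw [hD]; ring
    rw [this, ← hr, div_neg]
  have eZ : L2 Γ x y = -(2 / D) + z := h.L2_eq hne hlt
  -- the bounds
  have bp : |p / D| ≤ R := by
    rw [abs_div, div_le_iff₀ hDa]
    refine (b1 x y hxy).trans (mul_le_mul_of_nonneg_right ?_ hDa.le)
    rw [hR]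
    have : 0 ≤ C5 * T ^ 2 := by positivity
    linarith
  have br : |r / D| ≤ R := by
    rw [abs_div, div_le_iff₀ hDa, hD, abs_sub_comm x y]
    refine (b1 y x hxy').trans (mul_le_mul_of_nonneg_right ?_ (abs_nonneg _))
    rw [hR]
    have : 0 ≤ C5 * T ^ 2 := by positivity
    linarith
  have bq : |q / D| ≤ R := by
    rw [abs_div, div_le_iff₀ hDa, hD, abs_sub_comm x y]
    refine (b2 y x hxy').trans (mul_le_mul_of_nonneg_right ?_ (abs_nonneg _))
    rw [hR]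
    have : 0 ≤ C5 * T ^ 2 := by positivity
    linarith
  have bz : |z / D| ≤ R := by
    rw [abs_div, div_le_iff₀ hDa]
    refine (b2 x y hxy).trans (mul_le_mul_of_nonneg_right ?_ hDa.le)
    rw [hR]
    have : 0 ≤ C5 * T ^ 2 := by positivity
    linarith
  have bm : |((p + z) - (r + q)) / D ^ 3| ≤ R := by
    rw [abs_div, abs_pow, div_le_iff₀ (by positivity)]
    refine (b3 x y hne hxy).trans (mul_le_mul_of_nonneg_right ?_ (by positivity))
    rw [hR]
    have : 0 ≤ C5 * T ^ 2 := by positivity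
    linarith
  have bτ : |τ / D ^ 2| ≤ R := by
    rw [abs_div, abs_pow, div_le_iff₀ (by positivity)]
    have k1 : |τ| ≤ |dl Γ x y| := abs_tf_le _
    have k2 : dl Γ x y = (el Γ (x, y) - log (1 / 2)) - (el Γ (y, x) - log (1 / 2)) := by
      unfold dl
      rw [h.log_dd hne hlt, h.log_dd hne.symm hlt']
      have : log (y - x) = log (x - y) := by
        rw [← log_neg_eq_log]; congr 1; ring
      rw [this]
      ring
    have k3 := b4 x y hxy
    have k4 := b4 y x hxy'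
    have k5 := abs_sub (el Γ (x, y) - log (1 / 2)) (el Γ (y, x) - log (1 / 2))
    have k6 : (y - x) ^ 2 = (x - y) ^ 2 := by ring
    have k7 : |D| ^ 2 = (x - y) ^ 2 := by rw [sq_abs, hD]
    rw [← k2] at k5
    rw [k6] at k4
    rw [k7]
    have k8 : |τ| ≤ 2 * C4 * (x - y) ^ 2 := by linarith
    refine k8.trans (mul_le_mul_of_nonneg_right ?_ (sq_nonneg _))
    rw [hR]
    have : 0 ≤ C5 * T ^ 2 := by positivity
    linarith
  have hKx := h.KK_pos hne hlt
  have hKy := h.KK_pos hne.symm hlt'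
  have hA := KK_vv hW d1 d2
  have hB := KK_vv' hW d1 d2
  have t1 := one_add_tf_pos (dl Γ x y)
  have t2 := one_sub_tf_pos (dl Γ x y)
  have hW4 : 4 * W = KK Γ x y + KK Γ y x + 2 * vv Γ x y := by
    rw [hA, hB, hWd, ← hτ]
    rw [← hτ] at t1 t2
    have e : 1 - τ ^ 2 = (1 - τ) * (1 + τ) := by ring
    rw [e]
    field_simp
    ring
  have hV2 : vv Γ x y ^ 2 = KK Γ x y * KK Γ y x := by
    rw [hA, hB]
    field_simp
  have bW0 : 0 < W := div_pos (vv_pos x y) (one_sub_tf_sq_pos _)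
  have bW : |W * D ^ 2| ≤ R := by
    rw [abs_of_pos (by positivity)]
    have k1 := b5 x y hne hxy
    have k2 := b5 y x hne.symm hxy'
    have k6 : (y - x) ^ 2 = D ^ 2 := by rw [hD]; ring
    rw [k6] at k2
    have k3 : vv Γ x y ≤ 2 / D ^ 2 + C5 := by
      have hp1 : 0 ≤ 2 / D ^ 2 + C5 := by positivity
      have : vv Γ x y ^ 2 ≤ (2 / D ^ 2 + C5) ^ 2 := by
        rw [hV2, sq (2 / D ^ 2 + C5)]
        exact mul_le_mul k1 k2 hKy.le hp1
      exact le_of_sq_le_sq this hp1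
    have k4 : W ≤ 2 / D ^ 2 + C5 := by linarith
    have k5 : W * D ^ 2 ≤ (2 / D ^ 2 + C5) * D ^ 2 :=
      mul_le_mul_of_nonneg_right k4 (sq_nonneg _)
    have k7 : (2 / D ^ 2 + C5) * D ^ 2 = 2 + C5 * D ^ 2 := by field_simp
    have k8 : D ^ 2 ≤ T ^ 2 := by
      rw [← sq_abs D]
      exact pow_le_pow_left₀ (abs_nonneg _) hlt.le 2
    have k9 : C5 * D ^ 2 ≤ C5 * T ^ 2 := mul_le_mul_of_nonneg_left k8 hC5
    rw [hR]
    linarith
  have bD : |D| ≤ R := by
    rw [hR]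
    have : 0 ≤ C5 * T ^ 2 := by positivity
    linarith
  -- the identity
  have hfin : Phi Γ x y - Phi Γ y x = D * Fp ![D, p / D, q / D, r / D, z / D,
      ((p + z) - (r + q)) / D ^ 3, τ / D ^ 2, W * D ^ 2] := by
    have hn0 : 1 - τ ^ 2 ≠ 0 := (one_sub_tf_sq_pos _).ne'
    have hV : vv Γ x y = W * (1 - τ ^ 2) := by
      rw [hWd]; field_simp
    unfold Phi
    rw [vv_swap x y, dl_swap x y, tf_neg, ← hτ, eX, eY, eX', eZ, hV]
    have e1 : 1 - (-τ) ^ 2 = 1 - τ ^ 2 := by ring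
    rw [e1]
    simp only [hFp, Matrix.cons_val]
    unfold HC n1 n2
    field_simp
    ring
  rw [hfin, abs_mul, mul_comm]
  refine mul_le_mul_of_nonneg_right ?_ hDa.le
  refine (hC _ ?_).trans (le_max_left _ _)
  intro i _
  fin_cases i
  · exact abs_le.1 bD
  · exact abs_le.1 bp
  · exact abs_le.1 bq
  · exact abs_le.1 br
  · exact abs_le.1 bz
  · exact abs_le.1 bm
  · exact abs_le.1 bτ
  · exact abs_le.1 bW

end Curve

end Pool.Agent.MP_ae5b4e_an_hopf
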