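import Mathlib
import Pool.Agent.Lib.MP_ae5b4e_an_hopf.Near

/-!
Integration of the density over the strips `ε < s - t < T - ε`.
-/

noncomputable section

namespace Pool.Agent.MP_ae5b4e_an_hopf

open Set Filter Topology Real MeasureTheory intervalIntegral
open scoped ContDiff

/-- pairs off the diagonal -/
def Rg (T : ℝ) : Set (ℝ × ℝ) := {p | p.1 < p.2 ∧ p.2 < p.1 + T}

lemma isOpen_Rg (T : ℝ) : IsOpen (Rg T) :=
  (isOpen_lt continuous_fst continuous_snd).inter
    (isOpen_lt continuous_snd (continuous_fst.add continuous_const))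

variable {Γ : ℝ → Fin 3 → ℝ} {T : ℝ}

namespace Curve

section continuity

variable (h : Curve T Γ)
include h

lemma ne_right {p : ℝ × ℝ} (hp : p ∈ Rg T) : dd Γ p.1 p.2 ≠ 0 :=
  (h.dd_pos_right hp.1 hp.2).ne'
lemma ne_left {p : ℝ × ℝ} (hp : p ∈ Rg T) : dd Γ p.2 p.1 ≠ 0 :=
  (h.dd_pos_left hp.1 hp.2).ne'

omit h in
lemma cont_swap {F : ℝ × ℝ → ℝ} {p : ℝ × ℝ} (hF : ContDiffAt ℝ ∞ F (p.2, p.1)) :
    ContinuousAt (fun p : ℝ × ℝ => F (p.2, p.1)) p :=
  ContinuousAt.comp (f := fun p : ℝ × ℝ => (p.2, p.1)) (g := F) hF.continuousAt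
    (continuous_snd.prodMk continuous_fst).continuousAt

lemma cont_dd : ContinuousOn (fun p : ℝ × ℝ => dd Γ p.1 p.2) (Rg T) :=
  h.contDiff_dd.continuous.continuousOn
lemma cont_dd' : ContinuousOn (fun p : ℝ × ℝ => dd Γ p.2 p.1) (Rg T) :=
  h.contDiff_dd'.continuous.continuousOn
lemma cont_L1 : ContinuousOn (fun p : ℝ × ℝ => L1 Γ p.1 p.2) (Rg T) := fun _ hp =>
  (h.contDiffAt_L1 (h.ne_right hp)).continuousAt.continuousWithinAt
lemma cont_L1' : ContinuousOn (fun p : ℝ × ℝ => L1 Γ p.2 p.1) (Rg T) := fun p hp =>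
  (cont_swap (F := fun p : ℝ × ℝ => L1 Γ p.1 p.2)
    (h.contDiffAt_L1 (p := (p.2, p.1)) (h.ne_left hp))).continuousWithinAt
lemma cont_L2 : ContinuousOn (fun p : ℝ × ℝ => L2 Γ p.1 p.2) (Rg T) := fun _ hp =>
  (h.contDiffAt_L2 (h.ne_right hp)).continuousAt.continuousWithinAt
lemma cont_L2' : ContinuousOn (fun p : ℝ × ℝ => L2 Γ p.2 p.1) (Rg T) := fun p hp =>
  (cont_swap (F := fun p : ℝ × ℝ => L2 Γ p.1 p.2)
    (h.contDiffAt_L2 (p := (p.2, p.1)) (h.ne_left hp))).continuousWithinAt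
lemma cont_L11 : ContinuousOn (fun p : ℝ × ℝ => L11 Γ p.1 p.2) (Rg T) := fun _ hp =>
  (h.contDiffAt_L11 (h.ne_right hp)).continuousAt.continuousWithinAt
lemma cont_L11' : ContinuousOn (fun p : ℝ × ℝ => L11 Γ p.2 p.1) (Rg T) := fun p hp =>
  (cont_swap (F := fun p : ℝ × ℝ => L11 Γ p.1 p.2)
    (h.contDiffAt_L11 (p := (p.2, p.1)) (h.ne_left hp))).continuousWithinAt
lemma cont_KK : ContinuousOn (fun p : ℝ × ℝ => KK Γ p.1 p.2) (Rg T) := fun _ hp =>
  (h.contDiffAt_KK (h.ne_right hp)).continuousAt.continuousWithinAt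
lemma cont_KK' : ContinuousOn (fun p : ℝ × ℝ => KK Γ p.2 p.1) (Rg T) := fun p hp =>
  (cont_swap (F := fun p : ℝ × ℝ => KK Γ p.1 p.2)
    (h.contDiffAt_KK (p := (p.2, p.1)) (h.ne_left hp))).continuousWithinAt
lemma cont_log : ContinuousOn (fun p : ℝ × ℝ => log (dd Γ p.1 p.2)) (Rg T) :=
  h.cont_dd.log fun _ hp => h.ne_right hp
lemma cont_log' : ContinuousOn (fun p : ℝ × ℝ => log (dd Γ p.2 p.1)) (Rg T) :=
  h.cont_dd'.log fun _ hp => h.ne_left hp
lemma cont_dl : ContinuousOn (fun p : ℝ × ℝ => dl Γ p.1 p.2) (Rg T) := h.cont_log.sub h.cont_log'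
lemma cont_vv : ContinuousOn (fun p : ℝ × ℝ => vv Γ p.1 p.2) (Rg T) :=
  ((h.cont_log.add h.cont_log').div_const 2).neg.rexp
omit h in
lemma continuous_tf : Continuous tf :=
  continuous_iff_continuousAt.2 fun x => (hasDerivAt_tf x).continuousAt
lemma cont_tf : ContinuousOn (fun p : ℝ × ℝ => tf (dl Γ p.1 p.2)) (Rg T) :=
  continuous_tf.comp_continuousOn h.cont_dl

lemma cont_Idens : ContinuousOn (fun p : ℝ × ℝ => Idens Γ p.1 p.2) (Rg T) :=
  ((h.cont_L11.mul h.cont_KK).add (h.cont_L11'.mul h.cont_KK')).add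
    (continuousOn_const.mul (h.cont_KK.mul h.cont_KK'))

lemma cont_one_sub : ContinuousOn (fun p : ℝ × ℝ => 1 - tf (dl Γ p.1 p.2) ^ 2) (Rg T) :=
  continuousOn_const.sub (h.cont_tf.pow 2)

lemma cont_QF : ContinuousOn (fun p : ℝ × ℝ => QF (tf (dl Γ p.1 p.2)) (L1 Γ p.1 p.2)
    (L2 Γ p.2 p.1) (L2 Γ p.1 p.2) (L1 Γ p.2 p.1)) (Rg T) := by
  have hc : Continuous fun v : Fin 5 → ℝ => QF (v 0) (v 1) (v 2) (v 3) (v 4) := by
    unfold QF; fun_prop
  refine hc.comp_continuousOn (f := fun p : ℝ × ℝ => ![tf (dl Γ p.1 p.2), L1 Γ p.1 p.2,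
    L2 Γ p.2 p.1, L2 Γ p.1 p.2, L1 Γ p.2 p.1]) ?_
  rw [continuousOn_pi]
  intro i
  fin_cases i
  · exact h.cont_tf
  · exact h.cont_L1
  · exact h.cont_L2'
  · exact h.cont_L2
  · exact h.cont_L1'

lemma cont_Qdens : ContinuousOn (fun p : ℝ × ℝ => Qdens Γ p.1 p.2) (Rg T) := by
  have hn : ∀ p ∈ Rg T, 1 - tf (dl Γ p.1 p.2) ^ 2 ≠ 0 := fun p _ => (one_sub_tf_sq_pos _).ne'
  refine ContinuousOn.add (continuousOn_const.mul ((h.cont_vv.mul h.cont_QF).div h.cont_one_sub hn))
    (((continuousOn_const.mul (h.cont_vv.pow 2)).mul (h.cont_tf.pow 4)).div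
      (h.cont_one_sub.pow 2) fun p hp => pow_ne_zero 2 (hn p hp))

omit h in
/-- `Psi` as a continuous function of its arguments -/
lemma cont_Psi_aux : ContinuousOn (fun v : Fin 8 → ℝ =>
    HCx (v 2) (v 3) * v 4 + HCy (v 2) (v 3) * v 5 +
      2 * dS (v 0) (v 1) (v 2) (v 3) (v 4) (v 5) (v 6) (v 7)) {v | 1 - v 0 ^ 2 ≠ 0} := by
  unfold dS HCx HCy n1 n2 dn1 dn2
  have e : ContinuousOn (fun v : Fin 8 → ℝ => 1 - v 0 ^ 2) {v | 1 - v 0 ^ 2 ≠ 0} := by fun_prop
  refine ContinuousOn.add (by fun_prop) (continuousOn_const.mul ?_)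
  refine ContinuousOn.add (ContinuousOn.add ?_ ?_) ?_
  · refine ContinuousOn.mul (by fun_prop) (ContinuousOn.div (by fun_prop) e fun v hv => hv)
  · refine ContinuousOn.mul (by fun_prop) (ContinuousOn.mul (by fun_prop)
      (ContinuousOn.div (by fun_prop) e fun v hv => hv))
  · refine ContinuousOn.mul (by fun_prop) (ContinuousOn.div (by fun_prop) e fun v hv => hv)

lemma cont_Psi : ContinuousOn (fun p : ℝ × ℝ => Psi Γ p.1 p.2) (Rg T) := by
  refine cont_Psi_aux.comp (f := fun p : ℝ × ℝ => ![tf (dl Γ p.1 p.2), vv Γ p.1 p.2,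
    L1 Γ p.1 p.2, L2 Γ p.2 p.1, KK Γ p.1 p.2, KK Γ p.2 p.1, L2 Γ p.1 p.2 + L1 Γ p.2 p.1,
    L2 Γ p.1 p.2 - L1 Γ p.2 p.1]) ?_ ?_
  · rw [continuousOn_pi]
    intro i
    fin_cases i
    · exact h.cont_tf
    · exact h.cont_vv
    · exact h.cont_L1
    · exact h.cont_L2'
    · exact h.cont_KK
    · exact h.cont_KK'
    · exact h.cont_L2.add h.cont_L1'
    · exact h.cont_L2.sub h.cont_L1'
  · intro p _
    exact (one_sub_tf_sq_pos (dl Γ p.1 p.2)).ne'

lemma cont_Psi' : ContinuousOn (fun p : ℝ × ℝ => Psi Γ p.2 p.1) (Rg T) := by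
  refine cont_Psi_aux.comp (f := fun p : ℝ × ℝ => ![tf (dl Γ p.2 p.1), vv Γ p.2 p.1,
    L1 Γ p.2 p.1, L2 Γ p.1 p.2, KK Γ p.2 p.1, KK Γ p.1 p.2, L2 Γ p.2 p.1 + L1 Γ p.1 p.2,
    L2 Γ p.2 p.1 - L1 Γ p.1 p.2]) ?_ ?_
  · rw [continuousOn_pi]
    intro i
    fin_cases i
    · have e : (fun p : ℝ × ℝ => tf (dl Γ p.2 p.1)) = fun p => -tf (dl Γ p.1 p.2) := by
        funext p; rw [dl_swap, tf_neg]
      show ContinuousOn (fun p : ℝ × ℝ => tf (dl Γ p.2 p.1)) _
      rw [e]
      exact h.cont_tf.neg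
    · have e : (fun p : ℝ × ℝ => vv Γ p.2 p.1) = fun p => vv Γ p.1 p.2 := by
        funext p; rw [vv_swap]
      show ContinuousOn (fun p : ℝ × ℝ => vv Γ p.2 p.1) _
      rw [e]
      exact h.cont_vv
    · exact h.cont_L1'
    · exact h.cont_L2
    · exact h.cont_KK'
    · exact h.cont_KK
    · exact h.cont_L2'.add h.cont_L1
    · exact h.cont_L2'.sub h.cont_L1
  · intro p _
    exact (one_sub_tf_sq_pos (dl Γ p.2 p.1)).ne'

lemma cont_dTh : ContinuousOn (fun p : ℝ × ℝ => dTh Γ p.1 p.2) (Rg T) := by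
  have a1 := h.cont_L1
  have a2 := h.cont_L1'
  have a3 := h.cont_L2
  have a4 := h.cont_L2'
  have a5 := h.cont_L11
  have a6 := h.cont_L11'
  have a7 := h.cont_KK
  have a8 := h.cont_KK'
  unfold dTh
  fun_prop

end continuity

end Curve

/-! Integrals over strips. -/

section strips

variable {g : ℝ × ℝ → ℝ}

lemma cont_shift (hg : ContinuousOn g (Rg T)) :
    ContinuousOn (fun q : ℝ × ℝ => g (q.2, q.2 + q.1)) (Ioo 0 T ×ˢ univ) := by
  refine hg.comp (f := fun q : ℝ × ℝ => (q.2, q.2 + q.1)) (by fun_prop) ?_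
  rintro q ⟨hq, -⟩
  exact ⟨by simpa using hq.1, by simpa using hq.2⟩

lemma cont_slice (hg : ContinuousOn g (Rg T)) {r : ℝ} (hr : r ∈ Ioo 0 T) :
    Continuous fun t => g (t, t + r) :=
  (cont_shift hg).comp_continuous (by fun_prop : Continuous fun t : ℝ => (r, t))
    fun t => ⟨hr, mem_univ _⟩

lemma cont_slice' (hg : ContinuousOn g (Rg T)) (t : ℝ) :
    ContinuousOn (fun r => g (t, t + r)) (Ioo 0 T) :=
  (cont_shift hg).comp (f := fun r : ℝ => (r, t)) (by fun_prop)
    fun r hr => ⟨hr, mem_univ _⟩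

lemma strip_sub {ε : ℝ} (h0 : 0 < ε) : Icc ε (T - ε) ⊆ Ioo 0 T := fun r hr =>
  ⟨h0.trans_le hr.1, by linarith [hr.2]⟩

lemma strip_integrable (hT : 0 < T) (hg : ContinuousOn g (Rg T)) {ε : ℝ} (h0 : 0 < ε)
    (h1 : ε ≤ T - ε) : IntegrableOn (Function.uncurry fun r t => g (t, t + r))
      (uIoc ε (T - ε) ×ˢ uIoc 0 T) := by
  have h3 : IntegrableOn (Function.uncurry fun r t => g (t, t + r))
      (Icc ε (T - ε) ×ˢ Icc 0 T) := by
    refine ContinuousOn.integrableOn_compact (isCompact_Icc.prod isCompact_Icc) ?_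
    exact (cont_shift hg).mono fun q hq => ⟨strip_sub h0 hq.1, mem_univ _⟩
  refine h3.mono_set ?_
  rw [uIoc_of_le h1, uIoc_of_le hT.le]
  exact prod_mono Ioc_subset_Icc_self Ioc_subset_Icc_self

lemma strip_fubini (hT : 0 < T) (hg : ContinuousOn g (Rg T)) {ε : ℝ} (h0 : 0 < ε)
    (h1 : ε ≤ T - ε) : ∫ r in ε..(T - ε), (∫ t in (0)..T, g (t, t + r)) =
      ∫ t in (0)..T, (∫ r in ε..(T - ε), g (t, t + r)) :=
  MeasureTheory.intervalIntegral_intervalIntegral_swap (strip_integrable hT hg h0 h1)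

lemma strip_cont (hg : ContinuousOn g (Rg T)) {ε : ℝ} (h0 : 0 < ε) (h1 : ε ≤ T - ε) :
    ContinuousOn (fun r => ∫ t in (0)..T, g (t, t + r)) (Icc ε (T - ε)) := by
  set pr : ℝ → ℝ := fun r => max ε (min r (T - ε)) with hpr
  have hprc : Continuous pr := by simp only [hpr]; fun_prop
  have hprm : ∀ r, pr r ∈ Ioo (0:ℝ) T := by
    intro r
    refine strip_sub h0 ⟨?_, ?_⟩
    · exact le_max_left _ _
    · exact max_le h1 (min_le_right _ _)
  have hc : Continuous fun r => ∫ t in (0)..T, g (t, t + pr r) := by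
    refine intervalIntegral.continuous_parametric_intervalIntegral_of_continuous' ?_ 0 T
    have e : Function.uncurry (fun r t => g (t, t + pr r)) =
        (fun q : ℝ × ℝ => g (q.2, q.2 + q.1)) ∘ (fun q : ℝ × ℝ => (pr q.1, q.2)) := rfl
    rw [e]
    refine (cont_shift hg).comp_continuous ?_ ?_
    · exact (hprc.comp continuous_fst).prodMk continuous_snd
    · intro q
      exact ⟨hprm _, mem_univ _⟩
  refine hc.continuousOn.congr ?_
  intro r hr
  have : pr r = r := by
    simp only [hpr]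
    rw [min_eq_left hr.2, max_eq_right hr.1]
  simp only [this]

lemma strip_ii (hg : ContinuousOn g (Rg T)) {ε : ℝ} (h0 : 0 < ε) (h1 : ε ≤ T - ε) :
    IntervalIntegrable (fun r => ∫ t in (0)..T, g (t, t + r)) volume ε (T - ε) := by
  refine ContinuousOn.intervalIntegrable ?_
  rw [uIcc_of_le h1]
  exact strip_cont hg h0 h1

end strips

namespace Curve

variable (h : Curve T Γ)
include h

/-- The boundary terms of the null Lagrangian. -/
lemma int_Psi {ε : ℝ} (h0 : 0 < ε) (h1 : ε ≤ T - ε) :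
    ∫ r in ε..(T - ε), (∫ t in (0)..T, Psi Γ t (t + r)) =
      ∫ t in (0)..T, (Phi Γ t (t + (T - ε)) - Phi Γ t (t + ε)) := by
  rw [strip_fubini (g := fun p => Psi Γ p.1 p.2) h.T_pos h.cont_Psi h0 h1]
  refine intervalIntegral.integral_congr fun t _ => ?_
  have hd : ∀ r ∈ uIcc ε (T - ε), HasDerivAt (fun r => Phi Γ t (t + r)) (Psi Γ t (t + r)) r := by
    intro r hr
    rw [uIcc_of_le h1] at hr
    have hr' := strip_sub h0 hr
    have k1 := (h.dd_pos_right (t := t) (s := t + r) (by linarith [hr'.1]) (by linarith [hr'.2])).ne'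
    have k2 := (h.dd_pos_left (t := t) (s := t + r) (by linarith [hr'.1]) (by linarith [hr'.2])).ne'
    exact (h.hasDerivAt_Phi k1 k2).comp_const_add t r
  refine intervalIntegral.integral_eq_sub_of_hasDerivAt hd (ContinuousOn.intervalIntegrable ?_)
  rw [uIcc_of_le h1]
  exact (cont_slice' (g := fun p => Psi Γ p.1 p.2) h.cont_Psi t).mono (strip_sub h0)

lemma int_Psi_swap {ε : ℝ} :
    ∫ r in ε..(T - ε), (∫ t in (0)..T, Psi Γ (t + r) t) =
      ∫ r in ε..(T - ε), (∫ t in (0)..T, Psi Γ t (t + r)) := by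
  have e1 : ∀ r : ℝ, ∫ t in (0)..T, Psi Γ (t + r) t = ∫ t in (0)..T, Psi Γ t (t + (T - r)) := by
    intro r
    have k1 : ∫ t in (0)..T, Psi Γ (t + r) t = ∫ t in (0)..T, (fun u => Psi Γ u (u - r)) (t + r) := by
      refine intervalIntegral.integral_congr fun t _ => ?_
      simp
    rw [k1, intervalIntegral.integral_comp_add_right (fun u => Psi Γ u (u - r))]
    have hper : Function.Periodic (fun u => Psi Γ u (u - r)) T := by
      intro u
      have e : u + T - r = (u - r) + T := by ring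
      simp only [e, h.Psi_per_left, h.Psi_per_right]
    have k2 := hper.intervalIntegral_add_eq (0 + r) 0
    have e2 : 0 + r + T = T + r := by ring
    rw [e2, zero_add T] at k2
    rw [k2]
    refine intervalIntegral.integral_congr fun u _ => ?_
    have e : u + (T - r) = (u - r) + T := by ring
    simp only [e, h.Psi_per_right]
  simp_rw [e1]
  have k3 := intervalIntegral.integral_comp_sub_left (a := ε) (b := T - ε)
    (fun r => ∫ t in (0)..T, Psi Γ t (t + r)) T
  rw [k3]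
  congr 1
  ring

lemma int_dTh (hW : ∀ y, Wr Γ y = 1) {r : ℝ} (hr : r ∈ Ioo 0 T) :
    ∫ t in (0)..T, dTh Γ t (t + r) = 0 := by
  have hd : ∀ t ∈ uIcc 0 T, HasDerivAt (fun t => Th Γ t (t + r)) (dTh Γ t (t + r)) t := by
    intro t _
    have k1 := (h.dd_pos_right (t := t) (s := t + r) (by linarith [hr.1]) (by linarith [hr.2])).ne'
    have k2 := (h.dd_pos_left (t := t) (s := t + r) (by linarith [hr.1]) (by linarith [hr.2])).ne'
    have k3 := h.hasDerivAt_diag_Th (x := 0) (y := r) (r := t) hW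
      (by rwa [zero_add, add_comm r t]) (by rwa [zero_add, add_comm r t])
    simp only [zero_add] at k3
    have e : (fun t => Th Γ t (r + t)) = fun t => Th Γ t (t + r) := by
      funext t; rw [add_comm]
    rw [e, add_comm r t] at k3
    exact k3
  rw [intervalIntegral.integral_eq_sub_of_hasDerivAt hd
    ((cont_slice (g := fun p => dTh Γ p.1 p.2) h.cont_dTh hr).intervalIntegrable _ _)]
  have e1 : T + r = (0 + r) + T := by ring
  have e2 : Th Γ T (T + r) = Th Γ 0 (0 + r) := by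
    rw [e1, h.Th_per_right]
    have := h.Th_per_left 0 (0 + r)
    rw [zero_add] at this
    exact this
  rw [e2, sub_self]

/-- The integral of the nonnegative density over the strip. -/
theorem strip_identity (hW : ∀ y, Wr Γ y = 1) {ε : ℝ} (h0 : 0 < ε) (h1 : ε ≤ T - ε) :
    50 * (∫ r in ε..(T - ε), (∫ t in (0)..T, Idens Γ t (t + r))) =
      (∫ r in ε..(T - ε), (∫ t in (0)..T, Qdens Γ t (t + r))) -
      2 * ∫ t in (0)..T, (Phi Γ t (t + (T - ε)) - Phi Γ t (t + ε)) := by
  have cI := h.cont_Idens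
  have cQ := h.cont_Qdens
  have cP := h.cont_Psi
  have cP' := h.cont_Psi'
  have key : ∀ r ∈ Icc ε (T - ε), 50 * (∫ t in (0)..T, Idens Γ t (t + r)) =
      (∫ t in (0)..T, Qdens Γ t (t + r)) - (∫ t in (0)..T, Psi Γ t (t + r)) -
        (∫ t in (0)..T, Psi Γ (t + r) t) := by
    intro r hr
    have hr' := strip_sub h0 hr
    have i1 := (cont_slice (g := fun p => Idens Γ p.1 p.2) cI hr').intervalIntegrable
      (μ := volume) 0 T
    have i2 := (cont_slice (g := fun p => Qdens Γ p.1 p.2) cQ hr').intervalIntegrable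
      (μ := volume) 0 T
    have i3 := (cont_slice (g := fun p => Psi Γ p.1 p.2) cP hr').intervalIntegrable
      (μ := volume) 0 T
    have i4 := (cont_slice (g := fun p => Psi Γ p.2 p.1) cP' hr').intervalIntegrable
      (μ := volume) 0 T
    have i5 := (cont_slice (g := fun p => dTh Γ p.1 p.2) h.cont_dTh hr').intervalIntegrable
      (μ := volume) 0 T
    have z := h.int_dTh hW hr'
    have e : ∫ t in (0)..T, 50 * Idens Γ t (t + r) =
        ∫ t in (0)..T, (((Qdens Γ t (t + r) - Psi Γ t (t + r)) - Psi Γ (t + r) t) +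
          50 * dTh Γ t (t + r)) := by
      refine intervalIntegral.integral_congr fun t _ => ?_
      exact density_identity hW
        (h.dd_pos_right (by linarith [hr'.1]) (by linarith [hr'.2]))
        (h.dd_pos_left (by linarith [hr'.1]) (by linarith [hr'.2]))
    rw [intervalIntegral.integral_const_mul] at e
    rw [e, intervalIntegral.integral_add ((i2.sub i3).sub i4) (i5.const_mul 50),
      intervalIntegral.integral_sub (i2.sub i3) i4, intervalIntegral.integral_sub i2 i3,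
      intervalIntegral.integral_const_mul, z]
    ring
  have j2 := strip_ii (g := fun p => Qdens Γ p.1 p.2) cQ h0 h1
  have j3 := strip_ii (g := fun p => Psi Γ p.1 p.2) cP h0 h1
  have j4 := strip_ii (g := fun p => Psi Γ p.2 p.1) cP' h0 h1
  have e : ∫ r in ε..(T - ε), 50 * (∫ t in (0)..T, Idens Γ t (t + r)) =
      ∫ r in ε..(T - ε), ((∫ t in (0)..T, Qdens Γ t (t + r)) -
        (∫ t in (0)..T, Psi Γ t (t + r)) - (∫ t in (0)..T, Psi Γ (t + r) t)) := by
    refine intervalIntegral.integral_congr fun r hr => ?_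
    rw [uIcc_of_le h1] at hr
    exact key r hr
  rw [intervalIntegral.integral_const_mul] at e
  rw [e, intervalIntegral.integral_sub (j2.sub j3) j4, intervalIntegral.integral_sub j2 j3]
  have e2 := h.int_Psi h0 h1
  have e3 := h.int_Psi_swap (ε := ε)
  simp only at e2 e3 ⊢
  rw [e3, e2]
  ring

/-- Up to a small error, the integral of the density over the strip bounds the integral of the
nonnegative density. -/
theorem strip_bound (hW : ∀ y, Wr Γ y = 1) : ∃ C, 0 ≤ C ∧ ∀ ε, 0 < ε → ε ≤ T / 2 →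
    (∫ r in ε..(T - ε), (∫ t in (0)..T, Qdens Γ t (t + r))) ≤
      50 * (∫ r in ε..(T - ε), (∫ t in (0)..T, Idens Γ t (t + r))) + C * ε := by
  obtain ⟨C, hC0, hC⟩ := h.Phi_bound hW
  have hT := h.T_pos
  refine ⟨2 * (C * T), by positivity, fun ε h0 h2 => ?_⟩
  have h1 : ε ≤ T - ε := by linarith
  have hε : ε ∈ Ioo 0 T := ⟨h0, by linarith⟩
  have hε' : T - ε ∈ Ioo 0 T := ⟨by linarith, by linarith⟩
  have key := h.strip_identity hW h0 h1
  -- continuity of the boundary terms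
  have cPhi : ContinuousOn (fun p : ℝ × ℝ => Phi Γ p.1 p.2) (Rg T) := by
    have cn : ContinuousOn (fun p : ℝ × ℝ => n1 (tf (dl Γ p.1 p.2))) (Rg T) := by
      have : Continuous n1 := by unfold n1; fun_prop
      exact this.comp_continuousOn h.cont_tf
    have cn' : ContinuousOn (fun p : ℝ × ℝ => n2 (tf (dl Γ p.1 p.2))) (Rg T) := by
      have : Continuous n2 := by unfold n2; fun_prop
      exact this.comp_continuousOn h.cont_tf
    have cH : ContinuousOn (fun p : ℝ × ℝ => HC (L1 Γ p.1 p.2) (L2 Γ p.2 p.1)) (Rg T) := by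
      have a1 := h.cont_L1
      have a2 := h.cont_L2'
      unfold HC
      fun_prop
    refine cH.add (continuousOn_const.mul (h.cont_vv.mul (((cn.mul h.cont_L1).add
      (cn'.mul h.cont_L2')).div h.cont_one_sub fun p _ => (one_sub_tf_sq_pos _).ne')))
  have i1 := (cont_slice cPhi hε).intervalIntegrable (μ := volume) 0 T
  have i2 := (cont_slice cPhi hε').intervalIntegrable (μ := volume) 0 T
  have e1 : ∫ t in (0)..T, Phi Γ t (t + (T - ε)) = ∫ t in (0)..T, Phi Γ (t + ε) t := by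
    have k1 : ∫ t in (0)..T, Phi Γ (t + ε) t = ∫ t in (0)..T, (fun u => Phi Γ u (u - ε)) (t + ε) := by
      refine intervalIntegral.integral_congr fun t _ => ?_
      simp
    rw [k1, intervalIntegral.integral_comp_add_right (fun u => Phi Γ u (u - ε))]
    have hper : Function.Periodic (fun u => Phi Γ u (u - ε)) T := by
      intro u
      have e : u + T - ε = (u - ε) + T := by ring
      simp only [e, h.Phi_per_left, h.Phi_per_right]
    have k2 := hper.intervalIntegral_add_eq (0 + ε) 0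
    have e2 : 0 + ε + T = T + ε := by ring
    rw [e2, zero_add T] at k2
    rw [k2]
    refine intervalIntegral.integral_congr fun u _ => ?_
    have e : u + (T - ε) = (u - ε) + T := by ring
    simp only [e, h.Phi_per_right]
  have i3 : IntervalIntegrable (fun t => Phi Γ (t + ε) t) volume 0 T := by
    have c := (cont_slice cPhi hε').comp (continuous_id.add_const ε)
    have e : (fun t => Phi Γ (t + ε) t) =
        (fun t => Phi Γ t (t + (T - ε))) ∘ fun t => id t + ε := by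
      funext t
      have e2 : t + ε + (T - ε) = t + T := by ring
      simp only [Function.comp, id, e2, h.Phi_per_right]
    rw [e]
    exact c.intervalIntegrable _ _
  have e2 : ∫ t in (0)..T, (Phi Γ t (t + (T - ε)) - Phi Γ t (t + ε)) =
      ∫ t in (0)..T, (Phi Γ (t + ε) t - Phi Γ t (t + ε)) := by
    rw [intervalIntegral.integral_sub i2 i1, intervalIntegral.integral_sub i3 i1, e1]
  have e3 : |∫ t in (0)..T, (Phi Γ (t + ε) t - Phi Γ t (t + ε))| ≤ C * ε * T := by
    have := intervalIntegral.norm_integral_le_of_norm_le_const (a := 0) (b := T)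
      (f := fun t => Phi Γ (t + ε) t - Phi Γ t (t + ε)) (C := C * ε) (by
        intro t _
        have k := hC (t + ε) t (by linarith : (t:ℝ) < t + ε).ne' (by
          rw [add_sub_cancel_left, abs_of_pos h0]; exact h2)
        rw [add_sub_cancel_left, abs_of_pos h0] at k
        exact k)
    rw [sub_zero, abs_of_pos hT] at this
    exact this
  rw [e2] at key
  have e4 := (abs_le.1 e3).2
  linarith

end Curve

end Pool.Agent.MP_ae5b4e_an_hopf
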