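import Mathlib
import Pool.Agent.Lib.MP_ae5b4e_an_hopf.Strip

/-!
The second tangency point as a function of the first one and of the coordinate of the point.
-/

noncomputable section

namespace Pool.Agent.MP_ae5b4e_an_hopf

open Set Filter Topology Real
open scoped ContDiff

open Classical in
/-- the second tangency point -/
def nx (Γ : ℝ → Fin 3 → ℝ) (T t u : ℝ) : ℝ :=
  if h : ∃ s, t < s ∧ s < t + T ∧ L1 Γ t s = -u then h.choose else t

variable {Γ : ℝ → Fin 3 → ℝ} {T : ℝ}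

namespace Curve

variable (h : Curve T Γ)
include h

lemma strictMono_L1 (t : ℝ) : StrictMonoOn (fun s => L1 Γ t s) (Ioo t (t + T)) := by
  have hd : ∀ s ∈ Ioo t (t + T), HasDerivAt (fun s => L1 Γ t s) (KK Γ t s) s := fun s hs =>
    h.hasDerivAt_L1_right (h.dd_pos_right hs.1 hs.2).ne'
  refine strictMonoOn_of_deriv_pos (convex_Ioo _ _) ?_ ?_
  · intro s hs
    exact (hd s hs).continuousAt.continuousWithinAt
  · intro s hs
    rw [interior_Ioo] at hs
    rw [(hd s hs).deriv]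
    exact h.KK_pos_right hs.1 hs.2

lemma tendsto_P1_el (t : ℝ) : Tendsto (fun s => P1 (el Γ) (t, s)) (𝓝 t) (𝓝 (P1 (el Γ) (t, t))) :=
  (h.nice_el.P1.hasDerivAt_right (by simpa using h.T_pos)).continuousAt

lemma tendsto_L1_right (t : ℝ) : Tendsto (fun s => L1 Γ t s) (𝓝[>] t) atBot := by
  have h1 : Tendsto (fun s : ℝ => 2 / (t - s)) (𝓝[>] t) atBot := by
    have h2 : Tendsto (fun s : ℝ => s - t) (𝓝[>] t) (𝓝[>] 0) := by
      have := tendsto_nhdsWithin_of_tendsto_nhds_of_eventually_within (a := (0:ℝ)) (s := Ioi 0)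
        (f := fun s : ℝ => s - t) (l := 𝓝[>] t) ?_ ?_
      · exact this
      · have h3 : Tendsto (fun s : ℝ => s - t) (𝓝 t) (𝓝 (t - t)) :=
          (continuous_id.sub continuous_const).tendsto t
        rw [sub_self] at h3
        exact h3.mono_left nhdsWithin_le_nhds
      · filter_upwards [self_mem_nhdsWithin] with s hs
        show 0 < s - t
        have : t < s := hs
        linarith
    have h3 := (tendsto_inv_nhdsGT_zero.comp h2).const_mul_atTop (by norm_num : (0:ℝ) < 2)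
    have h4 := tendsto_neg_atTop_atBot.comp h3
    refine h4.congr fun s => ?_
    simp only [Function.comp]
    have : t - s = -(s - t) := by ring
    rw [this, div_neg, div_eq_mul_inv]
  have h2 := h1.atBot_add ((h.tendsto_P1_el t).mono_left (nhdsWithin_le_nhds (s := Ioi t)))
  refine h2.congr' ?_
  have h3 : ∀ᶠ s in 𝓝[>] t, s < t + T :=
    mem_nhdsWithin_of_mem_nhds (isOpen_Iio.mem_nhds (by
      show t < t + T
      linarith [h.T_pos]))
  filter_upwards [self_mem_nhdsWithin, h3] with s hs hs'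
  have hs1 : t < s := hs
  exact (h.L1_eq hs1.ne (by rw [abs_lt]; constructor <;> linarith)).symm

lemma tendsto_L1_left (t : ℝ) : Tendsto (fun s => L1 Γ t s) (𝓝[<] t) atTop := by
  have h1 : Tendsto (fun s : ℝ => 2 / (t - s)) (𝓝[<] t) atTop := by
    have h2 : Tendsto (fun s : ℝ => t - s) (𝓝[<] t) (𝓝[>] 0) := by
      have := tendsto_nhdsWithin_of_tendsto_nhds_of_eventually_within (a := (0:ℝ)) (s := Ioi 0)
        (f := fun s : ℝ => t - s) (l := 𝓝[<] t) ?_ ?_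
      · exact this
      · have h3 : Tendsto (fun s : ℝ => t - s) (𝓝 t) (𝓝 (t - t)) :=
          (continuous_const.sub continuous_id).tendsto t
        rw [sub_self] at h3
        exact h3.mono_left nhdsWithin_le_nhds
      · filter_upwards [self_mem_nhdsWithin] with s hs
        show 0 < t - s
        have : s < t := hs
        linarith
    have h3 := (tendsto_inv_nhdsGT_zero.comp h2).const_mul_atTop (by norm_num : (0:ℝ) < 2)
    refine h3.congr fun s => ?_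
    simp only [Function.comp]
    rw [div_eq_mul_inv]
  have h2 := h1.atTop_add ((h.tendsto_P1_el t).mono_left (nhdsWithin_le_nhds (s := Iio t)))
  refine h2.congr' ?_
  have h3 : ∀ᶠ s in 𝓝[<] t, t - T < s :=
    mem_nhdsWithin_of_mem_nhds (isOpen_Ioi.mem_nhds (by
      show t - T < t
      linarith [h.T_pos]))
  filter_upwards [self_mem_nhdsWithin, h3] with s hs hs'
  have hs1 : s < t := hs
  exact (h.L1_eq hs1.ne' (by rw [abs_lt]; constructor <;> linarith)).symm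

lemma exists_nx (t u : ℝ) : ∃ s, t < s ∧ s < t + T ∧ L1 Γ t s = -u := by
  have hT := h.T_pos
  obtain ⟨a, ha1, ha2⟩ : ∃ a, a ∈ Ioo t (t + T) ∧ L1 Γ t a < -u := by
    have e1 := (h.tendsto_L1_right t).eventually_lt_atBot (-u)
    have e2 : ∀ᶠ s in 𝓝[>] t, s ∈ Ioo t (t + T) := Ioo_mem_nhdsGT (by linarith)
    obtain ⟨a, h1, h2⟩ := (e1.and e2).exists
    exact ⟨a, h2, h1⟩
  obtain ⟨b, hb1, hb2⟩ : ∃ b, b ∈ Ioo t (t + T) ∧ -u < L1 Γ t b := by
    have e1 := (h.tendsto_L1_left t).eventually_gt_atTop (-u)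
    have e2 : ∀ᶠ s in 𝓝[<] t, s ∈ Ioo (t - T) t := Ioo_mem_nhdsLT (by linarith)
    obtain ⟨b, h1, h2⟩ := (e1.and e2).exists
    refine ⟨b + T, ⟨by linarith [h2.1], by linarith [h2.2]⟩, ?_⟩
    rw [h.L1_per_right]
    exact h1
  have hc : ContinuousOn (fun s => L1 Γ t s) (Ioo t (t + T)) := fun s hs =>
    (h.hasDerivAt_L1_right (h.dd_pos_right hs.1 hs.2).ne').continuousAt.continuousWithinAt
  have := isPreconnected_Ioo.intermediate_value ha1 hb1 hc
  obtain ⟨s, hs, hs'⟩ := this ⟨ha2.le, hb2.le⟩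
  exact ⟨s, hs.1, hs.2, hs'⟩

lemma nx_spec (t u : ℝ) : t < nx Γ T t u ∧ nx Γ T t u < t + T ∧ L1 Γ t (nx Γ T t u) = -u := by
  unfold nx
  rw [dif_pos (h.exists_nx t u)]
  exact (h.exists_nx t u).choose_spec

lemma nx_unique {t u s : ℝ} (h1 : t < s) (h2 : s < t + T) (h3 : L1 Γ t s = -u) :
    nx Γ T t u = s := by
  obtain ⟨a1, a2, a3⟩ := h.nx_spec t u
  exact (h.strictMono_L1 t).injOn ⟨a1, a2⟩ ⟨h1, h2⟩ (by show L1 Γ t _ = L1 Γ t s; rw [a3, h3])

lemma nx_mem (t u : ℝ) : (t, nx Γ T t u) ∈ Rg T := ⟨(h.nx_spec t u).1, (h.nx_spec t u).2.1⟩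

lemma nx_per (t u : ℝ) : nx Γ T (t + T) u = nx Γ T t u + T := by
  obtain ⟨a1, a2, a3⟩ := h.nx_spec t u
  refine h.nx_unique (by linarith) (by linarith) ?_
  rw [h.L1_per_left, h.L1_per_right, a3]

/-- monotonicity -/
lemma nx_strictAnti (t : ℝ) : StrictAnti (nx Γ T t) := by
  intro u v huv
  obtain ⟨a1, a2, a3⟩ := h.nx_spec t u
  obtain ⟨b1, b2, b3⟩ := h.nx_spec t v
  refine ((h.strictMono_L1 t).lt_iff_lt ⟨b1, b2⟩ ⟨a1, a2⟩).1 ?_
  show L1 Γ t _ < L1 Γ t _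
  rw [a3, b3]
  linarith

/-- Smoothness of the second tangency point. -/
theorem contDiff_nx : ContDiff ℝ ∞ (fun p : ℝ × ℝ => nx Γ T p.1 p.2) := by
  rw [contDiff_iff_contDiffAt]
  rintro ⟨t₀, u₀⟩
  obtain ⟨a1, a2, a3⟩ := h.nx_spec t₀ u₀
  set s₀ := nx Γ T t₀ u₀ with hs₀
  have hn := (h.dd_pos_right a1 a2).ne'
  have hK := h.KK_pos_right a1 a2
  set Ψ : ℝ × ℝ → ℝ × ℝ := fun p => (p.1, L1 Γ p.1 p.2) with hΨ
  have hΨs : ContDiffAt ℝ ∞ Ψ (t₀, s₀) :=
    contDiffAt_fst.prodMk (h.contDiffAt_L1 (p := (t₀, s₀)) hn)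
  -- the derivative
  have hL : HasFDerivAt (fun p : ℝ × ℝ => L1 Γ p.1 p.2)
      (fderiv ℝ (fun p : ℝ × ℝ => L1 Γ p.1 p.2) (t₀, s₀)) (t₀, s₀) :=
    ((h.contDiffAt_L1 (p := (t₀, s₀)) hn).differentiableAt (by simp)).hasFDerivAt
  set Lf := fderiv ℝ (fun p : ℝ × ℝ => L1 Γ p.1 p.2) (t₀, s₀) with hLf
  have hb : Lf (0, 1) = KK Γ t₀ s₀ := by
    have k1 := hL.comp_hasDerivAt s₀ ((hasDerivAt_const s₀ t₀).prodMk (hasDerivAt_id s₀))
    have k2 := h.hasDerivAt_L1_right (x := t₀) (y := s₀) hn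
    exact k1.unique k2
  set e : (ℝ × ℝ) ≃L[ℝ] (ℝ × ℝ) := ContinuousLinearEquiv.skewProd
    (ContinuousLinearEquiv.refl ℝ ℝ)
    (ContinuousLinearEquiv.unitsEquivAut ℝ (Units.mk0 (KK Γ t₀ s₀) hK.ne'))
    ((ContinuousLinearMap.id ℝ ℝ).smulRight (Lf (1, 0))) with he
  have hfd : HasFDerivAt Ψ (e : (ℝ × ℝ) →L[ℝ] (ℝ × ℝ)) (t₀, s₀) := by
    have k : HasFDerivAt Ψ ((ContinuousLinearMap.fst ℝ ℝ ℝ).prod Lf) (t₀, s₀) :=
      hasFDerivAt_fst.prodMk hL
    convert k using 1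
    ext
    · simp [he]
    · simp [he]
    · simp [he]
    · simp [he, hb]
  set g := hΨs.localInverse hfd (by simp) with hg
  have hgs : ContDiffAt ℝ ∞ g (Ψ (t₀, s₀)) := hΨs.to_localInverse hfd (by simp)
  have hga : g (Ψ (t₀, s₀)) = (t₀, s₀) := hΨs.localInverse_apply_image hfd (by simp)
  have hstrict : HasStrictFDerivAt Ψ (e : (ℝ × ℝ) →L[ℝ] (ℝ × ℝ)) (t₀, s₀) :=
    hΨs.hasStrictFDerivAt' hfd (by simp)
  have hright : ∀ᶠ q in 𝓝 (Ψ (t₀, s₀)), Ψ (g q) = q := hstrict.eventually_right_inverse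
  have hmem : ∀ᶠ q in 𝓝 (Ψ (t₀, s₀)), g q ∈ Rg T := by
    have h1 : Tendsto g (𝓝 (Ψ (t₀, s₀))) (𝓝 (t₀, s₀)) := by
      have := hgs.continuousAt.tendsto
      rwa [hga] at this
    exact h1.eventually ((isOpen_Rg T).mem_nhds ⟨a1, a2⟩)
  -- back to `nx`
  have hval : Ψ (t₀, s₀) = (t₀, -u₀) := by
    show (t₀, L1 Γ t₀ s₀) = _
    rw [a3]
  rw [hval] at hgs hright hmem
  set f : ℝ × ℝ → ℝ × ℝ := fun p => (p.1, -p.2) with hf
  have hfc : ContDiffAt ℝ ∞ f (t₀, u₀) := contDiffAt_fst.prodMk contDiffAt_snd.neg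
  have hft : Tendsto f (𝓝 (t₀, u₀)) (𝓝 (t₀, -u₀)) := hfc.continuousAt
  have hform : (fun p : ℝ × ℝ => nx Γ T p.1 p.2) =ᶠ[𝓝 (t₀, u₀)] fun p => (g (f p)).2 := by
    filter_upwards [hft.eventually hright, hft.eventually hmem] with p h1 h2
    have h3' : (Ψ (g (f p))).1 = (f p).1 := congrArg Prod.fst h1
    have h4' : (Ψ (g (f p))).2 = (f p).2 := congrArg Prod.snd h1
    have h3 : (g (f p)).1 = p.1 := h3'
    have h4 : L1 Γ (g (f p)).1 (g (f p)).2 = -p.2 := h4'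
    rw [h3] at h4
    refine h.nx_unique ?_ ?_ h4
    · rw [← h3]; exact h2.1
    · rw [← h3]; exact h2.2
  refine ContDiffAt.congr_of_eventuallyEq ?_ hform
  have : ContDiffAt ℝ ∞ (fun p => g (f p)) (t₀, u₀) := hgs.comp (t₀, u₀) hfc
  exact contDiffAt_snd.comp (t₀, u₀) this

end Curve

end Pool.Agent.MP_ae5b4e_an_hopf
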