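import Mathlib
import Pool.Agent.Lib.MP_ae5b4e_an_hopf.Tangent

/-!
Families of invariant curves around a closed convex curve.
-/

noncomputable section

namespace Pool.Agent.MP_ae5b4e_an_hopf

open Set Filter Topology Real MeasureTheory intervalIntegral
open scoped ContDiff

variable {Γ : ℝ → Fin 3 → ℝ} {T : ℝ}

namespace Curve

variable (h : Curve T Γ)
include h

lemma hasDerivAt_dd_comp {α β : ℝ → ℝ} {a b r : ℝ} (hα : HasDerivAt α a r)
    (hβ : HasDerivAt β b r) :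
    HasDerivAt (fun r => dd Γ (α r) (β r))
      (ddx Γ (α r) (β r) * a + ddy Γ (α r) (β r) * b) r := by
  have k0 := (h.hd0 (α r)).scomp r hα
  have k1 := (h.hd0 (β r)).scomp r hβ
  have k2 := (h.hd1 (β r)).scomp r hβ
  refine (hasDerivAt_det3 k0 k1 k2).congr_deriv ?_
  unfold ddx ddy det3
  simp only [Function.comp, Pi.smul_apply, smul_eq_mul]
  ring

lemma hasDerivAt_ddx_comp {α β : ℝ → ℝ} {a b r : ℝ} (hα : HasDerivAt α a r)
    (hβ : HasDerivAt β b r) :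
    HasDerivAt (fun r => ddx Γ (α r) (β r))
      (ddxx Γ (α r) (β r) * a + ddxy Γ (α r) (β r) * b) r := by
  have k0 := (h.hd1 (α r)).scomp r hα
  have k1 := (h.hd0 (β r)).scomp r hβ
  have k2 := (h.hd1 (β r)).scomp r hβ
  refine (hasDerivAt_det3 k0 k1 k2).congr_deriv ?_
  unfold ddxx ddxy det3
  simp only [Function.comp, Pi.smul_apply, smul_eq_mul]
  ring

lemma hasDerivAt_L1_comp {α β : ℝ → ℝ} {a b r : ℝ} (hα : HasDerivAt α a r)
    (hβ : HasDerivAt β b r) (hn : dd Γ (α r) (β r) ≠ 0) :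
    HasDerivAt (fun r => L1 Γ (α r) (β r))
      (L11 Γ (α r) (β r) * a + KK Γ (α r) (β r) * b) r := by
  refine ((h.hasDerivAt_ddx_comp hα hβ).div (h.hasDerivAt_dd_comp hα hβ) hn).congr_deriv ?_
  unfold L11 KK
  rw [← pluecker]
  field_simp
  ring

lemma hasDerivAt_log_comp {α β : ℝ → ℝ} {a b r : ℝ} (hα : HasDerivAt α a r)
    (hβ : HasDerivAt β b r) (hn : dd Γ (α r) (β r) ≠ 0) :
    HasDerivAt (fun r => log (dd Γ (α r) (β r)))
      (L1 Γ (α r) (β r) * a + L2 Γ (α r) (β r) * b) r := by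
  refine ((h.hasDerivAt_dd_comp hα hβ).log hn).congr_deriv ?_
  unfold L1 L2
  field_simp

lemma hasDerivAt_nx_comp {α β : ℝ → ℝ} {a b r : ℝ} (hα : HasDerivAt α a r)
    (hβ : HasDerivAt β b r) :
    HasDerivAt (fun r => nx Γ T (α r) (β r))
      (-(L11 Γ (α r) (nx Γ T (α r) (β r)) * a + b) / KK Γ (α r) (nx Γ T (α r) (β r))) r := by
  obtain ⟨a1, a2, a3⟩ := h.nx_spec (α r) (β r)
  have hn := (h.dd_pos_right a1 a2).ne'
  have hK := (h.KK_pos_right a1 a2).ne'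
  have hdiff : DifferentiableAt ℝ (fun r => nx Γ T (α r) (β r)) r := by
    have k1 : DifferentiableAt ℝ (fun p : ℝ × ℝ => nx Γ T p.1 p.2) (α r, β r) :=
      h.contDiff_nx.contDiffAt.differentiableAt (by simp)
    exact DifferentiableAt.comp (f := fun r => (α r, β r)) r k1
      (hα.differentiableAt.prodMk hβ.differentiableAt)
  have hd := hdiff.hasDerivAt
  set d := deriv (fun r => nx Γ T (α r) (β r)) r with hdd
  have k1 := h.hasDerivAt_L1_comp hα hd hn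
  have k2 : (fun r => L1 Γ (α r) (nx Γ T (α r) (β r))) = fun r => -β r :=
    funext fun r => (h.nx_spec (α r) (β r)).2.2
  rw [k2] at k1
  have k3 := k1.unique hβ.neg
  refine hd.congr_deriv ?_
  rw [eq_div_iff hK]
  linarith

end Curve

/-- `U` as a function on the plane -/
def Uf (U : ℝ → ℝ → ℝ) (q : ℝ × ℝ) : ℝ := U q.1 q.2

/-- derivative in the parameter of the leaf -/
def Uc (U : ℝ → ℝ → ℝ) (q : ℝ × ℝ) : ℝ := fderiv ℝ (Uf U) q (1, 0)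

/-- derivative along the leaf -/
def Ut (U : ℝ → ℝ → ℝ) (q : ℝ × ℝ) : ℝ := fderiv ℝ (Uf U) q (0, 1)

/-- A family of curves that are invariant under the (projective) dual billiard map. -/
structure Sys (T : ℝ) (Γ : ℝ → Fin 3 → ℝ) (U : ℝ → ℝ → ℝ) (κ : ℝ → ℝ) : Prop where
  curve : Curve T Γ
  smooth : ContDiffOn ℝ ∞ (fun q : ℝ × ℝ => U q.1 q.2) (Ioo 0 1 ×ˢ univ)
  per : ∀ c ∈ Ioo (0:ℝ) 1, ∀ t, U c (t + T) = U c t
  mono : ∀ c ∈ Ioo (0:ℝ) 1, ∀ t, deriv (fun r => U r t) c < 0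
  lim0 : ∀ t, Tendsto (fun c => U c t) (𝓝[>] 0) atTop
  lim1 : ∀ t, Tendsto (fun c => U c t) (𝓝[<] 1) (𝓝 (κ t / 2))
  feq : ∀ c ∈ Ioo (0:ℝ) 1, ∀ t s, t < s → s < t + T → L1 Γ t s = -(U c t) →
    U c s = κ s + L1 Γ s t

variable {U : ℝ → ℝ → ℝ} {κ : ℝ → ℝ}

lemma isOpen_dom : IsOpen (Ioo (0:ℝ) 1 ×ˢ (univ : Set ℝ)) := isOpen_Ioo.prod isOpen_univ

lemma continuous_slice {F : ℝ × ℝ → ℝ} (hF : ContinuousOn F (Ioo 0 1 ×ˢ univ)) {c : ℝ}
    (hc : c ∈ Ioo (0:ℝ) 1) : Continuous fun t => F (c, t) :=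
  hF.comp_continuous (by fun_prop) fun t => ⟨hc, mem_univ _⟩

namespace Sys

variable (h : Sys T Γ U κ)
include h

lemma T_pos : 0 < T := h.curve.T_pos

lemma contDiffOn : ContDiffOn ℝ ∞ (Uf U) (Ioo 0 1 ×ˢ univ) := h.smooth

lemma contDiffAt {q : ℝ × ℝ} (hq : q.1 ∈ Ioo (0:ℝ) 1) : ContDiffAt ℝ ∞ (Uf U) q :=
  h.contDiffOn.contDiffAt (isOpen_dom.mem_nhds ⟨hq, mem_univ _⟩)

lemma hasFDerivAt {q : ℝ × ℝ} (hq : q.1 ∈ Ioo (0:ℝ) 1) :
    HasFDerivAt (Uf U) (fderiv ℝ (Uf U) q) q :=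
  ((h.contDiffAt hq).differentiableAt (by simp)).hasFDerivAt

lemma continuousOn_Uc : ContinuousOn (Uc U) (Ioo 0 1 ×ˢ univ) :=
  (h.contDiffOn.continuousOn_fderiv_of_isOpen isOpen_dom (by simp)).clm_apply continuousOn_const

lemma continuousOn_Ut : ContinuousOn (Ut U) (Ioo 0 1 ×ˢ univ) :=
  (h.contDiffOn.continuousOn_fderiv_of_isOpen isOpen_dom (by simp)).clm_apply continuousOn_const

lemma continuousOn_Uf : ContinuousOn (Uf U) (Ioo 0 1 ×ˢ univ) := h.contDiffOn.continuousOn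

/-- chain rule along a curve -/
lemma hasDerivAt_comp {γ₁ γ₂ : ℝ → ℝ} {a b t : ℝ} (h1 : HasDerivAt γ₁ a t)
    (h2 : HasDerivAt γ₂ b t) (hm : γ₁ t ∈ Ioo (0:ℝ) 1) :
    HasDerivAt (fun s => Uf U (γ₁ s, γ₂ s)) (a * Uc U (γ₁ t, γ₂ t) + b * Ut U (γ₁ t, γ₂ t)) t := by
  have h3 := (h.hasFDerivAt (q := (γ₁ t, γ₂ t)) hm).comp_hasDerivAt t (h1.prodMk h2)
  refine h3.congr_deriv ?_
  have e : ((a, b) : ℝ × ℝ) = a • ((1, 0) : ℝ × ℝ) + b • ((0, 1) : ℝ × ℝ) := by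
    ext <;> simp
  rw [e, map_add, map_smul, map_smul]
  rfl

lemma hasDerivAt_c {c : ℝ} (hc : c ∈ Ioo (0:ℝ) 1) (t : ℝ) :
    HasDerivAt (fun r => Uf U (r, t)) (Uc U (c, t)) c := by
  have := h.hasDerivAt_comp (hasDerivAt_id c) (hasDerivAt_const c t) hc
  simpa using this

lemma hasDerivAt_t {c : ℝ} (hc : c ∈ Ioo (0:ℝ) 1) (t : ℝ) :
    HasDerivAt (fun r => Uf U (c, r)) (Ut U (c, t)) t := by
  have := h.hasDerivAt_comp (hasDerivAt_const t c) (hasDerivAt_id t) hc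
  simpa using this

lemma Uf_per {c : ℝ} (hc : c ∈ Ioo (0:ℝ) 1) (t : ℝ) : Uf U (c, t + T) = Uf U (c, t) :=
  h.per c hc t

lemma Uc_per {c : ℝ} (hc : c ∈ Ioo (0:ℝ) 1) (t : ℝ) : Uc U (c, t + T) = Uc U (c, t) := by
  have h1 := h.hasDerivAt_c hc (t + T)
  have h2 := h.hasDerivAt_c hc t
  refine h1.unique (h2.congr_of_eventuallyEq ?_)
  filter_upwards [isOpen_Ioo.mem_nhds hc] with r hr
  exact h.Uf_per hr t

lemma Ut_per {c : ℝ} (hc : c ∈ Ioo (0:ℝ) 1) (t : ℝ) : Ut U (c, t + T) = Ut U (c, t) := by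
  have h1 := (h.hasDerivAt_t hc (t + T)).comp_add_const t T
  have h2 := h.hasDerivAt_t hc t
  refine h1.unique (h2.congr_of_eventuallyEq ?_)
  exact Filter.Eventually.of_forall fun r => h.Uf_per hc r

lemma Uc_neg {c : ℝ} (hc : c ∈ Ioo (0:ℝ) 1) (t : ℝ) : Uc U (c, t) < 0 := by
  have h1 := (h.hasDerivAt_c hc t).deriv
  rw [← h1]
  exact h.mono c hc t

/-- monotonicity in the parameter -/
lemma strictAnti (t : ℝ) : StrictAntiOn (fun c => Uf U (c, t)) (Ioo 0 1) := by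
  refine strictAntiOn_of_deriv_neg (convex_Ioo 0 1) ?_ ?_
  · intro c hc
    exact (h.hasDerivAt_c hc t).continuousAt.continuousWithinAt
  · intro c hc
    rw [interior_Ioo] at hc
    rw [(h.hasDerivAt_c hc t).deriv]
    exact h.Uc_neg hc t

lemma κ_lt {c : ℝ} (hc : c ∈ Ioo (0:ℝ) 1) (t : ℝ) : κ t / 2 < Uf U (c, t) := by
  have hm : (c + 1) / 2 ∈ Ioo (0:ℝ) 1 := ⟨by linarith [hc.1], by linarith [hc.2]⟩
  have h1 : Uf U ((c + 1) / 2, t) < Uf U (c, t) :=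
    h.strictAnti t hc hm (by linarith [hc.2])
  have h2 : κ t / 2 ≤ Uf U ((c + 1) / 2, t) := by
    refine le_of_tendsto (h.lim1 t) ?_
    filter_upwards [Ioo_mem_nhdsLT hm.2] with r hr
    have hr' : r ∈ Ioo (0:ℝ) 1 := ⟨by linarith [hr.1, hm.1], hr.2⟩
    exact (h.strictAnti t hm hr' hr.1).le
  linarith

lemma κ_per (t : ℝ) : κ (t + T) = κ t := by
  have h1 := h.lim1 (t + T)
  have h2 := h.lim1 t
  have h3 : Tendsto (fun c => U c (t + T)) (𝓝[<] 1) (𝓝 (κ t / 2)) := by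
    refine h2.congr' ?_
    filter_upwards [Ioo_mem_nhdsLT (zero_lt_one' ℝ)] with r hr
    exact (h.per r hr t).symm
  have := tendsto_nhds_unique h1 h3
  linarith

/-- `κ` is smooth. -/
lemma contDiff_κ : ContDiff ℝ ∞ κ := by
  rw [contDiff_iff_contDiffAt]
  intro s₀
  have hT := h.T_pos
  have hc : (1/2:ℝ) ∈ Ioo (0:ℝ) 1 := ⟨by norm_num, by norm_num⟩
  -- a point `t` close to `s₀`
  obtain ⟨t, ht1, ht2, ht3⟩ : ∃ t, t < s₀ ∧ s₀ < t + T ∧ U (1/2) t < -L1 Γ t s₀ := by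
    have k1 : Tendsto (fun t : ℝ => -(2 / (t - s₀))) (𝓝[<] s₀) atTop := by
      have h2 : Tendsto (fun t : ℝ => s₀ - t) (𝓝[<] s₀) (𝓝[>] 0) := by
        refine tendsto_nhdsWithin_of_tendsto_nhds_of_eventually_within (s := Ioi (0:ℝ))
          (fun t : ℝ => s₀ - t) ?_ ?_
        · have h3 : Tendsto (fun t : ℝ => s₀ - t) (𝓝 s₀) (𝓝 (s₀ - s₀)) :=
            (continuous_const.sub continuous_id).tendsto s₀
          rw [sub_self] at h3
          exact h3.mono_left nhdsWithin_le_nhds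
        · filter_upwards [self_mem_nhdsWithin] with t ht
          show 0 < s₀ - t
          have : t < s₀ := ht
          linarith
      have h3 := (tendsto_inv_nhdsGT_zero.comp h2).const_mul_atTop (by norm_num : (0:ℝ) < 2)
      refine h3.congr fun t => ?_
      simp only [Function.comp]
      have : t - s₀ = -(s₀ - t) := by ring
      rw [this, div_neg, neg_neg, div_eq_mul_inv]
    have k2 : Tendsto (fun t => -P1 (el Γ) (t, s₀)) (𝓝[<] s₀) (𝓝 (-P1 (el Γ) (s₀, s₀))) :=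
      ((h.curve.nice_el.P1.hasDerivAt_left (by simpa using hT)).continuousAt.neg).mono_left
        nhdsWithin_le_nhds
    have k3 : Tendsto (fun t => -(Uf U (1/2, t))) (𝓝[<] s₀) (𝓝 (-(Uf U (1/2, s₀)))) :=
      ((h.hasDerivAt_t hc s₀).continuousAt.neg).mono_left nhdsWithin_le_nhds
    have k4 := (k1.atTop_add k2).atTop_add k3
    have e1 := k4.eventually_gt_atTop 0
    have e2 : ∀ᶠ t in 𝓝[<] s₀, t ∈ Ioo (s₀ - T) s₀ := Ioo_mem_nhdsLT (by linarith)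
    obtain ⟨t, h1, h2⟩ := (e1.and e2).exists
    refine ⟨t, h2.2, by linarith [h2.1], ?_⟩
    rw [h.curve.L1_eq h2.2.ne (by rw [abs_lt]; constructor <;> linarith [h2.1, h2.2])]
    have : Uf U (1/2, t) = U (1/2) t := rfl
    linarith
  obtain ⟨c₀, hc₀, hc₀'⟩ : ∃ c₀ ∈ Ioo (0:ℝ) 1, Uf U (c₀, t) = -L1 Γ t s₀ := by
    have e1 : ∀ᶠ c in 𝓝[>] (0:ℝ), -L1 Γ t s₀ < U c t := (h.lim0 t).eventually_gt_atTop _
    have e2 : ∀ᶠ c in 𝓝[>] (0:ℝ), c ∈ Ioo (0:ℝ) 1 := Ioo_mem_nhdsGT one_pos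
    obtain ⟨a, ha1, ha2⟩ := (e1.and e2).exists
    have hcont : ContinuousOn (fun c => Uf U (c, t)) (Ioo 0 1) := fun c hc =>
      (h.hasDerivAt_c hc t).continuousAt.continuousWithinAt
    have := isPreconnected_Ioo.intermediate_value hc ha2 hcont
    obtain ⟨c, hc, hc'⟩ := this (show -L1 Γ t s₀ ∈ Icc _ _ from ⟨ht3.le, ha1.le⟩)
    exact ⟨c, hc, hc'⟩
  set φ : ℝ → ℝ := fun c => Uf U (c, t) with hφ
  have hφs : ContDiffAt ℝ ∞ φ c₀ :=
    (h.contDiffAt (q := (c₀, t)) hc₀).comp c₀ (contDiffAt_id.prodMk contDiffAt_const)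
  have hφd : HasDerivAt φ (Uc U (c₀, t)) c₀ := h.hasDerivAt_c hc₀ t
  have hd0 := (h.Uc_neg hc₀ t).ne
  set e : ℝ ≃L[ℝ] ℝ := ContinuousLinearEquiv.unitsEquivAut ℝ (Units.mk0 _ hd0) with he
  have hfd : HasFDerivAt φ (e : ℝ →L[ℝ] ℝ) c₀ := by
    rw [hasFDerivAt_iff_hasDerivAt]
    refine hφd.congr_deriv ?_
    simp [he]
  set g := hφs.localInverse hfd (by simp) with hg
  have hgs : ContDiffAt ℝ ∞ g (φ c₀) := hφs.to_localInverse hfd (by simp)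
  have hga : g (φ c₀) = c₀ := hφs.localInverse_apply_image hfd (by simp)
  have hstrict : HasStrictFDerivAt φ (e : ℝ →L[ℝ] ℝ) c₀ := hφs.hasStrictFDerivAt' hfd (by simp)
  have hright : ∀ᶠ y in 𝓝 (φ c₀), φ (g y) = y := hstrict.eventually_right_inverse
  have hmem : ∀ᶠ y in 𝓝 (φ c₀), g y ∈ Ioo (0:ℝ) 1 := by
    have h1 : Tendsto g (𝓝 (φ c₀)) (𝓝 c₀) := by
      have := hgs.continuousAt.tendsto
      rwa [hga] at this
    exact h1.eventually (isOpen_Ioo.mem_nhds hc₀)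
  have hval : φ c₀ = -L1 Γ t s₀ := hc₀'
  rw [hval] at hgs hright hmem hga
  have hn := (h.curve.dd_pos_right ht1 ht2).ne'
  have hn' := (h.curve.dd_pos_left ht1 ht2).ne'
  have hLs : ContDiffAt ℝ ∞ (fun s => -L1 Γ t s) s₀ := by
    have k := (h.curve.contDiffAt_L1 (p := (t, s₀)) hn).comp s₀
      (f := fun s : ℝ => (t, s)) (contDiffAt_const.prodMk contDiffAt_id)
    exact k.neg
  have hLs' : ContDiffAt ℝ ∞ (fun s => L1 Γ s t) s₀ :=
    (h.curve.contDiffAt_L1 (p := (s₀, t)) hn').comp s₀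
      (f := fun s : ℝ => (s, t)) (contDiffAt_id.prodMk contDiffAt_const)
  have htend : Tendsto (fun s => -L1 Γ t s) (𝓝 s₀) (𝓝 (-L1 Γ t s₀)) := hLs.continuousAt
  have o1 : ∀ᶠ s in 𝓝 s₀, t < s := isOpen_Ioi.mem_nhds ht1
  have o2 : ∀ᶠ s in 𝓝 s₀, s < t + T := isOpen_Iio.mem_nhds ht2
  have hform : κ =ᶠ[𝓝 s₀] fun s => Uf U (g (-L1 Γ t s), s) - L1 Γ s t := by
    filter_upwards [htend.eventually hright, htend.eventually hmem, o1, o2] with s h1 h2 h3 h4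
    have h5 := h.feq _ h2 t s h3 h4 (by
      have : U (g (-L1 Γ t s)) t = -L1 Γ t s := h1
      rw [this, neg_neg])
    have h6 : Uf U (g (-L1 Γ t s), s) = U (g (-L1 Γ t s)) s := rfl
    rw [h6, h5]
    ring
  refine ContDiffAt.congr_of_eventuallyEq ?_ hform
  refine ContDiffAt.sub ?_ hLs'
  refine ContDiffAt.comp (g := Uf U) (f := fun s => (g (-L1 Γ t s), s)) s₀ ?_
    ((ContDiffAt.comp (g := g) (f := fun s => -L1 Γ t s) s₀ hgs hLs).prodMk contDiffAt_id)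
  refine h.contDiffAt ?_
  show g (-L1 Γ t s₀) ∈ Ioo (0:ℝ) 1
  rw [hga]; exact hc₀

lemma hasDerivAt_κ (t : ℝ) : HasDerivAt κ (deriv κ t) t :=
  ((h.contDiff_κ.differentiable (by simp)) t).hasDerivAt

lemma continuous_κ : Continuous κ := h.contDiff_κ.continuous

end Sys

/-- the second tangency point on a leaf -/
def nxt (Γ : ℝ → Fin 3 → ℝ) (T : ℝ) (U : ℝ → ℝ → ℝ) (c t : ℝ) : ℝ := nx Γ T t (U c t)

namespace Sys

variable (h : Sys T Γ U κ)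
include h

lemma nxt_spec (c t : ℝ) : t < nxt Γ T U c t ∧ nxt Γ T U c t < t + T ∧
    L1 Γ t (nxt Γ T U c t) = -(U c t) := h.curve.nx_spec t (U c t)

lemma nxt_per {c : ℝ} (hc : c ∈ Ioo (0:ℝ) 1) (t : ℝ) :
    nxt Γ T U c (t + T) = nxt Γ T U c t + T := by
  unfold nxt
  rw [h.per c hc, h.curve.nx_per]

lemma feq' {c : ℝ} (hc : c ∈ Ioo (0:ℝ) 1) (t : ℝ) :
    Uf U (c, nxt Γ T U c t) = κ (nxt Γ T U c t) + L1 Γ (nxt Γ T U c t) t :=
  h.feq c hc t _ (h.nxt_spec c t).1 (h.nxt_spec c t).2.1 (h.nxt_spec c t).2.2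

/-- derivative of the next tangency point along the leaf -/
def nt (Γ : ℝ → Fin 3 → ℝ) (T : ℝ) (U : ℝ → ℝ → ℝ) (c t : ℝ) : ℝ :=
  -(L11 Γ t (nxt Γ T U c t) + Ut U (c, t)) / KK Γ t (nxt Γ T U c t)

/-- derivative of the next tangency point in the parameter of the leaf -/
def nc (Γ : ℝ → Fin 3 → ℝ) (T : ℝ) (U : ℝ → ℝ → ℝ) (c t : ℝ) : ℝ :=
  -(Uc U (c, t)) / KK Γ t (nxt Γ T U c t)

lemma hasDerivAt_nxt_t {c : ℝ} (hc : c ∈ Ioo (0:ℝ) 1) (t : ℝ) :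
    HasDerivAt (fun t => nxt Γ T U c t) (nt Γ T U c t) t := by
  refine (h.curve.hasDerivAt_nx_comp (hasDerivAt_id t) (h.hasDerivAt_t hc t)).congr_deriv ?_
  unfold nt nxt
  simp only [id, mul_one]
  rfl

lemma hasDerivAt_nxt_c {c : ℝ} (hc : c ∈ Ioo (0:ℝ) 1) (t : ℝ) :
    HasDerivAt (fun c => nxt Γ T U c t) (nc Γ T U c t) c := by
  refine (h.curve.hasDerivAt_nx_comp (hasDerivAt_const c t) (h.hasDerivAt_c hc t)).congr_deriv ?_
  unfold nc nxt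
  simp only [mul_zero, zero_add]
  rfl

lemma nc_pos {c : ℝ} (hc : c ∈ Ioo (0:ℝ) 1) (t : ℝ) : 0 < nc Γ T U c t := by
  obtain ⟨a1, a2, -⟩ := h.nxt_spec c t
  exact div_pos (by linarith [h.Uc_neg hc t]) (h.curve.KK_pos_right a1 a2)

/-- the common factor in the derivatives of the functional equation -/
lemma eq_c {c : ℝ} (hc : c ∈ Ioo (0:ℝ) 1) (t : ℝ) :
    (Ut U (c, nxt Γ T U c t) - deriv κ (nxt Γ T U c t) - L11 Γ (nxt Γ T U c t) t) *
      nc Γ T U c t = -Uc U (c, nxt Γ T U c t) := by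
  obtain ⟨a1, a2, -⟩ := h.nxt_spec c t
  have hn' := (h.curve.dd_pos_left a1 a2).ne'
  have h1 := h.hasDerivAt_comp (hasDerivAt_id c) (h.hasDerivAt_nxt_c hc t) hc
  have h2 := ((h.hasDerivAt_κ (nxt Γ T U c t)).comp c (h.hasDerivAt_nxt_c hc t)).add
    (h.curve.hasDerivAt_L1_comp (h.hasDerivAt_nxt_c hc t) (hasDerivAt_const c t) hn')
  have h3 : (fun r => Uf U (id r, nxt Γ T U r t)) =ᶠ[𝓝 c]
      (κ ∘ fun r => nxt Γ T U r t) + fun r => L1 Γ (nxt Γ T U r t) t := by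
    filter_upwards [isOpen_Ioo.mem_nhds hc] with r hr
    exact h.feq' hr t
  have h4 := h1.unique (h2.congr_of_eventuallyEq h3)
  simp only [id] at h4
  linarith

lemma eq_t {c : ℝ} (hc : c ∈ Ioo (0:ℝ) 1) (t : ℝ) :
    (Ut U (c, nxt Γ T U c t) - deriv κ (nxt Γ T U c t) - L11 Γ (nxt Γ T U c t) t) *
      nt Γ T U c t = KK Γ (nxt Γ T U c t) t := by
  obtain ⟨a1, a2, -⟩ := h.nxt_spec c t
  have hn' := (h.curve.dd_pos_left a1 a2).ne'
  have h1 := h.hasDerivAt_comp (hasDerivAt_const t c) (h.hasDerivAt_nxt_t hc t) hc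
  have h2 := ((h.hasDerivAt_κ (nxt Γ T U c t)).comp t (h.hasDerivAt_nxt_t hc t)).add
    (h.curve.hasDerivAt_L1_comp (h.hasDerivAt_nxt_t hc t) (hasDerivAt_id t) hn')
  have h3 : (fun r => Uf U (c, nxt Γ T U c r)) =
      (κ ∘ fun r => nxt Γ T U c r) + fun r => L1 Γ (nxt Γ T U c r) (id r) := by
    funext r
    exact h.feq' hc r
  rw [h3] at h1
  have h4 := h1.unique h2
  simp only [id] at h4
  linarith

/-- the invariant density -/
lemma invariance {c : ℝ} (hc : c ∈ Ioo (0:ℝ) 1) (t : ℝ) :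
    Uc U (c, nxt Γ T U c t) * nt Γ T U c t * KK Γ t (nxt Γ T U c t) =
      KK Γ (nxt Γ T U c t) t * Uc U (c, t) := by
  obtain ⟨a1, a2, -⟩ := h.nxt_spec c t
  have hK := (h.curve.KK_pos_right a1 a2).ne'
  have e1 := h.eq_c hc t
  have e2 := h.eq_t hc t
  set X := Ut U (c, nxt Γ T U c t) - deriv κ (nxt Γ T U c t) - L11 Γ (nxt Γ T U c t) t
  have e3 : nc Γ T U c t * KK Γ t (nxt Γ T U c t) = -Uc U (c, t) := by
    unfold nc
    field_simp
  have e4 : Uc U (c, nxt Γ T U c t) = -(X * nc Γ T U c t) := by linarith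
  rw [e4]
  calc -(X * nc Γ T U c t) * nt Γ T U c t * KK Γ t (nxt Γ T U c t)
      = -((X * nt Γ T U c t) * (nc Γ T U c t * KK Γ t (nxt Γ T U c t))) := by ring
    _ = _ := by rw [e2, e3]; ring

lemma nt_pos {c : ℝ} (hc : c ∈ Ioo (0:ℝ) 1) (t : ℝ) : 0 < nt Γ T U c t := by
  obtain ⟨a1, a2, -⟩ := h.nxt_spec c t
  have hK := h.curve.KK_pos_right a1 a2
  have hK' := h.curve.KK_pos_left a1 a2
  have e := h.invariance hc t
  have w1 := h.Uc_neg hc t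
  have w2 := h.Uc_neg hc (nxt Γ T U c t)
  by_contra hneg
  push Not at hneg
  have k1 : 0 ≤ Uc U (c, nxt Γ T U c t) * nt Γ T U c t := mul_nonneg_of_nonpos_of_nonpos w2.le hneg
  have k2 : 0 ≤ Uc U (c, nxt Γ T U c t) * nt Γ T U c t * KK Γ t (nxt Γ T U c t) :=
    mul_nonneg k1 hK.le
  have k3 : KK Γ (nxt Γ T U c t) t * Uc U (c, t) < 0 := mul_neg_of_pos_of_neg hK' w1
  linarith

end Sys

end Pool.Agent.MP_ae5b4e_an_hopf
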