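import Mathlib
import Pool.Agent.Lib.MP_ae5b4e_an_hopf.System
import Pool.Agent.Lib.MP_ae5b4e_an_total.Leaf

/-!
The mean of `κ` vanishes.
-/

noncomputable section

namespace Pool.Agent.MP_ae5b4e_an_hopf

open Set Filter Topology Real MeasureTheory intervalIntegral
open scoped ContDiff
open Pool.Agent.MP_ae5b4e_an_total (integral_comp_tau surjective_of_shift)

variable {Γ : ℝ → Fin 3 → ℝ} {T : ℝ} {U : ℝ → ℝ → ℝ} {κ : ℝ → ℝ}

namespace Sys

variable (h : Sys T Γ U κ)
include h

lemma continuous_nxt {c : ℝ} (hc : c ∈ Ioo (0:ℝ) 1) : Continuous (nxt Γ T U c) :=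
  continuous_iff_continuousAt.2 fun t => (h.hasDerivAt_nxt_t hc t).continuousAt

lemma cont_leaf {g : ℝ × ℝ → ℝ} (hg : ContinuousOn g (Rg T)) {c : ℝ} (hc : c ∈ Ioo (0:ℝ) 1) :
    Continuous fun t => g (t, nxt Γ T U c t) :=
  hg.comp_continuous (continuous_id.prodMk (h.continuous_nxt hc))
    fun t => ⟨(h.nxt_spec c t).1, (h.nxt_spec c t).2.1⟩

lemma continuous_Uf {c : ℝ} (hc : c ∈ Ioo (0:ℝ) 1) : Continuous fun t => Uf U (c, t) :=
  continuous_slice h.continuousOn_Uf hc
lemma continuous_Ut {c : ℝ} (hc : c ∈ Ioo (0:ℝ) 1) : Continuous fun t => Ut U (c, t) :=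
  continuous_slice h.continuousOn_Ut hc
lemma continuous_Uc {c : ℝ} (hc : c ∈ Ioo (0:ℝ) 1) : Continuous fun t => Uc U (c, t) :=
  continuous_slice h.continuousOn_Uc hc

lemma continuous_nt {c : ℝ} (hc : c ∈ Ioo (0:ℝ) 1) : Continuous (nt Γ T U c) := by
  have k1 := h.cont_leaf (g := fun p => L11 Γ p.1 p.2) h.curve.cont_L11 hc
  have k2 := h.cont_leaf (g := fun p => KK Γ p.1 p.2) h.curve.cont_KK hc
  have k3 := h.continuous_Ut hc
  exact ((k1.add k3).neg).div₀ k2 fun t =>
    (h.curve.KK_pos_right (h.nxt_spec c t).1 (h.nxt_spec c t).2.1).ne'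

lemma nxt_T {c : ℝ} (hc : c ∈ Ioo (0:ℝ) 1) : nxt Γ T U c T = nxt Γ T U c 0 + T := by
  simpa using h.nxt_per hc 0

lemma integral_nt {c : ℝ} (hc : c ∈ Ioo (0:ℝ) 1) : ∫ t in (0)..T, nt Γ T U c t = T := by
  rw [intervalIntegral.integral_eq_sub_of_hasDerivAt (fun t _ => h.hasDerivAt_nxt_t hc t)
    ((h.continuous_nt hc).intervalIntegrable _ _), h.nxt_T hc]
  ring

/-- leaves with a small parameter are close to the curve -/
lemma exists_close {ε : ℝ} (hε : 0 < ε) (hε' : ε < T) :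
    ∃ c ∈ Ioo (0:ℝ) 1, ∀ t, nxt Γ T U c t < t + ε := by
  have hT := h.T_pos
  -- bound for the coordinates at distance `ε`
  have hcont : Continuous fun t => -L1 Γ t (t + ε) :=
    (cont_slice (g := fun p => L1 Γ p.1 p.2) h.curve.cont_L1 ⟨hε, hε'⟩).neg
  obtain ⟨M, hM⟩ := (isCompact_Icc (a := (0:ℝ)) (b := T)).exists_bound_of_continuousOn
    hcont.continuousOn
  have hM' : ∀ t, -L1 Γ t (t + ε) ≤ M := by
    intro t
    have hper : Function.Periodic (fun t => -L1 Γ t (t + ε)) T := by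
      intro t
      have e : t + T + ε = (t + ε) + T := by ring
      simp only [e, h.curve.L1_per_left, h.curve.L1_per_right]
    obtain ⟨z, hz, hz'⟩ := hper.exists_mem_Ico₀ hT t
    rw [hz']
    exact (le_abs_self _).trans (hM z ⟨hz.1, hz.2.le⟩)
  -- a leaf with larger coordinates
  set cn : ℕ → ℝ := fun n => 1 / ((n:ℝ) + 2) with hcn
  have hcn1 : ∀ n, cn n ∈ Ioo (0:ℝ) 1 := by
    intro n
    simp only [hcn]
    have : (0:ℝ) ≤ n := n.cast_nonneg
    constructor
    · positivity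
    · rw [div_lt_one (by positivity)]; linarith
  have hcn0 : Tendsto cn atTop (𝓝[>] 0) := by
    refine tendsto_nhdsWithin_of_tendsto_nhds_of_eventually_within _ ?_
      (Eventually.of_forall fun n => (hcn1 n).1)
    have k : Tendsto (fun n : ℕ => 1 / (((n + 1 : ℕ) : ℝ) + 1)) atTop (𝓝 0) :=
      (tendsto_one_div_add_atTop_nhds_zero_nat (𝕜 := ℝ)).comp (tendsto_add_atTop_nat 1)
    refine k.congr fun n => ?_
    simp only [hcn]
    push_cast
    ring_nf
  have hanti : ∀ m n, m ≤ n → cn n ≤ cn m := by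
    intro m n hmn
    simp only [hcn]
    have : (m:ℝ) ≤ n := by exact_mod_cast hmn
    have : (0:ℝ) ≤ m := m.cast_nonneg
    exact one_div_le_one_div_of_le (by positivity) (by linarith)
  set V : ℕ → Set ℝ := fun n => {t | M < Uf U (cn n, t)} with hV
  have hVo : ∀ n, IsOpen (V n) := fun n => isOpen_lt continuous_const (h.continuous_Uf (hcn1 n))
  have hVmono : ∀ m n, m ≤ n → V m ⊆ V n := by
    intro m n hmn t ht
    have h1 : M < Uf U (cn m, t) := ht
    have h2 : Uf U (cn m, t) ≤ Uf U (cn n, t) :=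
      (h.strictAnti t).antitoneOn (hcn1 n) (hcn1 m) (hanti m n hmn)
    exact h1.trans_le h2
  have hcov : Icc 0 T ⊆ ⋃ n, V n := by
    intro t _
    have k1 : ∀ᶠ n in atTop, M < U (cn n) t := ((h.lim0 t).comp hcn0).eventually_gt_atTop M
    obtain ⟨n, hn⟩ := k1.exists
    exact mem_iUnion.2 ⟨n, hn⟩
  obtain ⟨n, hn⟩ := (isCompact_Icc (a := (0:ℝ)) (b := T)).elim_directed_cover V hVo hcov
    (fun m n => ⟨max m n, hVmono _ _ (le_max_left _ _), hVmono _ _ (le_max_right _ _)⟩)
  refine ⟨cn n, hcn1 n, fun t => ?_⟩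
  have hper : Function.Periodic (fun t => Uf U (cn n, t)) T := h.Uf_per (hcn1 n)
  obtain ⟨z, hz, hz'⟩ := hper.exists_mem_Ico₀ hT t
  have k1 : M < Uf U (cn n, t) := by
    rw [hz']
    exact hn ⟨hz.1, hz.2.le⟩
  obtain ⟨a1, a2, a3⟩ := h.nxt_spec (cn n) t
  refine ((h.curve.strictMono_L1 t).lt_iff_lt ⟨a1, a2⟩ ⟨by linarith, by linarith⟩).1 ?_
  show L1 Γ t _ < L1 Γ t (t + ε)
  rw [a3]
  have k2 := hM' t
  have k3 : Uf U (cn n, t) = U (cn n) t := rfl
  linarith

/-- The mean of `κ` vanishes. -/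
theorem mean_zero : ∫ t in (0)..T, κ t = 0 := by
  have hT := h.T_pos
  have ii : ∀ {g : ℝ → ℝ}, Continuous g → IntervalIntegrable g volume 0 T :=
    fun hg => hg.intervalIntegrable _ _
  -- the smooth function that measures the defect
  set E : ℝ × ℝ → ℝ := fun p => (P2 (el Γ) (p.1, p.2) - P1 (el Γ) (p.2, p.1)) -
    deriv (Wr Γ) p.2 / Wr Γ p.2 / 3 with hE
  have hWs : ContDiff ℝ ∞ (deriv (Wr Γ)) := (contDiff_infty_iff_deriv.1 h.curve.contDiff_Wr).2
  have hWp : ∀ y, deriv (Wr Γ) (y + T) = deriv (Wr Γ) y := by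
    intro y
    have h1 : (fun s => Wr Γ (s + T)) = Wr Γ := funext h.curve.Wr_per
    have h2 := congrFun (congrArg deriv h1) y
    rwa [deriv_comp_add_const] at h2
  have hq : ContDiff ℝ ∞ fun y => deriv (Wr Γ) y / Wr Γ y / 3 :=
    (hWs.div h.curve.contDiff_Wr fun y => (h.curve.Wr_pos y).ne').div_const 3
  have nE : Nice T E := by
    refine (h.curve.nice_el.P2.sub h.curve.nice_el.P1.swap).sub ⟨?_, ?_⟩
    · exact (hq.comp contDiff_snd).contDiffOn
    · intro p
      simp only [Prod.snd_add, hWp, h.curve.Wr_per]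
  have hE0 : ∀ x, E (x, x) = 0 := by
    intro x
    simp only [hE]
    rw [h.curve.el_P2, h.curve.el_P1]
    ring
  obtain ⟨C, hC0, hC⟩ := nE.lip_left hT hE0
  -- the identity on each leaf
  have key : ∀ c ∈ Ioo (0:ℝ) 1, ∫ t in (0)..T, κ t =
      ∫ t in (0)..T, E (t, nxt Γ T U c t) * nt Γ T U c t := by
    intro c hc
    have cU := h.continuous_Uf hc
    have cκ := h.continuous_κ
    have cnt := h.continuous_nt hc
    have cL1 := h.cont_leaf (g := fun p => L1 Γ p.1 p.2) h.curve.cont_L1 hc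
    have cL1' := h.cont_leaf (g := fun p => L1 Γ p.2 p.1) h.curve.cont_L1' hc
    have cL2 := h.cont_leaf (g := fun p => L2 Γ p.1 p.2) h.curve.cont_L2 hc
    have h1 := integral_comp_tau (F := fun t => Uf U (c, t) - κ t) (h.hasDerivAt_nxt_t hc) cnt
      (h.nxt_T hc) (cU.sub cκ) (fun t => by simp only [h.Uf_per hc, h.κ_per])
    have h2 : ∫ t in (0)..T, (L1 Γ t (nxt Γ T U c t) + L2 Γ t (nxt Γ T U c t) * nt Γ T U c t) =
        0 := by
      have hd : ∀ t ∈ uIcc 0 T, HasDerivAt (fun t => log (dd Γ t (nxt Γ T U c t)))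
          (L1 Γ t (nxt Γ T U c t) + L2 Γ t (nxt Γ T U c t) * nt Γ T U c t) t := by
        intro t _
        obtain ⟨a1, a2, -⟩ := h.nxt_spec c t
        refine (h.curve.hasDerivAt_log_comp (hasDerivAt_id t) (h.hasDerivAt_nxt_t hc t)
          (h.curve.dd_pos_right a1 a2).ne').congr_deriv ?_
        simp
      rw [intervalIntegral.integral_eq_sub_of_hasDerivAt hd (ii (cL1.add (cL2.mul cnt)))]
      have e1 : dd Γ T (nxt Γ T U c T) = dd Γ 0 (nxt Γ T U c 0) := by
        rw [h.nxt_T hc, h.curve.dd_per_right]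
        have := h.curve.dd_per_left 0 (nxt Γ T U c 0)
        rw [zero_add] at this
        exact this
      rw [e1, sub_self]
    have h3 : ∫ t in (0)..T, (deriv (Wr Γ) (nxt Γ T U c t) / Wr Γ (nxt Γ T U c t) / 3) *
        nt Γ T U c t = 0 := by
      have k1 := integral_comp_tau (F := fun y => deriv (Wr Γ) y / Wr Γ y / 3)
        (h.hasDerivAt_nxt_t hc) cnt (h.nxt_T hc) hq.continuous
        (fun t => by simp only [hWp, h.curve.Wr_per])
      rw [k1]
      have hd : ∀ t ∈ uIcc 0 T, HasDerivAt (fun t => log (Wr Γ t) / 3)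
          (deriv (Wr Γ) t / Wr Γ t / 3) t := by
        intro t _
        exact ((h.curve.hasDerivAt_Wr t).log (h.curve.Wr_pos t).ne').div_const 3
      rw [intervalIntegral.integral_eq_sub_of_hasDerivAt hd (ii hq.continuous)]
      have : Wr Γ T = Wr Γ 0 := by simpa using h.curve.Wr_per 0
      rw [this, sub_self]
    -- collect
    have cW : Continuous fun t => (deriv (Wr Γ) (nxt Γ T U c t) / Wr Γ (nxt Γ T U c t) / 3) *
        nt Γ T U c t := (hq.continuous.comp (h.continuous_nxt hc)).mul cnt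
    have cA : Continuous fun t => L1 Γ t (nxt Γ T U c t) + L2 Γ t (nxt Γ T U c t) *
        nt Γ T U c t := (cL1.add (cL2.mul cnt))
    have cB : Continuous fun t => (Uf U (c, nxt Γ T U c t) - κ (nxt Γ T U c t)) * nt Γ T U c t :=
      ((cU.comp (h.continuous_nxt hc)).sub (cκ.comp (h.continuous_nxt hc))).mul cnt
    have e1 : ∫ t in (0)..T, E (t, nxt Γ T U c t) * nt Γ T U c t =
        ∫ t in (0)..T, ((Uf U (c, t) - (Uf U (c, nxt Γ T U c t) - κ (nxt Γ T U c t)) *
            nt Γ T U c t) +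
          ((L1 Γ t (nxt Γ T U c t) + L2 Γ t (nxt Γ T U c t) * nt Γ T U c t) -
          (deriv (Wr Γ) (nxt Γ T U c t) / Wr Γ (nxt Γ T U c t) / 3) * nt Γ T U c t)) := by
      refine intervalIntegral.integral_congr fun t _ => ?_
      obtain ⟨a1, a2, a3⟩ := h.nxt_spec c t
      have f1 := h.feq' hc t
      have f2 : Uf U (c, t) = U c t := rfl
      have f3 := h.curve.L2_eq a1.ne (by rw [abs_lt]; constructor <;> linarith)
      have f4 := h.curve.L1_eq a1.ne' (by rw [abs_lt]; constructor <;> linarith)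
      have hne : t - nxt Γ T U c t ≠ 0 := by
        have : t - nxt Γ T U c t < 0 := by linarith
        exact this.ne
      have f5 : L2 Γ t (nxt Γ T U c t) - L1 Γ (nxt Γ T U c t) t =
          P2 (el Γ) (t, nxt Γ T U c t) - P1 (el Γ) (nxt Γ T U c t, t) := by
        rw [f3, f4]
        have e : nxt Γ T U c t - t = -(t - nxt Γ T U c t) := by ring
        rw [e, div_neg]
        ring
      simp only [hE]
      rw [← f5, f1, f2, a3]
      ring
    have i1 : IntervalIntegrable (fun t => Uf U (c, t) - (Uf U (c, nxt Γ T U c t) -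
      κ (nxt Γ T U c t)) * nt Γ T U c t) volume 0 T := ii (cU.sub cB)
    have i2 : IntervalIntegrable (fun t => (L1 Γ t (nxt Γ T U c t) + L2 Γ t (nxt Γ T U c t) *
      nt Γ T U c t) - (deriv (Wr Γ) (nxt Γ T U c t) / Wr Γ (nxt Γ T U c t) / 3) *
      nt Γ T U c t) volume 0 T := ii (cA.sub cW)
    rw [e1, intervalIntegral.integral_add i1 i2,
      intervalIntegral.integral_sub (ii cU) (ii cB), intervalIntegral.integral_sub (ii cA) (ii cW),
      h2, h1, intervalIntegral.integral_sub (ii cU) (ii cκ), h3]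
    ring
  -- the limit
  have hle : ∀ ε, 0 < ε → ε < T / 2 → |∫ t in (0)..T, κ t| ≤ C * ε * T := by
    intro ε h1 h2
    obtain ⟨c, hc, hclose⟩ := h.exists_close h1 (by linarith)
    rw [key c hc]
    have cnt := h.continuous_nt hc
    have b : ∀ t, ‖E (t, nxt Γ T U c t) * nt Γ T U c t‖ ≤ C * ε * nt Γ T U c t := by
      intro t
      obtain ⟨a1, a2, -⟩ := h.nxt_spec c t
      have k0 := hclose t
      have k1 : |t - nxt Γ T U c t| ≤ ε := by
        rw [abs_le]; constructor <;> linarith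
      have k2 := hC t (nxt Γ T U c t) (by linarith)
      have k3 := (h.nt_pos hc t).le
      rw [norm_mul, norm_eq_abs, norm_eq_abs, abs_of_nonneg k3]
      refine mul_le_mul_of_nonneg_right ?_ k3
      exact k2.trans (mul_le_mul_of_nonneg_left k1 hC0)
    have k := intervalIntegral.norm_integral_le_of_norm_le hT.le
      (Eventually.of_forall fun t _ => b t) (ii (continuous_const.mul cnt))
    rw [intervalIntegral.integral_const_mul, h.integral_nt hc] at k
    exact k
  have hlim : Tendsto (fun ε : ℝ => C * ε * T) (𝓝[>] 0) (𝓝 0) := by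
    have : Tendsto (fun ε : ℝ => C * ε * T) (𝓝 0) (𝓝 (C * 0 * T)) :=
      Continuous.tendsto (by fun_prop) 0
    rw [mul_zero, zero_mul] at this
    exact this.mono_left nhdsWithin_le_nhds
  have h0 : |∫ t in (0)..T, κ t| ≤ 0 := by
    refine ge_of_tendsto hlim ?_
    filter_upwards [Ioo_mem_nhdsGT (show (0:ℝ) < T / 2 by positivity)] with ε hε
    exact hle ε hε.1 hε.2
  exact abs_eq_zero.1 (le_antisymm h0 (abs_nonneg _))

end Sys

end Pool.Agent.MP_ae5b4e_an_hopf
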