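import Mathlib
import Pool.Agent.Lib.MP_ae5b4e_an_hopf.Mean
import Pool.Agent.Lib.MP_ae5b4e_an_hopf.Circle

/-!
The Hopf type inequality on the leaves and its integration over all the leaves, for normalized
systems (`κ = 0`).
-/

noncomputable section

namespace Pool.Agent.MP_ae5b4e_an_hopf

open Set Filter Topology Real MeasureTheory intervalIntegral
open scoped ContDiff
open Pool.Agent.MP_ae5b4e_an_total (integral_comp_tau surjective_of_shift)

variable {Γ : ℝ → Fin 3 → ℝ} {T : ℝ} {U : ℝ → ℝ → ℝ}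

lemma cont_graph {g : ℝ × ℝ → ℝ} (hg : ContinuousOn g (Rg T)) {m : ℝ → ℝ} (hm : Continuous m)
    (hmem : ∀ t, (t, m t) ∈ Rg T) : Continuous fun t => g (t, m t) :=
  hg.comp_continuous (continuous_id.prodMk hm) hmem

/-- the mirror of the next tangency point -/
def mxt (Γ : ℝ → Fin 3 → ℝ) (T : ℝ) (U : ℝ → ℝ → ℝ) (c t : ℝ) : ℝ := nx Γ T t (-(U c t))

namespace Sys

/-- the density on the leaves -/
def RR (Γ : ℝ → Fin 3 → ℝ) (T : ℝ) (U : ℝ → ℝ → ℝ) (c t : ℝ) : ℝ :=
  Idens Γ t (nxt Γ T U c t) * (-Uc U (c, t)) / KK Γ t (nxt Γ T U c t)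

/-- the mirror density -/
def RM (Γ : ℝ → Fin 3 → ℝ) (T : ℝ) (U : ℝ → ℝ → ℝ) (c t : ℝ) : ℝ :=
  Idens Γ t (mxt Γ T U c t) * (-Uc U (c, t)) / KK Γ t (mxt Γ T U c t)

/-- the defect -/
def df (Γ : ℝ → Fin 3 → ℝ) (T : ℝ) (U : ℝ → ℝ → ℝ) (c t : ℝ) : ℝ :=
  KK Γ (nxt Γ T U c t) t * (Uc U (c, t) - Uc U (c, nxt Γ T U c t)) ^ 2 /
    (-Uc U (c, nxt Γ T U c t))

variable (h : Sys T Γ U fun _ => 0)
include h

lemma mxt_spec (c t : ℝ) : t < mxt Γ T U c t ∧ mxt Γ T U c t < t + T ∧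
    L1 Γ t (mxt Γ T U c t) = U c t := by
  have := h.curve.nx_spec t (-(U c t))
  rwa [neg_neg] at this

lemma U_pos {c : ℝ} (hc : c ∈ Ioo (0:ℝ) 1) (t : ℝ) : 0 < U c t := by
  have := h.κ_lt hc t
  rw [zero_div] at this
  exact this

lemma nxt_lt_mxt {c : ℝ} (hc : c ∈ Ioo (0:ℝ) 1) (t : ℝ) : nxt Γ T U c t < mxt Γ T U c t :=
  h.curve.nx_strictAnti t (by linarith [h.U_pos hc t])

/-- the mirror of the next point is the previous one -/
lemma mxt_nxt {c : ℝ} (hc : c ∈ Ioo (0:ℝ) 1) (t : ℝ) :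
    mxt Γ T U c (nxt Γ T U c t) = t + T := by
  obtain ⟨a1, a2, -⟩ := h.nxt_spec c t
  refine h.curve.nx_unique (by linarith) (by linarith) ?_
  rw [h.curve.L1_per_right, neg_neg]
  have := h.feq' hc t
  rw [zero_add] at this
  exact this.symm

lemma mxt_per {c : ℝ} (hc : c ∈ Ioo (0:ℝ) 1) (t : ℝ) :
    mxt Γ T U c (t + T) = mxt Γ T U c t + T := by
  unfold mxt
  rw [h.per c hc, h.curve.nx_per]

lemma continuous_mxt {c : ℝ} (hc : c ∈ Ioo (0:ℝ) 1) : Continuous (mxt Γ T U c) := by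
  have k : Continuous fun t : ℝ => ((t, -(Uf U (c, t))) : ℝ × ℝ) :=
    continuous_id.prodMk (h.continuous_Uf hc).neg
  exact h.curve.contDiff_nx.continuous.comp k

/-- pointwise identity behind the Hopf inequality -/
lemma pointwise {c : ℝ} (hc : c ∈ Ioo (0:ℝ) 1) (t : ℝ) :
    RR Γ T U c t = Ut U (c, t) * Uc U (c, t) -
      (Ut U (c, nxt Γ T U c t) * Uc U (c, nxt Γ T U c t)) * nt Γ T U c t - df Γ T U c t := by
  obtain ⟨a1, a2, -⟩ := h.nxt_spec c t
  have hK := (h.curve.KK_pos_right a1 a2).ne'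
  have hK' := (h.curve.KK_pos_left a1 a2).ne'
  have hn := (h.nt_pos hc t).ne'
  have w1 := (h.Uc_neg hc t).ne
  have w2 := (h.Uc_neg hc (nxt Γ T U c t)).ne
  have e1 := h.eq_t hc t
  have e2 := h.invariance hc t
  have e3 : nt Γ T U c t * KK Γ t (nxt Γ T U c t) =
      -(L11 Γ t (nxt Γ T U c t) + Ut U (c, t)) := by
    unfold nt; field_simp
  have e4 : deriv (fun _ : ℝ => (0:ℝ)) (nxt Γ T U c t) = 0 := by simp
  rw [e4, sub_zero] at e1
  unfold RR df Idens
  set s := nxt Γ T U c t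
  set n := nt Γ T U c t
  set K := KK Γ t s
  set K' := KK Γ s t
  set p := Ut U (c, t)
  set q := Ut U (c, s)
  set w := Uc U (c, t)
  set v := Uc U (c, s)
  have f1 : L11 Γ t s = -p - n * K := by linarith
  have f2 : L11 Γ s t * n = q * n - K' := by linarith
  have f3 : K' = v * n * K / w := by field_simp; linarith
  have f4 : L11 Γ s t = q - K' / n := by
    field_simp
    linarith
  rw [f1, f4, f3]
  field_simp
  ring

lemma continuous_df {c : ℝ} (hc : c ∈ Ioo (0:ℝ) 1) : Continuous (df Γ T U c) := by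
  have k1 := h.cont_leaf (g := fun p => KK Γ p.2 p.1) h.curve.cont_KK' hc
  have k2 := h.continuous_Uc hc
  have k3 := k2.comp (h.continuous_nxt hc)
  exact (k1.mul ((k2.sub k3).pow 2)).div₀ k3.neg fun t => by
    have := h.Uc_neg hc (nxt Γ T U c t)
    exact (by linarith : 0 < -Uc U (c, nxt Γ T U c t)).ne'

lemma df_nonneg {c : ℝ} (hc : c ∈ Ioo (0:ℝ) 1) (t : ℝ) : 0 ≤ df Γ T U c t := by
  obtain ⟨a1, a2, -⟩ := h.nxt_spec c t
  have hK' := h.curve.KK_pos_left a1 a2
  have w2 : 0 < -Uc U (c, nxt Γ T U c t) := by linarith [h.Uc_neg hc (nxt Γ T U c t)]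
  unfold df
  positivity

/-- The Hopf identity on a leaf. -/
theorem leaf_identity {c : ℝ} (hc : c ∈ Ioo (0:ℝ) 1) :
    ∫ t in (0)..T, RR Γ T U c t = -∫ t in (0)..T, df Γ T U c t := by
  have ii : ∀ {g : ℝ → ℝ}, Continuous g → IntervalIntegrable g volume 0 T :=
    fun hg => hg.intervalIntegrable _ _
  have cp := (h.continuous_Ut hc).mul (h.continuous_Uc hc)
  have cq : Continuous fun t => (Ut U (c, nxt Γ T U c t) * Uc U (c, nxt Γ T U c t)) *
      nt Γ T U c t := (cp.comp (h.continuous_nxt hc)).mul (h.continuous_nt hc)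
  have h1 := integral_comp_tau (F := fun t => Ut U (c, t) * Uc U (c, t)) (h.hasDerivAt_nxt_t hc)
    (h.continuous_nt hc) (h.nxt_T hc) cp (fun t => by simp only [h.Ut_per hc, h.Uc_per hc])
  rw [intervalIntegral.integral_congr (fun t _ => h.pointwise hc t)]
  have i1 : IntervalIntegrable (fun t => Ut U (c, t) * Uc U (c, t) -
      (Ut U (c, nxt Γ T U c t) * Uc U (c, nxt Γ T U c t)) * nt Γ T U c t) volume 0 T :=
    ii (cp.sub cq)
  have i2 : IntervalIntegrable (fun t => Ut U (c, t) * Uc U (c, t)) volume 0 T := ii cp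
  rw [intervalIntegral.integral_sub i1 (ii (h.continuous_df hc)),
    intervalIntegral.integral_sub i2 (ii cq), h1, sub_self, zero_sub]

/-- The mirror density has the same integral. -/
theorem mirror_identity {c : ℝ} (hc : c ∈ Ioo (0:ℝ) 1) :
    ∫ t in (0)..T, RM Γ T U c t = ∫ t in (0)..T, RR Γ T U c t := by
  have cm : Continuous (mxt Γ T U c) := h.continuous_mxt hc
  have hmem : ∀ t, (t, mxt Γ T U c t) ∈ Rg T := fun t => ⟨(h.mxt_spec c t).1, (h.mxt_spec c t).2.1⟩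
  have cR : Continuous (RM Γ T U c) := by
    have k1 := cont_graph (g := fun p => Idens Γ p.1 p.2) h.curve.cont_Idens cm hmem
    have k2 := cont_graph (g := fun p => KK Γ p.1 p.2) h.curve.cont_KK cm hmem
    exact (k1.mul (h.continuous_Uc hc).neg).div₀ k2 fun t =>
      (h.curve.KK_pos_right (h.mxt_spec c t).1 (h.mxt_spec c t).2.1).ne'
  have hper : ∀ t, RM Γ T U c (t + T) = RM Γ T U c t := by
    intro t
    unfold RM
    rw [h.mxt_per hc, h.Uc_per hc, h.curve.Idens_per_left, h.curve.Idens_per_right,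
      h.curve.KK_per_left, h.curve.KK_per_right]
  rw [← integral_comp_tau (h.hasDerivAt_nxt_t hc) (h.continuous_nt hc) (h.nxt_T hc) cR hper]
  refine intervalIntegral.integral_congr fun t _ => ?_
  obtain ⟨a1, a2, -⟩ := h.nxt_spec c t
  have hK := (h.curve.KK_pos_right a1 a2).ne'
  have hK' := (h.curve.KK_pos_left a1 a2).ne'
  have e2 := h.invariance hc t
  unfold RM RR
  rw [h.mxt_nxt hc, h.curve.Idens_per_right, h.curve.KK_per_right, Idens_swap]
  field_simp
  linear_combination (-Idens Γ t (nxt Γ T U c t)) * e2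

end Sys

end Pool.Agent.MP_ae5b4e_an_hopf
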