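import Mathlib
import Pool.Agent.Lib.MP_ae5b4e_an_hopf.Hopf

/-!
Integration of the Hopf inequality over all the leaves, and the rigidity of normalized systems.
-/

noncomputable section

namespace Pool.Agent.MP_ae5b4e_an_hopf

open Set Filter Topology Real MeasureTheory intervalIntegral
open scoped ContDiff
open Pool.Agent.MP_ae5b4e_an_total (integral_comp_tau surjective_of_shift)

variable {Γ : ℝ → Fin 3 → ℝ} {T : ℝ} {U : ℝ → ℝ → ℝ}

namespace Curve

variable (h : Curve T Γ)
include h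

omit h in
lemma cont_line {g : ℝ × ℝ → ℝ} (hg : ContinuousOn g (Rg T)) (t : ℝ) :
    ContinuousOn (fun x => g (t, x)) (Ioo t (t + T)) :=
  hg.comp (f := fun x : ℝ => (t, x)) (by fun_prop) fun _ hx => ⟨hx.1, hx.2⟩

lemma ii_line {g : ℝ × ℝ → ℝ} (hg : ContinuousOn g (Rg T)) {t a b : ℝ} (ha : a ∈ Ioo t (t + T))
    (hb : b ∈ Ioo t (t + T)) : IntervalIntegrable (fun x => g (t, x)) volume a b := by
  refine ContinuousOn.intervalIntegrable ((cont_line hg t).mono ?_)
  exact (convex_Ioo t (t + T)).ordConnected.uIcc_subset ha hb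

/-- derivative of the integral with respect to the end point -/
lemma hasDerivAt_prim {g : ℝ × ℝ → ℝ} (hg : ContinuousOn g (Rg T)) {t a x : ℝ}
    (ha : a ∈ Ioo t (t + T)) (hx : x ∈ Ioo t (t + T)) :
    HasDerivAt (fun x => ∫ y in a..x, g (t, y)) (g (t, x)) x := by
  refine intervalIntegral.integral_hasDerivAt_right (h.ii_line hg ha hx) ?_ ?_
  · exact ((cont_line hg t).stronglyMeasurableAtFilter isOpen_Ioo x hx)
  · exact (cont_line hg t).continuousAt (isOpen_Ioo.mem_nhds hx)

omit h in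
/-- continuity in `t` of integrals between continuous end points -/
lemma cont_int {g : ℝ × ℝ → ℝ} (hg : ContinuousOn g (Rg T)) {a b : ℝ → ℝ}
    (ha : Continuous a) (hb : Continuous b) (ha' : ∀ t, a t ∈ Ioo t (t + T))
    (hb' : ∀ t, b t ∈ Ioo t (t + T)) :
    Continuous fun t => ∫ x in (a t)..(b t), g (t, x) := by
  set pr : ℝ → ℝ := fun r => max 0 (min r 1) with hpr
  have hprc : Continuous pr := by simp only [hpr]; fun_prop
  have hprm : ∀ r, pr r ∈ Icc (0:ℝ) 1 := by
    intro r
    exact ⟨le_max_left _ _, max_le zero_le_one (min_le_right _ _)⟩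
  have hmem : ∀ t r, (t, a t + pr r * (b t - a t)) ∈ Rg T := by
    intro t r
    have h1 := hprm r
    have h2 := ha' t
    have h3 := hb' t
    have e : a t + pr r * (b t - a t) = (1 - pr r) * a t + pr r * b t := by ring
    have h4 : a t + pr r * (b t - a t) ∈ Ioo t (t + T) := by
      rw [e]
      exact (convex_Ioo t (t + T)) h2 h3 (by linarith [h1.2]) h1.1 (by ring)
    exact ⟨h4.1, h4.2⟩
  have hc : Continuous fun t => ∫ r in (0:ℝ)..1, g (t, a t + pr r * (b t - a t)) := by
    refine intervalIntegral.continuous_parametric_intervalIntegral_of_continuous' ?_ 0 1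
    refine hg.comp_continuous (f := fun q : ℝ × ℝ => (q.1, a q.1 + pr q.2 * (b q.1 - a q.1)))
      ?_ fun q => hmem q.1 q.2
    have k1 : Continuous fun q : ℝ × ℝ => a q.1 := ha.comp continuous_fst
    have k2 : Continuous fun q : ℝ × ℝ => b q.1 := hb.comp continuous_fst
    have k3 : Continuous fun q : ℝ × ℝ => pr q.2 := hprc.comp continuous_snd
    exact continuous_fst.prodMk (k1.add (k3.mul (k2.sub k1)))
  have he : (fun t => ∫ x in (a t)..(b t), g (t, x)) =
      fun t => (b t - a t) * ∫ r in (0:ℝ)..1, g (t, a t + pr r * (b t - a t)) := by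
    funext t
    have e1 : ∫ r in (0:ℝ)..1, g (t, a t + pr r * (b t - a t)) =
        ∫ r in (0:ℝ)..1, (fun x => g (t, x)) (a t + (b t - a t) * r) := by
      refine intervalIntegral.integral_congr fun r hr => ?_
      rw [uIcc_of_le zero_le_one] at hr
      have : pr r = r := by
        simp only [hpr]
        rw [min_eq_left hr.2, max_eq_right hr.1]
      simp only [this]
      rw [mul_comm]
    rw [e1]
    by_cases hab : b t - a t = 0
    · have : a t = b t := by linarith
      rw [hab, zero_mul, this, intervalIntegral.integral_same]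
    · rw [intervalIntegral.integral_comp_add_mul (fun x => g (t, x)) hab (a t)]
      have k : a t + (b t - a t) * 0 = a t := by ring
      have k' : a t + (b t - a t) * 1 = b t := by ring
      rw [k, k', smul_eq_mul, ← mul_assoc, mul_inv_cancel₀ hab, one_mul]
  rw [he]
  exact (hb.sub ha).mul hc

end Curve

namespace Sys

/-- the integral of the density between a leaf and its mirror, at a fixed `t` -/
def Yt (Γ : ℝ → Fin 3 → ℝ) (T : ℝ) (U : ℝ → ℝ → ℝ) (c t : ℝ) : ℝ :=
  ∫ x in (nxt Γ T U c t)..(mxt Γ T U c t), Idens Γ t x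

variable (h : Sys T Γ U fun _ => 0)
include h

lemma nxt_mem (c t : ℝ) : nxt Γ T U c t ∈ Ioo t (t + T) :=
  ⟨(h.nxt_spec c t).1, (h.nxt_spec c t).2.1⟩
lemma mxt_mem (c t : ℝ) : mxt Γ T U c t ∈ Ioo t (t + T) :=
  ⟨(h.mxt_spec c t).1, (h.mxt_spec c t).2.1⟩

lemma continuous_Yt {c : ℝ} (hc : c ∈ Ioo (0:ℝ) 1) : Continuous (Yt Γ T U c) :=
  Curve.cont_int (g := fun p => Idens Γ p.1 p.2) h.curve.cont_Idens (h.continuous_nxt hc)
    (h.continuous_mxt hc) (h.nxt_mem c) (h.mxt_mem c)

lemma hasDerivAt_mxt_c {c : ℝ} (hc : c ∈ Ioo (0:ℝ) 1) (t : ℝ) :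
    HasDerivAt (fun c => mxt Γ T U c t) (Uc U (c, t) / KK Γ t (mxt Γ T U c t)) c := by
  refine (h.curve.hasDerivAt_nx_comp (hasDerivAt_const c t) (h.hasDerivAt_c hc t).neg).congr_deriv ?_
  unfold mxt Uf
  simp only [mul_zero, zero_add, neg_neg, Pi.neg_apply]

lemma hasDerivAt_Yt {c : ℝ} (hc : c ∈ Ioo (0:ℝ) 1) (t : ℝ) :
    HasDerivAt (fun c => -Yt Γ T U c t) (RM Γ T U c t + RR Γ T U c t) c := by
  have hT := h.T_pos
  set a : ℝ := t + T / 2 with ha
  have ham : a ∈ Ioo t (t + T) := ⟨by linarith, by linarith⟩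
  have cI := h.curve.cont_Idens
  have k1 := (h.curve.hasDerivAt_prim (g := fun p => Idens Γ p.1 p.2) cI ham
    (h.mxt_mem c t)).comp c (h.hasDerivAt_mxt_c hc t)
  have k2 := (h.curve.hasDerivAt_prim (g := fun p => Idens Γ p.1 p.2) cI ham
    (h.nxt_mem c t)).comp c (h.hasDerivAt_nxt_c hc t)
  have k3 : (fun c => -Yt Γ T U c t) = -((((fun x => ∫ y in a..x, Idens Γ t y) ∘
      fun c => mxt Γ T U c t)) - ((fun x => ∫ y in a..x, Idens Γ t y) ∘
      fun c => nxt Γ T U c t)) := by
    funext c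
    unfold Yt
    have i1 := h.curve.ii_line (g := fun p => Idens Γ p.1 p.2) cI ham (h.mxt_mem c t)
    have i2 := h.curve.ii_line (g := fun p => Idens Γ p.1 p.2) cI ham (h.nxt_mem c t)
    have := intervalIntegral.integral_interval_sub_left i1 i2
    simp only [Function.comp, Pi.neg_apply, Pi.sub_apply] at this ⊢
    rw [← this]
  rw [k3]
  refine (k1.sub k2).neg.congr_deriv ?_
  unfold RM RR nc
  ring

lemma continuousOn_nxt : ContinuousOn (fun q : ℝ × ℝ => (q.2, nxt Γ T U q.1 q.2))
    (Ioo 0 1 ×ˢ univ) := by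
  have k : ContinuousOn (fun q : ℝ × ℝ => (q.2, Uf U q)) (Ioo 0 1 ×ˢ univ) :=
    continuousOn_snd.prodMk h.continuousOn_Uf
  exact continuousOn_snd.prodMk (h.curve.contDiff_nx.continuous.comp_continuousOn k)

lemma continuousOn_mxt : ContinuousOn (fun q : ℝ × ℝ => (q.2, mxt Γ T U q.1 q.2))
    (Ioo 0 1 ×ˢ univ) := by
  have k : ContinuousOn (fun q : ℝ × ℝ => (q.2, -Uf U q)) (Ioo 0 1 ×ˢ univ) :=
    continuousOn_snd.prodMk h.continuousOn_Uf.neg
  exact continuousOn_snd.prodMk (h.curve.contDiff_nx.continuous.comp_continuousOn k)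

lemma continuousOn_RR : ContinuousOn (fun q : ℝ × ℝ => RR Γ T U q.1 q.2) (Ioo 0 1 ×ˢ univ) := by
  have m : MapsTo (fun q : ℝ × ℝ => (q.2, nxt Γ T U q.1 q.2)) (Ioo 0 1 ×ˢ univ) (Rg T) :=
    fun q _ => ⟨(h.nxt_mem q.1 q.2).1, (h.nxt_mem q.1 q.2).2⟩
  have k1 := h.curve.cont_Idens.comp (h.continuousOn_nxt) m
  have k2 := h.curve.cont_KK.comp (h.continuousOn_nxt) m
  exact (k1.mul h.continuousOn_Uc.neg).div k2 fun q _ =>
    (h.curve.KK_pos_right (h.nxt_mem q.1 q.2).1 (h.nxt_mem q.1 q.2).2).ne'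

lemma continuousOn_RM : ContinuousOn (fun q : ℝ × ℝ => RM Γ T U q.1 q.2) (Ioo 0 1 ×ˢ univ) := by
  have m : MapsTo (fun q : ℝ × ℝ => (q.2, mxt Γ T U q.1 q.2)) (Ioo 0 1 ×ˢ univ) (Rg T) :=
    fun q _ => ⟨(h.mxt_mem q.1 q.2).1, (h.mxt_mem q.1 q.2).2⟩
  have k1 := h.curve.cont_Idens.comp (h.continuousOn_mxt) m
  have k2 := h.curve.cont_KK.comp (h.continuousOn_mxt) m
  exact (k1.mul h.continuousOn_Uc.neg).div k2 fun q _ =>
    (h.curve.KK_pos_right (h.mxt_mem q.1 q.2).1 (h.mxt_mem q.1 q.2).2).ne'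

lemma leaf_nonpos {c : ℝ} (hc : c ∈ Ioo (0:ℝ) 1) :
    ∫ t in (0)..T, (RM Γ T U c t + RR Γ T U c t) ≤ 0 := by
  have i1 : IntervalIntegrable (RM Γ T U c) volume 0 T :=
    (continuous_slice h.continuousOn_RM hc).intervalIntegrable _ _
  have i2 : IntervalIntegrable (RR Γ T U c) volume 0 T :=
    (continuous_slice h.continuousOn_RR hc).intervalIntegrable _ _
  rw [intervalIntegral.integral_add i1 i2, h.mirror_identity hc, h.leaf_identity hc]
  have := intervalIntegral.integral_nonneg h.T_pos.le (μ := volume) fun t _ => h.df_nonneg hc t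
  linarith

lemma Y_mono {c₁ c₂ : ℝ} (h1 : 0 < c₁) (h12 : c₁ ≤ c₂) (h2 : c₂ < 1) :
    ∫ t in (0)..T, Yt Γ T U c₁ t ≤ ∫ t in (0)..T, Yt Γ T U c₂ t := by
  have hT := h.T_pos
  have hc1 : c₁ ∈ Ioo (0:ℝ) 1 := ⟨h1, h12.trans_lt h2⟩
  have hc2 : c₂ ∈ Ioo (0:ℝ) 1 := ⟨h1.trans_le h12, h2⟩
  have hcont : ContinuousOn (fun q : ℝ × ℝ => RM Γ T U q.1 q.2 + RR Γ T U q.1 q.2)
      (Ioo 0 1 ×ˢ univ) := h.continuousOn_RM.add h.continuousOn_RR
  have hsub : Icc c₁ c₂ ×ˢ Icc 0 T ⊆ Ioo (0:ℝ) 1 ×ˢ univ := by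
    intro q hq
    exact ⟨⟨by linarith [hq.1.1], by linarith [hq.1.2]⟩, mem_univ _⟩
  have hint : IntegrableOn (Function.uncurry fun c t => RM Γ T U c t + RR Γ T U c t)
      (uIoc c₁ c₂ ×ˢ uIoc 0 T) := by
    have h3 : IntegrableOn (Function.uncurry fun c t => RM Γ T U c t + RR Γ T U c t)
        (Icc c₁ c₂ ×ˢ Icc 0 T) :=
      ContinuousOn.integrableOn_compact (isCompact_Icc.prod isCompact_Icc) (hcont.mono hsub)
    refine h3.mono_set ?_
    rw [uIoc_of_le h12, uIoc_of_le hT.le]
    exact prod_mono Ioc_subset_Icc_self Ioc_subset_Icc_self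
  have e1 := MeasureTheory.intervalIntegral_intervalIntegral_swap hint
  have e2 : ∫ t in (0)..T, (∫ c in c₁..c₂, (RM Γ T U c t + RR Γ T U c t)) =
      ∫ t in (0)..T, (Yt Γ T U c₁ t - Yt Γ T U c₂ t) := by
    refine intervalIntegral.integral_congr fun t _ => ?_
    have hd : ∀ c ∈ uIcc c₁ c₂, HasDerivAt (fun c => -Yt Γ T U c t)
        (RM Γ T U c t + RR Γ T U c t) c := by
      intro c hc
      rw [uIcc_of_le h12] at hc
      exact h.hasDerivAt_Yt ⟨by linarith [hc.1], by linarith [hc.2]⟩ t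
    have hcc : ContinuousOn (fun c => RM Γ T U c t + RR Γ T U c t) (uIcc c₁ c₂) := by
      rw [uIcc_of_le h12]
      refine hcont.comp (f := fun c : ℝ => (c, t)) (by fun_prop) ?_
      intro c hc
      exact ⟨⟨by linarith [hc.1], by linarith [hc.2]⟩, mem_univ _⟩
    show ∫ c in c₁..c₂, (RM Γ T U c t + RR Γ T U c t) = _
    rw [intervalIntegral.integral_eq_sub_of_hasDerivAt hd hcc.intervalIntegrable]
    ring
  have e3 : ∫ c in c₁..c₂, (∫ t in (0)..T, (RM Γ T U c t + RR Γ T U c t)) ≤ 0 := by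
    -- continuity of the inner integral
    have hcI : ContinuousOn (fun c => ∫ t in (0)..T, (RM Γ T U c t + RR Γ T U c t))
        (Icc c₁ c₂) := by
      set pr : ℝ → ℝ := fun c => max c₁ (min c c₂) with hpr
      have hprc : Continuous pr := by simp only [hpr]; fun_prop
      have hprm : ∀ c, pr c ∈ Ioo (0:ℝ) 1 := by
        intro c
        simp only [hpr]
        exact ⟨lt_max_of_lt_left h1, max_lt (by linarith) ((min_le_right _ _).trans_lt h2)⟩
      have hc : Continuous fun c => ∫ t in (0)..T, (RM Γ T U (pr c) t + RR Γ T U (pr c) t) := by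
        refine intervalIntegral.continuous_parametric_intervalIntegral_of_continuous' ?_ 0 T
        refine hcont.comp_continuous (f := fun q : ℝ × ℝ => (pr q.1, q.2)) ?_ ?_
        · exact (hprc.comp continuous_fst).prodMk continuous_snd
        · intro q
          exact ⟨hprm _, mem_univ _⟩
      refine hc.continuousOn.congr ?_
      intro c hc
      have : pr c = c := by
        simp only [hpr]
        rw [min_eq_left hc.2, max_eq_right hc.1]
      simp only [this]
    have hi : IntervalIntegrable (fun c => ∫ t in (0)..T, (RM Γ T U c t + RR Γ T U c t)) volume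
        c₁ c₂ := by
      refine ContinuousOn.intervalIntegrable ?_
      rw [uIcc_of_le h12]
      exact hcI
    have k := intervalIntegral.integral_mono_on h12 hi
      (intervalIntegrable_const (c := (0:ℝ)) (μ := volume)) (fun c hc =>
        h.leaf_nonpos (c := c) ⟨by linarith [hc.1], by linarith [hc.2]⟩)
    simpa using k
  have i1 : IntervalIntegrable (Yt Γ T U c₁) volume 0 T :=
    (h.continuous_Yt hc1).intervalIntegrable _ _
  have i2 : IntervalIntegrable (Yt Γ T U c₂) volume 0 T :=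
    (h.continuous_Yt hc2).intervalIntegrable _ _
  rw [e1, e2, intervalIntegral.integral_sub i1 i2] at e3
  linarith

lemma tendsto_nxt_one (t : ℝ) :
    Tendsto (fun c => nxt Γ T U c t) (𝓝[<] 1) (𝓝 (nx Γ T t 0)) := by
  have h1 := h.lim1 t
  rw [zero_div] at h1
  have h2 : Continuous fun u => nx Γ T t u :=
    h.curve.contDiff_nx.continuous.comp (by fun_prop : Continuous fun u : ℝ => (t, u))
  exact (h2.tendsto 0).comp h1

lemma tendsto_mxt_one (t : ℝ) :
    Tendsto (fun c => mxt Γ T U c t) (𝓝[<] 1) (𝓝 (nx Γ T t 0)) := by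
  have h1 := (h.lim1 t).neg
  rw [zero_div, neg_zero] at h1
  have h2 : Continuous fun u => nx Γ T t u :=
    h.curve.contDiff_nx.continuous.comp (by fun_prop : Continuous fun u : ℝ => (t, u))
  exact (h2.tendsto 0).comp h1

lemma tendsto_nxt_zero (t : ℝ) : Tendsto (fun c => nxt Γ T U c t) (𝓝[>] 0) (𝓝 t) := by
  have hT := h.T_pos
  rw [Metric.tendsto_nhds]
  intro ε hε
  set δ := min (ε / 2) (T / 2) with hδ
  have hδ0 : 0 < δ := lt_min (by positivity) (by positivity)
  have hδ1 : δ ≤ ε / 2 := min_le_left _ _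
  have hδ2 : δ ≤ T / 2 := min_le_right _ _
  have k1 := (h.lim0 t).eventually_gt_atTop (-L1 Γ t (t + δ))
  filter_upwards [k1] with c hc
  obtain ⟨a1, a2, a3⟩ := h.nxt_spec c t
  have k2 : nxt Γ T U c t < t + δ := by
    refine ((h.curve.strictMono_L1 t).lt_iff_lt ⟨a1, a2⟩ ⟨by linarith, by linarith⟩).1 ?_
    show L1 Γ t _ < L1 Γ t (t + δ)
    rw [a3]
    linarith
  rw [Real.dist_eq, abs_of_pos (by linarith)]
  linarith

lemma tendsto_mxt_zero (t : ℝ) : Tendsto (fun c => mxt Γ T U c t) (𝓝[>] 0) (𝓝 (t + T)) := by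
  have hT := h.T_pos
  rw [Metric.tendsto_nhds]
  intro ε hε
  set δ := min (ε / 2) (T / 2) with hδ
  have hδ0 : 0 < δ := lt_min (by positivity) (by positivity)
  have hδ1 : δ ≤ ε / 2 := min_le_left _ _
  have hδ2 : δ ≤ T / 2 := min_le_right _ _
  have k1 := (h.lim0 t).eventually_gt_atTop (L1 Γ t (t + T - δ))
  filter_upwards [k1] with c hc
  obtain ⟨a1, a2, a3⟩ := h.mxt_spec c t
  have k2 : t + T - δ < mxt Γ T U c t := by
    refine ((h.curve.strictMono_L1 t).lt_iff_lt ⟨by linarith, by linarith⟩ ⟨a1, a2⟩).1 ?_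
    show L1 Γ t (t + T - δ) < L1 Γ t _
    rw [a3]
    exact hc
  rw [Real.dist_eq, abs_of_neg (by linarith)]
  linarith

/-- The integral of the density between a leaf and its mirror is nonpositive. -/
theorem Y_nonpos (hW : ∀ y, Wr Γ y = 1) {c : ℝ} (hc : c ∈ Ioo (0:ℝ) 1) :
    ∫ t in (0)..T, Yt Γ T U c t ≤ 0 := by
  have hT := h.T_pos
  obtain ⟨C, hC0, hC⟩ := h.curve.Idens_bound hW
  have bY : ∀ r t, |Yt Γ T U r t| ≤ C * |mxt Γ T U r t - nxt Γ T U r t| := by
    intro r t
    have k := intervalIntegral.norm_integral_le_of_norm_le_const (a := nxt Γ T U r t)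
      (b := mxt Γ T U r t) (f := fun x => Idens Γ t x) (C := C) (by
        intro x hx
        have hx' : x ∈ Ioo t (t + T) :=
          (convex_Ioo t (t + T)).ordConnected.uIcc_subset (h.nxt_mem r t) (h.mxt_mem r t)
            (uIoc_subset_uIcc hx)
        exact hC t x hx'.1 hx'.2)
    exact k
  have hlim : Tendsto (fun r => ∫ t in (0)..T, Yt Γ T U r t) (𝓝[<] 1)
      (𝓝 (∫ t in (0)..T, (0:ℝ))) := by
    refine intervalIntegral.tendsto_integral_filter_of_dominated_convergence
      (fun _ => C * T) ?_ ?_ ?_ ?_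
    · filter_upwards [Ioo_mem_nhdsLT (zero_lt_one' ℝ)] with r hr
      exact (h.continuous_Yt hr).aestronglyMeasurable
    · refine Eventually.of_forall fun r => Eventually.of_forall fun t _ => ?_
      refine (bY r t).trans (mul_le_mul_of_nonneg_left ?_ hC0)
      have k1 := h.nxt_mem r t
      have k2 := h.mxt_mem r t
      rw [abs_le]
      constructor <;> linarith [k1.1, k1.2, k2.1, k2.2]
    · exact intervalIntegrable_const
    · refine Eventually.of_forall fun t _ => ?_
      have k : Tendsto (fun r => C * |mxt Γ T U r t - nxt Γ T U r t|) (𝓝[<] 1) (𝓝 0) := by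
        have := (((h.tendsto_mxt_one t).sub (h.tendsto_nxt_one t)).abs).const_mul C
        simpa using this
      exact squeeze_zero_norm (fun r => bY r t) k
  simp only [intervalIntegral.integral_zero] at hlim
  refine ge_of_tendsto hlim ?_
  filter_upwards [Ioo_mem_nhdsLT hc.2] with r hr
  exact h.Y_mono hc.1 hr.1.le hr.2

/-- The integral of the density over the strips. -/
theorem strip_small (hW : ∀ y, Wr Γ y = 1) : ∃ C, 0 ≤ C ∧ ∀ ε, 0 < ε → ε ≤ T / 2 →
    ∫ r in ε..(T - ε), (∫ t in (0)..T, Idens Γ t (t + r)) ≤ C * ε := by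
  have hT := h.T_pos
  obtain ⟨C, hC0, hC⟩ := h.curve.Idens_bound hW
  refine ⟨2 * (C * T), by positivity, fun ε h0 h2 => ?_⟩
  have h1 : ε ≤ T - ε := by linarith
  have cI := h.curve.cont_Idens
  rw [strip_fubini (g := fun p => Idens Γ p.1 p.2) hT cI h0 h1]
  have hSt : ∀ t, ∫ r in ε..(T - ε), Idens Γ t (t + r) =
      ∫ x in (t + ε)..(t + (T - ε)), Idens Γ t x := by
    intro t
    exact intervalIntegral.integral_comp_add_left (fun x => Idens Γ t x) t
  simp only [hSt]
  have ma : ∀ t, t + ε ∈ Ioo t (t + T) := fun t => ⟨by linarith, by linarith⟩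
  have mb : ∀ t, t + (T - ε) ∈ Ioo t (t + T) := fun t => ⟨by linarith, by linarith⟩
  have cSt : Continuous fun t => ∫ x in (t + ε)..(t + (T - ε)), Idens Γ t x :=
    Curve.cont_int (g := fun p => Idens Γ p.1 p.2) cI (by fun_prop) (by fun_prop) ma mb
  -- bound of integrals over short intervals
  have bI : ∀ t a b, a ∈ Ioo t (t + T) → b ∈ Ioo t (t + T) →
      |∫ x in a..b, Idens Γ t x| ≤ C * |b - a| := by
    intro t a b ha hb
    exact intervalIntegral.norm_integral_le_of_norm_le_const (f := fun x => Idens Γ t x)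
      (C := C) (by
      intro x hx
      have hx' : x ∈ Ioo t (t + T) :=
        (convex_Ioo t (t + T)).ordConnected.uIcc_subset ha hb (uIoc_subset_uIcc hx)
      exact hC t x hx'.1 hx'.2)
  have key : ∀ c ∈ Ioo (0:ℝ) 1, ∫ t in (0)..T, (∫ x in (t + ε)..(t + (T - ε)), Idens Γ t x) ≤
      ∫ t in (0)..T, (C * |nxt Γ T U c t - (t + ε)| + C * |mxt Γ T U c t - (t + (T - ε))|) := by
    intro c hc
    have cn := h.continuous_nxt hc
    have cm := h.continuous_mxt hc
    have cE : Continuous fun t => C * |nxt Γ T U c t - (t + ε)| +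
        C * |mxt Γ T U c t - (t + (T - ε))| := by fun_prop
    have cY := h.continuous_Yt hc
    have k : ∫ t in (0)..T, (∫ x in (t + ε)..(t + (T - ε)), Idens Γ t x) ≤
        ∫ t in (0)..T, (Yt Γ T U c t + (C * |nxt Γ T U c t - (t + ε)| +
          C * |mxt Γ T U c t - (t + (T - ε))|)) := by
      refine intervalIntegral.integral_mono_on hT.le (cSt.intervalIntegrable _ _)
        ((cY.add cE).intervalIntegrable _ _) fun t _ => ?_
      have m1 := h.nxt_mem c t
      have m2 := h.mxt_mem c t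
      have i1 := h.curve.ii_line (g := fun p => Idens Γ p.1 p.2) cI m1 (ma t)
      have i2 := h.curve.ii_line (g := fun p => Idens Γ p.1 p.2) cI (ma t) (mb t)
      have i3 := h.curve.ii_line (g := fun p => Idens Γ p.1 p.2) cI (mb t) m2
      have e : Yt Γ T U c t = (∫ x in (nxt Γ T U c t)..(t + ε), Idens Γ t x) +
          (∫ x in (t + ε)..(t + (T - ε)), Idens Γ t x) +
          ∫ x in (t + (T - ε))..(mxt Γ T U c t), Idens Γ t x := by
        rw [intervalIntegral.integral_add_adjacent_intervals i1 i2,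
          intervalIntegral.integral_add_adjacent_intervals (i1.trans i2) i3]
        rfl
      have b1 := (abs_le.1 (bI t _ _ m1 (ma t))).1
      have b2 := (abs_le.1 (bI t _ _ (mb t) m2)).1
      rw [abs_sub_comm (t + ε)] at b1
      rw [e]
      linarith
    have i1 : IntervalIntegrable (Yt Γ T U c) volume 0 T := cY.intervalIntegrable _ _
    rw [intervalIntegral.integral_add i1 (cE.intervalIntegrable _ _)] at k
    have := h.Y_nonpos hW hc
    linarith
  have hlim : Tendsto (fun c => ∫ t in (0)..T, (C * |nxt Γ T U c t - (t + ε)| +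
      C * |mxt Γ T U c t - (t + (T - ε))|)) (𝓝[>] 0)
      (𝓝 (∫ t in (0)..T, (C * ε + C * ε))) := by
    refine intervalIntegral.tendsto_integral_filter_of_dominated_convergence
      (fun _ => C * T + C * T) ?_ ?_ ?_ ?_
    · filter_upwards [Ioo_mem_nhdsGT (zero_lt_one' ℝ)] with c hc
      have cn := h.continuous_nxt hc
      have cm := h.continuous_mxt hc
      exact (by fun_prop : Continuous fun t => C * |nxt Γ T U c t - (t + ε)| +
        C * |mxt Γ T U c t - (t + (T - ε))|).aestronglyMeasurable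
    · refine Eventually.of_forall fun c => Eventually.of_forall fun t _ => ?_
      have m1 := h.nxt_mem c t
      have m2 := h.mxt_mem c t
      have b1 : |nxt Γ T U c t - (t + ε)| ≤ T := by
        rw [abs_le]; constructor <;> linarith [m1.1, m1.2]
      have b2 : |mxt Γ T U c t - (t + (T - ε))| ≤ T := by
        rw [abs_le]; constructor <;> linarith [m2.1, m2.2]
      rw [norm_eq_abs, abs_of_nonneg (by positivity)]
      exact add_le_add (mul_le_mul_of_nonneg_left b1 hC0) (mul_le_mul_of_nonneg_left b2 hC0)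
    · exact intervalIntegrable_const
    · refine Eventually.of_forall fun t _ => ?_
      have k1 := (((h.tendsto_nxt_zero t).sub_const (t + ε)).abs).const_mul C
      have k2 := (((h.tendsto_mxt_zero t).sub_const (t + (T - ε))).abs).const_mul C
      have e1 : |t - (t + ε)| = ε := by
        rw [sub_add_cancel_left, abs_neg, abs_of_pos h0]
      have e2 : |t + T - (t + (T - ε))| = ε := by
        have : t + T - (t + (T - ε)) = ε := by ring
        rw [this, abs_of_pos h0]
      rw [e1] at k1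
      rw [e2] at k2
      exact k1.add k2
  have hfin : ∫ t in (0)..T, (∫ x in (t + ε)..(t + (T - ε)), Idens Γ t x) ≤
      ∫ t in (0)..T, (C * ε + C * ε) := by
    refine ge_of_tendsto hlim ?_
    filter_upwards [Ioo_mem_nhdsGT (zero_lt_one' ℝ)] with c hc
    exact key c hc
  rw [intervalIntegral.integral_const, smul_eq_mul, sub_zero] at hfin
  linarith

/-- The nonnegative density vanishes. -/
theorem Q_zero (hW : ∀ y, Wr Γ y = 1) (t s : ℝ) (h1 : t < s) (h2 : s < t + T) :
    Qdens Γ t s = 0 := by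
  have hT := h.T_pos
  obtain ⟨C1, hC1, b1⟩ := h.curve.strip_bound hW
  obtain ⟨C2, hC2, b2⟩ := h.strip_small hW
  have cQ := h.curve.cont_Qdens
  set M : ℝ → ℝ := fun r => ∫ t in (0)..T, Qdens Γ t (t + r) with hM
  have hMnn : ∀ r, 0 ≤ M r := fun r =>
    intervalIntegral.integral_nonneg hT.le fun t _ => Qdens_nonneg t (t + r)
  have small : ∀ ε, 0 < ε → ε ≤ T / 2 → ∫ r in ε..(T - ε), M r ≤ (50 * C2 + C1) * ε := by
    intro ε h0 h2
    have k1 := b1 ε h0 h2
    have k2 := b2 ε h0 h2
    have : (50 * C2 + C1) * ε = 50 * (C2 * ε) + C1 * ε := by ring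
    rw [this]
    linarith
  -- the integral over a fixed strip vanishes
  have zero : ∀ ε, 0 < ε → ε ≤ T / 2 → ∫ r in ε..(T - ε), M r = 0 := by
    intro ε h0 h2
    have mono : ∀ η, 0 < η → η ≤ ε → ∫ r in ε..(T - ε), M r ≤ (50 * C2 + C1) * η := by
      intro η h3 h4
      refine le_trans ?_ (small η h3 (h4.trans h2))
      have hii := strip_ii (g := fun p => Qdens Γ p.1 p.2) cQ h3 (by linarith : η ≤ T - η)
      refine intervalIntegral.integral_mono_interval h4 (by linarith) (by linarith)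
        (Eventually.of_forall fun r => hMnn r) hii
    have lim : Tendsto (fun η : ℝ => (50 * C2 + C1) * η) (𝓝[>] 0) (𝓝 0) := by
      have : Tendsto (fun η : ℝ => (50 * C2 + C1) * η) (𝓝 0) (𝓝 ((50 * C2 + C1) * 0)) :=
        Continuous.tendsto (by fun_prop) 0
      rw [mul_zero] at this
      exact this.mono_left nhdsWithin_le_nhds
    refine le_antisymm (ge_of_tendsto lim ?_)
      (intervalIntegral.integral_nonneg (by linarith) fun r _ => hMnn r)
    filter_upwards [Ioo_mem_nhdsGT h0] with η hη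
    exact mono η hη.1 hη.2.le
  -- pointwise
  have hr : s - t ∈ Ioo 0 T := ⟨by linarith, by linarith⟩
  set r₀ : ℝ := s - t with hr₀
  have hMr : M r₀ = 0 := by
    set ε : ℝ := min r₀ (T - r₀) / 2 with hε
    have e0 : 0 < ε := by
      have : 0 < min r₀ (T - r₀) := lt_min hr.1 (by linarith [hr.2])
      positivity
    have e1 : ε < r₀ := by
      have : min r₀ (T - r₀) ≤ r₀ := min_le_left _ _
      linarith [hr.1]
    have e2 : r₀ < T - ε := by
      have : min r₀ (T - r₀) ≤ T - r₀ := min_le_right _ _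
      linarith [hr.2]
    have e3 : ε ≤ T / 2 := by linarith
    have z := zero ε e0 e3
    by_contra hne
    have hpos : 0 < M r₀ := lt_of_le_of_ne (hMnn _) (Ne.symm hne)
    have hc : ContinuousOn M (Icc ε (T - ε)) :=
      strip_cont (g := fun p => Qdens Γ p.1 p.2) cQ e0 (by linarith)
    have : 0 < ∫ r in ε..(T - ε), M r :=
      intervalIntegral.integral_pos (by linarith) hc (fun r _ => hMnn r)
        ⟨r₀, ⟨e1.le, e2.le⟩, hpos⟩
    linarith
  have hcs : Continuous fun t => Qdens Γ t (t + r₀) :=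
    cont_slice (g := fun p => Qdens Γ p.1 p.2) cQ hr
  have hz : ∀ x ∈ Icc 0 T, Qdens Γ x (x + r₀) = 0 := by
    intro x hx
    by_contra hne
    have hpos : 0 < Qdens Γ x (x + r₀) := lt_of_le_of_ne (Qdens_nonneg _ _) (Ne.symm hne)
    have : 0 < ∫ t in (0)..T, Qdens Γ t (t + r₀) :=
      intervalIntegral.integral_pos hT hcs.continuousOn (fun t _ => Qdens_nonneg _ _)
        ⟨x, hx, hpos⟩
    have e : ∫ t in (0)..T, Qdens Γ t (t + r₀) = 0 := hMr
    linarith
  have hper : Function.Periodic (fun x => Qdens Γ x (x + r₀)) T := by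
    intro x
    have e : x + T + r₀ = (x + r₀) + T := by ring
    simp only [e]
    unfold Qdens
    rw [h.curve.vv_per_left, h.curve.vv_per_right, h.curve.dl_per_left, h.curve.dl_per_right,
      h.curve.L1_per_left, h.curve.L1_per_right, h.curve.L2_per_left, h.curve.L2_per_right,
      h.curve.L1_per_left, h.curve.L1_per_right, h.curve.L2_per_left, h.curve.L2_per_right]
  obtain ⟨z, hz1, hz2⟩ := hper.exists_mem_Ico₀ hT t
  have e : t + r₀ = s := by rw [hr₀]; ring
  simp only [e] at hz2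
  rw [hz2]
  exact hz z ⟨hz1.1, hz1.2.le⟩

end Sys

end Pool.Agent.MP_ae5b4e_an_hopf
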