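import Mathlib
import Pool.Agent.Lib.MP_ae5b4e_an_hopf.Total

/-!
Rigidity of normalized systems.
-/

noncomputable section

namespace Pool.Agent.MP_ae5b4e_an_hopf

open Set Filter Topology Real MeasureTheory intervalIntegral
open scoped ContDiff

variable {Γ : ℝ → Fin 3 → ℝ} {T : ℝ} {U : ℝ → ℝ → ℝ}

namespace Curve

variable (h : Curve T Γ)
include h

lemma L1_shift (hD : ∀ x y r, dd Γ (x + r) (y + r) = dd Γ x y) (x y r : ℝ) :
    L1 Γ (x + r) (y + r) = L1 Γ x y := by
  have s1 : ddx Γ (x + r) (y + r) = ddx Γ x y := by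
    have a1 := (h.hasDerivAt_dd_left (x + r) (y + r)).comp_add_const x r
    have a2 : (fun x => dd Γ (x + r) (y + r)) = fun x => dd Γ x y := funext fun x => hD x y r
    rw [a2] at a1
    exact a1.unique (h.hasDerivAt_dd_left x y)
  unfold L1
  rw [s1, hD]

lemma L11_KK (hD : ∀ x y r, dd Γ (x + r) (y + r) = dd Γ x y) {x y : ℝ} (hn : dd Γ x y ≠ 0) :
    L11 Γ x y + KK Γ x y = 0 := by
  have a1 := h.hasDerivAt_diag_L1 (x := x) (y := y) (r := 0) (by simpa using hn)
  have a2 : (fun r => L1 Γ (x + r) (y + r)) = fun _ => L1 Γ x y :=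
    funext fun r => h.L1_shift hD x y r
  rw [a2] at a1
  have := a1.unique (hasDerivAt_const (0:ℝ) _)
  simpa using this

end Curve

namespace Sys

variable (h : Sys T Γ U fun _ => 0)
include h

/-- The leaves are given by constants. -/
theorem leaf_const (hW : ∀ y, Wr Γ y = 1) (hS : ∀ x y, dd Γ x y = dd Γ y x)
    (hD : ∀ x y r, dd Γ (x + r) (y + r) = dd Γ x y) {c : ℝ} (hc : c ∈ Ioo (0:ℝ) 1) :
    ∃ ρ : ℝ, 0 < ρ ∧ ∀ t, U c t = ρ := by
  have hT := h.T_pos
  have hKs : ∀ x y, KK Γ x y = KK Γ y x := by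
    intro x y
    unfold KK
    rw [hW, hW, hS y x]
  have hR : ∀ t, RR Γ T U c t = 0 := by
    intro t
    obtain ⟨a1, a2, -⟩ := h.nxt_spec c t
    have e1 := h.curve.L11_KK hD (h.curve.dd_pos_right a1 a2).ne'
    have e2 := h.curve.L11_KK hD (h.curve.dd_pos_left a1 a2).ne'
    have e3 := hKs t (nxt Γ T U c t)
    have : Idens Γ t (nxt Γ T U c t) = 0 := by
      unfold Idens
      have f1 : L11 Γ t (nxt Γ T U c t) = -KK Γ t (nxt Γ T U c t) := by linarith
      have f2 : L11 Γ (nxt Γ T U c t) t = -KK Γ (nxt Γ T U c t) t := by linarith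
      rw [f1, f2, e3]
      ring
    unfold RR
    rw [this]
    simp
  have hint : ∫ t in (0)..T, df Γ T U c t = 0 := by
    have k := h.leaf_identity hc
    simp only [hR, intervalIntegral.integral_zero] at k
    linarith
  have hdf : ∀ t, df Γ T U c t = 0 := by
    have hz : ∀ t ∈ Icc 0 T, df Γ T U c t = 0 := by
      intro t ht
      by_contra hne
      have hpos : 0 < df Γ T U c t := lt_of_le_of_ne (h.df_nonneg hc t) (Ne.symm hne)
      have : 0 < ∫ t in (0)..T, df Γ T U c t :=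
        intervalIntegral.integral_pos hT (h.continuous_df hc).continuousOn
          (fun t _ => h.df_nonneg hc t) ⟨t, ht, hpos⟩
      linarith
    intro t
    have hper : Function.Periodic (df Γ T U c) T := by
      intro t
      unfold df
      rw [h.nxt_per hc, h.curve.KK_per_left, h.curve.KK_per_right, h.Uc_per hc, h.Uc_per hc]
    obtain ⟨z, hz1, hz2⟩ := hper.exists_mem_Ico₀ hT t
    rw [hz2]
    exact hz z ⟨hz1.1, hz1.2.le⟩
  have hnt : ∀ t, nt Γ T U c t = 1 := by
    intro t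
    obtain ⟨a1, a2, -⟩ := h.nxt_spec c t
    have hK := (h.curve.KK_pos_right a1 a2).ne'
    have hK' := (h.curve.KK_pos_left a1 a2).ne'
    have w2 : -Uc U (c, nxt Γ T U c t) ≠ 0 := by
      have := h.Uc_neg hc (nxt Γ T U c t)
      exact (by linarith : 0 < -Uc U (c, nxt Γ T U c t)).ne'
    have k1 := hdf t
    unfold df at k1
    rw [div_eq_zero_iff] at k1
    have k2 := k1.resolve_right w2
    have k3 := (mul_eq_zero.1 k2).resolve_left hK'
    have k4 : Uc U (c, t) - Uc U (c, nxt Γ T U c t) = 0 := pow_eq_zero_iff (by norm_num) |>.1 k3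
    have k5 := h.invariance hc t
    have k6 : Uc U (c, nxt Γ T U c t) = Uc U (c, t) := by linarith
    rw [k6, ← hKs t (nxt Γ T U c t)] at k5
    have w1 := (h.Uc_neg hc t).ne
    have k7 : (nt Γ T U c t - 1) * (Uc U (c, t) * KK Γ t (nxt Γ T U c t)) = 0 := by linarith
    have k8 := (mul_eq_zero.1 k7).resolve_right (mul_ne_zero w1 hK)
    linarith
  -- the next point is at a constant distance
  have hcon : ∀ t, nxt Γ T U c t - t = nxt Γ T U c 0 - 0 := by
    intro t
    have hd : ∀ t, HasDerivAt (fun t => nxt Γ T U c t - t) 0 t := by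
      intro t
      refine ((h.hasDerivAt_nxt_t hc t).sub (hasDerivAt_id t)).congr_deriv ?_
      rw [hnt]
      ring
    exact is_const_of_deriv_eq_zero (fun r => (hd r).differentiableAt) (fun r => (hd r).deriv) t 0
  refine ⟨U c 0, h.U_pos hc 0, fun t => ?_⟩
  have k1 := (h.nxt_spec c t).2.2
  have k2 := (h.nxt_spec c 0).2.2
  have k3 := hcon t
  have k4 : nxt Γ T U c t = nxt Γ T U c 0 + t := by linarith
  have k5 := h.curve.L1_shift hD 0 (nxt Γ T U c 0) t
  rw [zero_add, ← k4, k1, k2] at k5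
  linarith

/-- Rigidity of normalized systems. -/
theorem rigid (hW : ∀ y, Wr Γ y = 1) :
    ∃ (w : ℝ) (e₀ e₁ e₂ : Fin 3 → ℝ), 0 < w ∧ det3 e₀ e₁ e₂ ≠ 0 ∧
      (∀ t, Γ t = e₀ + cos (w * t) • e₁ + sin (w * t) • e₂) ∧
      ∀ c ∈ Ioo (0:ℝ) 1, ∃ ρ : ℝ, 0 < ρ ∧ ∀ t, U c t = ρ := by
  have hQ := h.Q_zero hW
  obtain ⟨w, e₀, e₁, e₂, h1, h2, h3⟩ := h.curve.circle hW hQ
  obtain ⟨hS, hL⟩ := h.curve.of_Q_zero hQ
  exact ⟨w, e₀, e₁, e₂, h1, h2, h3, fun c hc =>
    h.leaf_const hW (h.curve.dd_symm_all hS) (h.curve.dd_shift_all hL) hc⟩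

end Sys

end Pool.Agent.MP_ae5b4e_an_hopf
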