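import Mathlib
import Pool.Agent.Lib.MP_ae5b4e_an_hopf.Rigid

/-!
Normalization of a system: a change of the parameter and a rescaling of the space curve make
`κ = 0` and the Wronskian one.
-/

noncomputable section

namespace Pool.Agent.MP_ae5b4e_an_hopf

open Set Filter Topology Real MeasureTheory intervalIntegral
open scoped ContDiff

/-- primitives of smooth functions are smooth -/
lemma contDiff_prim {g : ℝ → ℝ} (hg : ContDiff ℝ ∞ g) :
    ContDiff ℝ ∞ (fun t => ∫ x in (0)..t, g x) ∧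
      ∀ t, HasDerivAt (fun t => ∫ x in (0)..t, g x) (g t) t := by
  have hd : ∀ t, HasDerivAt (fun t => ∫ x in (0)..t, g x) (g t) t := fun t =>
    intervalIntegral.integral_hasDerivAt_right (hg.continuous.intervalIntegrable _ _)
      (hg.continuous.stronglyMeasurableAtFilter _ _) hg.continuous.continuousAt
  refine ⟨?_, hd⟩
  rw [contDiff_infty_iff_deriv]
  refine ⟨fun t => (hd t).differentiableAt, ?_⟩
  have : deriv (fun t => ∫ x in (0)..t, g x) = g := funext fun t => (hd t).deriv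
  rw [this]
  exact hg

/-- periodicity of primitives -/
lemma prim_per {g : ℝ → ℝ} {T : ℝ} (hg : Continuous g) (hp : ∀ t, g (t + T) = g t) (t : ℝ) :
    ∫ x in (0)..(t + T), g x = (∫ x in (0)..t, g x) + ∫ x in (0)..T, g x := by
  have hper : Function.Periodic g T := hp
  have h1 := hper.intervalIntegral_add_eq t 0
  rw [zero_add] at h1
  rw [← h1]
  exact (intervalIntegral.integral_add_adjacent_intervals (hg.intervalIntegrable _ _)
    (hg.intervalIntegrable _ _)).symm

/-- A change of parameter with positive periodic speed. -/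
lemma exists_param {m : ℝ → ℝ} {T : ℝ} (hT : 0 < T) (hm : ContDiff ℝ ∞ m) (hpos : ∀ t, 0 < m t)
    (hp : ∀ t, m (t + T) = m t) :
    ∃ (τ σ : ℝ → ℝ) (S : ℝ), 0 < S ∧ ContDiff ℝ ∞ σ ∧ (∀ t, HasDerivAt τ (m t) t) ∧
      (∀ x, HasDerivAt σ (1 / m (σ x)) x) ∧ (∀ t, σ (τ t) = t) ∧ (∀ x, τ (σ x) = x) ∧
      StrictMono τ ∧ StrictMono σ ∧ (∀ t, τ (t + T) = τ t + S) ∧ (∀ x, σ (x + S) = σ x + T) := by
  set τ : ℝ → ℝ := fun t => ∫ x in (0)..t, m x with hτ
  obtain ⟨hs, hd⟩ := contDiff_prim hm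
  set S : ℝ := ∫ x in (0)..T, m x with hS
  have hS0 : 0 < S := intervalIntegral.intervalIntegral_pos_of_pos
    (hm.continuous.intervalIntegrable _ _) hpos hT
  have hshift : ∀ t, τ (t + T) = τ t + S := fun t => prim_per hm.continuous hp t
  have hmono : StrictMono τ := by
    refine strictMono_of_deriv_pos fun t => ?_
    rw [(hd t).deriv]
    exact hpos t
  have hcont : Continuous τ := hs.continuous
  have hsurj : Function.Surjective τ := by
    have hn : ∀ n : ℕ, τ (n * T) = τ 0 + n * S ∧ τ (-(n * T)) = τ 0 - n * S := by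
      intro n
      induction n with
      | zero => simp
      | succ n ih =>
        constructor
        · have h := hshift (n * T)
          rw [ih.1] at h
          have e : ((n + 1 : ℕ) : ℝ) * T = n * T + T := by push_cast; ring
          rw [e, h]; push_cast; ring
        · have h := hshift (-((n + 1 : ℕ) * T))
          have e : -(((n + 1 : ℕ) : ℝ) * T) + T = -(n * T) := by push_cast; ring
          rw [e, ih.2] at h
          push_cast at h ⊢
          linarith
    intro y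
    obtain ⟨n, hn'⟩ := exists_nat_gt (|y - τ 0| / S)
    rw [div_lt_iff₀ hS0] at hn'
    obtain ⟨h1, h2⟩ := hn n
    have h3 := abs_lt.1 hn'
    have hle : -((n:ℝ) * T) ≤ n * T := by
      have : 0 ≤ (n:ℝ) * T := by positivity
      linarith
    have hmem : y ∈ Icc (τ (-(n * T))) (τ (n * T)) := by
      rw [h1, h2]
      exact ⟨by linarith [h3.1], by linarith [h3.2]⟩
    obtain ⟨s, -, hs'⟩ := intermediate_value_Icc hle hcont.continuousOn hmem
    exact ⟨s, hs'⟩
  set e : ℝ ≃ₜ ℝ := (hmono.orderIsoOfSurjective τ hsurj).toHomeomorph with he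
  set σ : ℝ → ℝ := ⇑e.symm with hσ
  have e1 : ∀ t, σ (τ t) = t := fun t => e.symm_apply_apply t
  have e2 : ∀ x, τ (σ x) = x := fun x => e.apply_symm_apply x
  have hσs : ContDiff ℝ ∞ σ :=
    Homeomorph.contDiff_symm_deriv (f := e) (f' := m) (fun x => (hpos x).ne') hd hs
  have hσd : ∀ x, HasDerivAt σ (1 / m (σ x)) x := by
    intro x
    have k1 := (hσs.differentiable (by simp) x).hasDerivAt
    have k2 := (hd (σ x)).comp x k1
    have k3 : (τ ∘ σ) = id := funext e2
    rw [k3] at k2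
    have k4 := k2.unique (hasDerivAt_id x)
    refine k1.congr_deriv ?_
    rw [eq_div_iff (hpos _).ne', mul_comm]
    exact k4
  have hσm : StrictMono σ := by
    intro x y hxy
    by_contra hneg
    push Not at hneg
    have := hmono.monotone hneg
    rw [e2, e2] at this
    linarith
  refine ⟨τ, σ, S, hS0, hσs, hd, hσd, e1, e2, hmono, hσm, hshift, fun x => ?_⟩
  have : τ (σ x + T) = x + S := by rw [hshift, e2]
  rw [← this, e1]

variable {Γ : ℝ → Fin 3 → ℝ} {T : ℝ} {U : ℝ → ℝ → ℝ} {κ : ℝ → ℝ}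

lemma det3_lin (a : Fin 3 → ℝ) (v w : Fin 3 → ℝ) (r s p q : ℝ) :
    det3 (r • a) (s • v) (p • (q • v + w)) = r * s * p * det3 a v w := by
  unfold det3
  simp only [Pi.smul_apply, Pi.add_apply, smul_eq_mul]
  ring

lemma det3_lin2 (v w z : Fin 3 → ℝ) (r p q a b c : ℝ) :
    det3 (r • v) (p • (q • v + w)) (a • (q • v + w) + b • (c • v + q • w + z)) =
      r * p * b * det3 v w z := by
  unfold det3
  simp only [Pi.smul_apply, Pi.add_apply, smul_eq_mul]
  ring

/-- Every system can be normalized. -/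
theorem Sys.normalize (h : Sys T Γ U κ) :
    ∃ (τ σ f m : ℝ → ℝ) (S : ℝ),
      (∀ t, 0 < f t) ∧ (∀ t, 0 < m t) ∧ (∀ t, σ (τ t) = t) ∧ (∀ x, τ (σ x) = x) ∧
      Sys S (fun x => f (σ x) • Γ (σ x)) (fun c x => (U c (σ x) - κ (σ x) / 2) / m (σ x))
        (fun _ => 0) ∧
      (∀ x, Wr (fun x => f (σ x) • Γ (σ x)) x = 1) ∧
      (∀ x, HasDerivAt (fun x => f (σ x) • Γ (σ x))
        ((f (σ x) / m (σ x)) • ((κ (σ x) / 2) • Γ (σ x) + deriv Γ (σ x))) x) := by
  have hT := h.T_pos
  have hC := h.curve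
  have hκs := h.contDiff_κ
  -- the scaling factor
  obtain ⟨hFs, hFd⟩ := contDiff_prim (hκs.div_const 2)
  set F : ℝ → ℝ := fun t => ∫ x in (0)..t, κ x / 2 with hF
  set f : ℝ → ℝ := fun t => exp (F t) with hf
  have hfs : ContDiff ℝ ∞ f := hFs.exp
  have hf0 : ∀ t, 0 < f t := fun t => exp_pos _
  have hfd : ∀ t, HasDerivAt f (f t * (κ t / 2)) t := fun t => (hFd t).exp
  have hint0 : ∫ x in (0)..T, κ x / 2 = 0 := by
    rw [intervalIntegral.integral_div, h.mean_zero]
    simp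
  have hfp : ∀ t, f (t + T) = f t := by
    intro t
    simp only [hf, hF]
    rw [prim_per (hκs.div_const 2).continuous (fun t => by simp only [h.κ_per]) t, hint0, add_zero]
  -- the speed
  set m : ℝ → ℝ := fun t => f t * Wr Γ t ^ ((1:ℝ) / 3) with hm
  have hm0 : ∀ t, 0 < m t := fun t => mul_pos (hf0 t) (rpow_pos_of_pos (hC.Wr_pos t) _)
  have hms : ContDiff ℝ ∞ m := hfs.mul (hC.contDiff_Wr.rpow_const_of_ne fun t => (hC.Wr_pos t).ne')
  have hmp : ∀ t, m (t + T) = m t := by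
    intro t
    simp only [hm, hfp, hC.Wr_per]
  have hm3 : ∀ t, m t ^ 3 = f t ^ 3 * Wr Γ t := by
    intro t
    simp only [hm]
    rw [mul_pow, ← rpow_natCast (Wr Γ t ^ ((1:ℝ) / 3)) 3, ← rpow_mul (hC.Wr_pos t).le]
    norm_num
  obtain ⟨τ, σ, S, hS0, hσs, hτd, hσd, e1, e2, hτm, hσm, hτp, hσp⟩ :=
    exists_param hT hms hm0 hmp
  -- derivatives of the new curve
  set G : ℝ → Fin 3 → ℝ := fun x => f (σ x) • Γ (σ x) with hG
  have hGd : ∀ x, HasDerivAt G
      ((f (σ x) / m (σ x)) • ((κ (σ x) / 2) • Γ (σ x) + deriv Γ (σ x))) x := by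
    intro x
    have k1 := (hfd (σ x)).comp x (hσd x)
    have k2 := (hC.hd0 (σ x)).scomp x (hσd x)
    refine (k1.smul k2).congr_deriv ?_
    funext i
    simp only [Function.comp, Pi.add_apply, Pi.smul_apply, smul_eq_mul]
    ring
  have hdG : deriv G = fun x => (f (σ x) / m (σ x)) • ((κ (σ x) / 2) • Γ (σ x) + deriv Γ (σ x)) :=
    funext fun x => (hGd x).deriv
  -- second derivative
  have hβs : ContDiff ℝ ∞ fun t => f t / m t := hfs.div hms fun t => (hm0 t).ne'
  have hβd : ∀ t, HasDerivAt (fun t => f t / m t) (deriv (fun t => f t / m t) t) t := fun t =>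
    (hβs.differentiable (by simp) t).hasDerivAt
  have hGdd : ∀ x, HasDerivAt (deriv G)
      ((deriv (fun t => f t / m t) (σ x) / m (σ x)) • ((κ (σ x) / 2) • Γ (σ x) + deriv Γ (σ x)) +
        (f (σ x) / m (σ x) / m (σ x)) • ((deriv κ (σ x) / 2) • Γ (σ x) +
          (κ (σ x) / 2) • deriv Γ (σ x) + deriv (deriv Γ) (σ x))) x := by
    intro x
    rw [hdG]
    have k1 := (hβd (σ x)).comp x (hσd x)
    have k2 := (((h.hasDerivAt_κ (σ x)).div_const 2)).comp x (hσd x)
    have k3 := (hC.hd0 (σ x)).scomp x (hσd x)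
    have k4 := (hC.hd1 (σ x)).scomp x (hσd x)
    have k5 := k1.smul ((k2.smul k3).add k4)
    refine k5.congr_deriv ?_
    show (f (σ x) / m (σ x)) • ((κ (σ x) / 2) • (1 / m (σ x)) • deriv Γ (σ x) +
          (deriv κ (σ x) / 2 * (1 / m (σ x))) • Γ (σ x) +
          (1 / m (σ x)) • deriv (deriv Γ) (σ x)) +
      (deriv (fun t => f t / m t) (σ x) * (1 / m (σ x))) •
        ((κ (σ x) / 2) • Γ (σ x) + deriv Γ (σ x)) = _
    funext i
    simp only [Pi.add_apply, Pi.smul_apply, smul_eq_mul]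
    ring
  have hddG : ∀ x, deriv (deriv G) x = (deriv (fun t => f t / m t) (σ x) / m (σ x)) •
        ((κ (σ x) / 2) • Γ (σ x) + deriv Γ (σ x)) +
        (f (σ x) / m (σ x) / m (σ x)) • ((deriv κ (σ x) / 2) • Γ (σ x) +
          (κ (σ x) / 2) • deriv Γ (σ x) + deriv (deriv Γ) (σ x)) := fun x => (hGdd x).deriv
  have hWr : ∀ x, Wr G x = 1 := by
    intro x
    unfold Wr
    rw [hddG x, hdG]
    show det3 (f (σ x) • Γ (σ x)) _ _ = 1
    rw [det3_lin2]
    have k := hm3 (σ x)
    have k0 : det3 (Γ (σ x)) (deriv Γ (σ x)) (deriv (deriv Γ) (σ x)) = Wr Γ (σ x) := rfl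
    have hn := (hm0 (σ x)).ne'
    rw [k0]
    field_simp
    linarith
  have hdd : ∀ x y, dd G x y = f (σ x) * f (σ y) * (f (σ y) / m (σ y)) * dd Γ (σ x) (σ y) := by
    intro x y
    unfold dd
    rw [hdG]
    exact det3_lin _ _ _ _ _ _ _
  have hlt : ∀ x y, x < y → y < x + S → σ x < σ y ∧ σ y < σ x + T := by
    intro x y h1 h2
    refine ⟨hσm h1, ?_⟩
    rw [← hσp]
    exact hσm h2
  have hGs : ContDiff ℝ ∞ G := (hfs.comp hσs).smul (hC.smooth.comp hσs)
  have hcurve : Curve S G :=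
    { T_pos := hS0
      smooth := hGs
      per := fun x => by simp only [hG, hσp, hfp, hC.per]
      pos := fun x y h1 h2 => by
        obtain ⟨k1, k2⟩ := hlt x y h1 h2
        rw [hdd]
        have a1 := hf0 (σ x)
        have a2 := hf0 (σ y)
        have a3 := hm0 (σ y)
        have a4 := hC.dd_pos_right k1 k2
        positivity
      Wr_pos := fun x => by rw [hWr]; exact one_pos }
  -- the logarithmic derivative
  have hL1 : ∀ x y, dd Γ (σ x) (σ y) ≠ 0 → L1 G x y = (κ (σ x) / 2 + L1 Γ (σ x) (σ y)) / m (σ x) := by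
    intro x y hn
    have a1 := (hf0 (σ x)).ne'
    have a2 := (hf0 (σ y)).ne'
    have a3 := (hm0 (σ y)).ne'
    have a4 := (hm0 (σ x)).ne'
    have hddx : ddx G x y = (f (σ x) / m (σ x)) * (f (σ y)) * (f (σ y) / m (σ y)) *
        ((κ (σ x) / 2) * dd Γ (σ x) (σ y) + ddx Γ (σ x) (σ y)) := by
      unfold ddx dd
      rw [hdG]
      simp only [hG]
      unfold det3
      simp only [Pi.smul_apply, Pi.add_apply, smul_eq_mul]
      ring
    unfold L1
    rw [hddx, hdd]
    field_simp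
  refine ⟨τ, σ, f, m, S, hf0, hm0, e1, e2, ?_, hWr, hGd⟩
  refine ⟨hcurve, ?_, ?_, ?_, ?_, ?_, ?_⟩
  · -- smoothness
    have k1 : ContDiffOn ℝ ∞ (fun q : ℝ × ℝ => U q.1 (σ q.2)) (Ioo 0 1 ×ˢ univ) := by
      refine h.smooth.comp (f := fun q : ℝ × ℝ => (q.1, σ q.2))
        (contDiff_fst.prodMk (hσs.comp contDiff_snd)).contDiffOn ?_
      rintro q ⟨hq, -⟩
      exact ⟨hq, mem_univ _⟩
    have k2 : ContDiff ℝ ∞ (fun q : ℝ × ℝ => κ (σ q.2) / 2) :=
      (hκs.comp (hσs.comp contDiff_snd)).div_const 2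
    have k3 : ContDiff ℝ ∞ (fun q : ℝ × ℝ => m (σ q.2)) := hms.comp (hσs.comp contDiff_snd)
    exact (k1.sub k2.contDiffOn).div k3.contDiffOn fun q _ => (hm0 _).ne'
  · intro c hc x
    simp only [hσp, hmp, h.κ_per, h.per c hc]
  · intro c hc x
    have k1 := ((h.hasDerivAt_c hc (σ x)).sub_const (κ (σ x) / 2)).div_const (m (σ x))
    have k2 : deriv (fun r => (U r (σ x) - κ (σ x) / 2) / m (σ x)) c =
        Uc U (c, σ x) / m (σ x) := k1.deriv
    rw [k2]
    exact div_neg_of_neg_of_pos (h.Uc_neg hc _) (hm0 _)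
  · intro x
    refine Tendsto.atTop_div_const (hm0 _) ?_
    exact tendsto_atTop_add_const_right _ (-(κ (σ x) / 2)) (h.lim0 (σ x))
  · intro x
    have k := ((h.lim1 (σ x)).sub_const (κ (σ x) / 2)).div_const (m (σ x))
    simpa using k
  · intro c hc x y h1 h2 h3
    obtain ⟨k1, k2⟩ := hlt x y h1 h2
    have n1 := (hC.dd_pos_right k1 k2).ne'
    have n2 := (hC.dd_pos_left k1 k2).ne'
    rw [hL1 x y n1, ← neg_div] at h3
    have a1 := (hm0 (σ x)).ne'
    have a2 := (hm0 (σ y)).ne'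
    have h4 : L1 Γ (σ x) (σ y) = -(U c (σ x)) := by
      have := (div_left_inj' a1).1 h3
      linarith
    have h5 := h.feq c hc (σ x) (σ y) k1 k2 h4
    rw [zero_add, hL1 y x n2, h5]
    congr 1
    ring

end Pool.Agent.MP_ae5b4e_an_hopf
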