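import Mathlib
import Pool.Agent.Lib.MP_ae5b4e_an_hopf.Gauge

/-!
The curve and all the invariant curves are the conics of one pencil.
-/

noncomputable section

namespace Pool.Agent.MP_ae5b4e_an_hopf

open Set Filter Topology Real MeasureTheory intervalIntegral
open scoped ContDiff

/-- coordinates of a vector with respect to a basis of the space -/
def crd (e₀ e₁ e₂ : Fin 3 → ℝ) (hD : det3 e₀ e₁ e₂ ≠ 0) : (Fin 3 → ℝ) ≃ₗ[ℝ] (Fin 3 → ℝ) where
  toFun P := ![det3 e₀ P e₂ / det3 e₀ e₁ e₂, det3 e₀ e₁ P / det3 e₀ e₁ e₂,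
    det3 P e₁ e₂ / det3 e₀ e₁ e₂]
  map_add' P Q := by
    ext i
    fin_cases i <;> simp [det3] <;> ring
  map_smul' r P := by
    ext i
    fin_cases i <;> simp [det3] <;> ring
  invFun Q := Q 2 • e₀ + Q 0 • e₁ + Q 1 • e₂
  left_inv P := by
    ext i
    have key : ∀ i, det3 P e₁ e₂ * e₀ i + det3 e₀ P e₂ * e₁ i + det3 e₀ e₁ P * e₂ i =
        det3 e₀ e₁ e₂ * P i := by
      intro i
      fin_cases i <;> simp [det3] <;> ring
    have k := key i
    simp only [Matrix.cons_val, Pi.add_apply, Pi.smul_apply, smul_eq_mul]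
    field_simp
    exact k
  right_inv Q := by
    have k0 : det3 e₀ (Q 2 • e₀ + Q 0 • e₁ + Q 1 • e₂) e₂ = Q 0 * det3 e₀ e₁ e₂ := by
      unfold det3
      simp only [Pi.add_apply, Pi.smul_apply, smul_eq_mul]
      ring
    have k1 : det3 e₀ e₁ (Q 2 • e₀ + Q 0 • e₁ + Q 1 • e₂) = Q 1 * det3 e₀ e₁ e₂ := by
      unfold det3
      simp only [Pi.add_apply, Pi.smul_apply, smul_eq_mul]
      ring
    have k2 : det3 (Q 2 • e₀ + Q 0 • e₁ + Q 1 • e₂) e₁ e₂ = Q 2 * det3 e₀ e₁ e₂ := by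
      unfold det3
      simp only [Pi.add_apply, Pi.smul_apply, smul_eq_mul]
      ring
    show ![det3 e₀ (Q 2 • e₀ + Q 0 • e₁ + Q 1 • e₂) e₂ / det3 e₀ e₁ e₂,
      det3 e₀ e₁ (Q 2 • e₀ + Q 0 • e₁ + Q 1 • e₂) / det3 e₀ e₁ e₂,
      det3 (Q 2 • e₀ + Q 0 • e₁ + Q 1 • e₂) e₁ e₂ / det3 e₀ e₁ e₂] = Q
    rw [k0, k1, k2, mul_div_cancel_right₀ _ hD, mul_div_cancel_right₀ _ hD,
      mul_div_cancel_right₀ _ hD]
    ext i
    fin_cases i <;> rfl

lemma crd_comb {e₀ e₁ e₂ : Fin 3 → ℝ} (hD : det3 e₀ e₁ e₂ ≠ 0) (a b c : ℝ) :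
    crd e₀ e₁ e₂ hD (c • e₀ + a • e₁ + b • e₂) = ![a, b, c] := by
  have h := (crd e₀ e₁ e₂ hD).apply_symm_apply ![a, b, c]
  exact h

lemma exists_cos_sin {X Y : ℝ} (hXY : X ^ 2 + Y ^ 2 = 1) : ∃ θ : ℝ, cos θ = X ∧ sin θ = Y := by
  refine ⟨Complex.arg ⟨X, Y⟩, ?_, ?_⟩
  · have hn : ‖(⟨X, Y⟩ : ℂ)‖ = 1 := by
      rw [Complex.norm_def, Complex.normSq_mk, ← sq, ← sq, hXY, sqrt_one]
    have hne : (⟨X, Y⟩ : ℂ) ≠ 0 := by
      intro h
      rw [h, norm_zero] at hn
      exact zero_ne_one hn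
    rw [Complex.cos_arg hne, hn, div_one]
  · have hn : ‖(⟨X, Y⟩ : ℂ)‖ = 1 := by
      rw [Complex.norm_def, Complex.normSq_mk, ← sq, ← sq, hXY, sqrt_one]
    rw [Complex.sin_arg, hn, div_one]

/-- points of a circle, parametrized by the tangent lines of a concentric smaller circle -/
lemma exists_angle_tangent {X Y ρ w : ℝ} (hρw : 0 < ρ ^ 2 + w ^ 2)
    (hXY : X ^ 2 + Y ^ 2 = ρ ^ 2 + w ^ 2) :
    ∃ θ : ℝ, X = ρ * cos θ - w * sin θ ∧ Y = ρ * sin θ + w * cos θ := by
  have h1 : ((ρ * X + w * Y) / (ρ ^ 2 + w ^ 2)) ^ 2 + ((ρ * Y - w * X) / (ρ ^ 2 + w ^ 2)) ^ 2 =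
      1 := by
    rw [div_pow, div_pow, ← add_div, div_eq_one_iff_eq (by positivity)]
    calc (ρ * X + w * Y) ^ 2 + (ρ * Y - w * X) ^ 2
        = (ρ ^ 2 + w ^ 2) * (X ^ 2 + Y ^ 2) := by ring
      _ = (ρ ^ 2 + w ^ 2) ^ 2 := by rw [hXY]; ring
  obtain ⟨θ, hc, hs⟩ := exists_cos_sin h1
  refine ⟨θ, ?_, ?_⟩
  · rw [hc, hs]
    field_simp
    ring
  · rw [hc, hs]
    field_simp
    ring

variable {Γ : ℝ → Fin 3 → ℝ} {T : ℝ} {U : ℝ → ℝ → ℝ} {κ : ℝ → ℝ}

/-- The curve and the invariant curves are concentric circles in suitable projective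
coordinates. -/
theorem Sys.conics (h : Sys T Γ U κ) :
    ∃ g : (Fin 3 → ℝ) ≃ₗ[ℝ] (Fin 3 → ℝ),
      (∀ P : Fin 3 → ℝ, P ≠ 0 →
        ((∃ t a : ℝ, P = a • Γ t) ↔ g P 0 ^ 2 + g P 1 ^ 2 = g P 2 ^ 2)) ∧
      ∀ c ∈ Ioo (0:ℝ) 1, ∃ R : ℝ, 1 < R ∧ ∀ P : Fin 3 → ℝ, P ≠ 0 →
        ((∃ t a : ℝ, P = a • (U c t • Γ t + deriv Γ t)) ↔
          g P 0 ^ 2 + g P 1 ^ 2 = R ^ 2 * g P 2 ^ 2) := by
  obtain ⟨τ, σ, f, m, S, hf, hm, e1, e2, hS, hWr, hd⟩ := h.normalize
  obtain ⟨w, e₀, e₁, e₂, hw, hD, hG, hU⟩ := hS.rigid hWr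
  set g := crd e₀ e₁ e₂ hD with hg
  have hG' : ∀ t, f t • Γ t = e₀ + cos (w * τ t) • e₁ + sin (w * τ t) • e₂ := by
    intro t
    have k := hG (τ t)
    simp only [e1] at k
    exact k
  have hg0 : ∀ t, g (f t • Γ t) = ![cos (w * τ t), sin (w * τ t), 1] := by
    intro t
    rw [hG' t]
    have k := crd_comb hD (cos (w * τ t)) (sin (w * τ t)) 1
    rw [one_smul] at k
    exact k
  -- a nonzero vector on one of the cones has nonzero last coordinate
  have hlast : ∀ (R : ℝ) (P : Fin 3 → ℝ), P ≠ 0 → g P 0 ^ 2 + g P 1 ^ 2 = R ^ 2 * g P 2 ^ 2 →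
      g P 2 ≠ 0 := by
    intro R P hP hq h2
    rw [h2] at hq
    have h0 : g P 0 = 0 := by nlinarith [sq_nonneg (g P 0), sq_nonneg (g P 1)]
    have h1 : g P 1 = 0 := by nlinarith [sq_nonneg (g P 0), sq_nonneg (g P 1)]
    apply hP
    have : g P = 0 := by
      ext i
      fin_cases i
      · exact h0
      · exact h1
      · exact h2
    exact g.map_eq_zero_iff.1 this
  refine ⟨g, ?_, ?_⟩
  · intro P hP
    constructor
    · rintro ⟨t, a, rfl⟩
      have hn := (hf t).ne'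
      have e : a • Γ t = (a / f t) • (f t • Γ t) := by
        rw [smul_smul, div_mul_cancel₀ _ hn]
      have hs := sin_sq_add_cos_sq (w * τ t)
      rw [e, map_smul, hg0]
      simp only [Matrix.cons_val, Pi.smul_apply, smul_eq_mul]
      linear_combination (a / f t) ^ 2 * hs
    · intro hq
      have hne : g P 2 ≠ 0 := hlast 1 P hP (by rw [hq]; ring)
      have h1 : (g P 0 / g P 2) ^ 2 + (g P 1 / g P 2) ^ 2 = 1 := by
        rw [div_pow, div_pow, ← add_div, hq, div_self (pow_ne_zero 2 hne)]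
      obtain ⟨θ, hc, hs⟩ := exists_cos_sin h1
      have hx : w * τ (σ (θ / w)) = θ := by
        rw [e2]
        field_simp
      refine ⟨σ (θ / w), g P 2 * f (σ (θ / w)), ?_⟩
      apply g.injective
      rw [mul_smul, map_smul, hg0, hx, hc, hs]
      ext i
      fin_cases i
      · simp only [Fin.zero_eta, Matrix.cons_val, Pi.smul_apply, smul_eq_mul]
        field_simp
      · simp only [Fin.mk_one, Matrix.cons_val, Pi.smul_apply, smul_eq_mul]
        field_simp
      · simp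
  · intro c hc
    obtain ⟨ρ, hρ, hUρ⟩ := hU c hc
    have hpos : 0 < ρ ^ 2 + w ^ 2 := by positivity
    -- the vector of the leaf
    have hv : ∀ t, U c t • Γ t + deriv Γ t = (m t / f t) •
        (ρ • e₀ + (ρ * cos (w * τ t) - w * sin (w * τ t)) • e₁ +
          (ρ * sin (w * τ t) + w * cos (w * τ t)) • e₂) := by
      intro t
      have k1 := hd (τ t)
      have k2 : HasDerivAt (fun x => e₀ + cos (w * x) • e₁ + sin (w * x) • e₂)
          ((-sin (w * τ t) * w) • e₁ + (cos (w * τ t) * w) • e₂) (τ t) := by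
        have a1 : HasDerivAt (fun x : ℝ => w * x) w (τ t) := by
          simpa using (hasDerivAt_id (τ t)).const_mul w
        have a2 := (a1.cos.smul_const e₁)
        have a3 := (a1.sin.smul_const e₂)
        have a4 := (a2.const_add e₀).add a3
        exact a4
      have k3 : (fun x => f (σ x) • Γ (σ x)) =
          fun x => e₀ + cos (w * x) • e₁ + sin (w * x) • e₂ := funext hG
      rw [k3] at k1
      have k4 := k1.unique k2
      rw [e1] at k4
      have k5 := hUρ (τ t)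
      simp only [e1] at k5
      have k6 := hG' t
      have hmn := (hm t).ne'
      have hfn := (hf t).ne'
      have k7 : U c t = ρ * m t + κ t / 2 := by
        field_simp at k5
        linarith
      funext i
      have k4i := congrFun k4 i
      have k6i := congrFun k6 i
      simp only [Pi.add_apply, Pi.smul_apply, smul_eq_mul] at k4i k6i ⊢
      rw [k7]
      have hdi : deriv Γ t i = (m t / f t) * (-sin (w * τ t) * w * e₁ i + cos (w * τ t) * w * e₂ i) -
          κ t / 2 * Γ t i := by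
        rw [← k4i]
        field_simp
        ring
      have hΓi : Γ t i = (e₀ i + cos (w * τ t) * e₁ i + sin (w * τ t) * e₂ i) / f t := by
        rw [← k6i]
        field_simp
      rw [hdi]
      have : (ρ * m t + κ t / 2) * Γ t i + ((m t / f t) * (-sin (w * τ t) * w * e₁ i +
          cos (w * τ t) * w * e₂ i) - κ t / 2 * Γ t i) = ρ * m t * Γ t i +
          (m t / f t) * (-sin (w * τ t) * w * e₁ i + cos (w * τ t) * w * e₂ i) := by ring
      rw [this, hΓi]
      ring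
    have hg1 : ∀ t, g (U c t • Γ t + deriv Γ t) = (m t / f t) •
        ![ρ * cos (w * τ t) - w * sin (w * τ t), ρ * sin (w * τ t) + w * cos (w * τ t), ρ] := by
      intro t
      rw [hv t, map_smul]
      congr 1
      exact crd_comb hD _ _ _
    refine ⟨√(ρ ^ 2 + w ^ 2) / ρ, ?_, fun P hP => ?_⟩
    · rw [one_lt_div hρ]
      apply lt_sqrt_of_sq_lt
      nlinarith
    · have hR : (√(ρ ^ 2 + w ^ 2) / ρ) ^ 2 = (ρ ^ 2 + w ^ 2) / ρ ^ 2 := by
        rw [div_pow, sq_sqrt hpos.le]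
      constructor
      · rintro ⟨t, a, rfl⟩
        have hs := sin_sq_add_cos_sq (w * τ t)
        rw [hR, map_smul, hg1]
        simp only [Matrix.cons_val, Pi.smul_apply, smul_eq_mul]
        have hρn := hρ.ne'
        have e : (ρ ^ 2 + w ^ 2) / ρ ^ 2 * (a * (m t / f t * ρ)) ^ 2 =
            (a * (m t / f t)) ^ 2 * (ρ ^ 2 + w ^ 2) := by
          field_simp
        rw [e]
        linear_combination (a * (m t / f t)) ^ 2 * (ρ ^ 2 + w ^ 2) * hs
      · intro hq
        have hne : g P 2 ≠ 0 := hlast _ P hP hq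
        rw [hR] at hq
        have hρn := hρ.ne'
        have h1 : (ρ / g P 2 * g P 0) ^ 2 + (ρ / g P 2 * g P 1) ^ 2 = ρ ^ 2 + w ^ 2 := by
          rw [mul_pow, mul_pow, ← mul_add, hq]
          field_simp
        obtain ⟨θ, hc', hs'⟩ := exists_angle_tangent hpos h1
        have hx : w * τ (σ (θ / w)) = θ := by
          rw [e2]
          field_simp
        set t := σ (θ / w) with ht
        refine ⟨t, g P 2 / ρ * (f t / m t), ?_⟩
        have hmn := (hm t).ne'
        have hfn := (hf t).ne'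
        apply g.injective
        rw [map_smul, hg1, hx, ← hc', ← hs', smul_smul]
        have e : g P 2 / ρ * (f t / m t) * (m t / f t) = g P 2 / ρ := by
          field_simp
        rw [e]
        ext i
        fin_cases i
        · simp only [Fin.zero_eta, Matrix.cons_val, Pi.smul_apply, smul_eq_mul]
          field_simp
        · simp only [Fin.mk_one, Matrix.cons_val, Pi.smul_apply, smul_eq_mul]
          field_simp
        · simp only [Fin.reduceFinMk, Matrix.cons_val, Pi.smul_apply, smul_eq_mul]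
          field_simp

end Pool.Agent.MP_ae5b4e_an_hopf
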