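import Mathlib
import Pool.Agent.Lib.MP_ae5b4e_an_hopf.Final

/-!
Closed convex curves of the plane, their tangent lines in the real projective plane, and families
of closed curves around them.
-/

noncomputable section

namespace Pool.Agent.MP_ae5b4e_an_hopf

open Set Filter Topology Real
open scoped ContDiff

/-- A smooth closed plane curve `t ↦ (x t, y t)` with the period `T`, with positive curvature,
which lies, apart from the tangency point, strictly to the left of each of its (oriented) tangent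
lines. -/
structure ConvexCurve where
  x : ℝ → ℝ
  y : ℝ → ℝ
  T : ℝ
  T_pos : 0 < T
  smooth_x : ContDiff ℝ ∞ x
  smooth_y : ContDiff ℝ ∞ y
  per_x : ∀ t, x (t + T) = x t
  per_y : ∀ t, y (t + T) = y t
  curved : ∀ t, 0 < deriv x t * deriv (deriv y) t - deriv y t * deriv (deriv x) t
  convex : ∀ t s, t < s → s < t + T → 0 < deriv x t * (y s - y t) - deriv y t * (x s - x t)

namespace ConvexCurve

variable (γ : ConvexCurve)

/-- homogeneous coordinates of a point of the tangent line -/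
def hvec (t u : ℝ) : Fin 3 → ℝ := ![u * γ.x t + deriv γ.x t, u * γ.y t + deriv γ.y t, u]

lemma hvec_ne (t u : ℝ) : γ.hvec t u ≠ 0 := by
  intro h
  have h2 : u = 0 := by simpa [hvec] using congrFun h 2
  have h0 : u * γ.x t + deriv γ.x t = 0 := by simpa [hvec] using congrFun h 0
  have h1 : u * γ.y t + deriv γ.y t = 0 := by simpa [hvec] using congrFun h 1
  rw [h2, zero_mul, zero_add] at h0 h1
  have := γ.curved t
  rw [h0, h1] at this
  simp at this

/-- The point with the coordinate `u` of the tangent line to the curve at the parameter `t`: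
`u = ∞` is the tangency point, `u ≠ 0` is the point `(x t, y t) + (x' t, y' t) / u` of the affine
chart, and `u = 0` is the point at infinity. -/
def pt (t u : ℝ) : Projectivization ℝ (Fin 3 → ℝ) :=
  Projectivization.mk ℝ (γ.hvec t u) (γ.hvec_ne t u)

/-- The closed curve that contains the point with the coordinate `U c t` of the tangent line at
`t`, for every `t`. -/
def leaf (U : ℝ → ℝ → ℝ) (c : ℝ) : Set (Projectivization ℝ (Fin 3 → ℝ)) :=
  Set.range fun t => γ.pt t (U c t)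

lemma avec_ne (t : ℝ) : (![γ.x t, γ.y t, 1] : Fin 3 → ℝ) ≠ 0 := by
  intro h
  have h2 : (1:ℝ) = 0 := by simpa using congrFun h 2
  exact one_ne_zero h2

/-- The curve as a set of points of the projective plane. -/
def trace : Set (Projectivization ℝ (Fin 3 → ℝ)) :=
  Set.range fun t => Projectivization.mk ℝ ![γ.x t, γ.y t, 1] (γ.avec_ne t)

/-- the space curve over the plane curve -/
def Γ (t : ℝ) : Fin 3 → ℝ := ![γ.x t, γ.y t, 1]

lemma smooth_Γ : ContDiff ℝ ∞ γ.Γ := by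
  rw [contDiff_pi]
  intro i
  fin_cases i
  · exact γ.smooth_x
  · exact γ.smooth_y
  · exact contDiff_const

lemma hd_x (t : ℝ) : HasDerivAt γ.x (deriv γ.x t) t :=
  ((contDiff_infty_iff_deriv.1 γ.smooth_x).1 t).hasDerivAt
lemma hd_y (t : ℝ) : HasDerivAt γ.y (deriv γ.y t) t :=
  ((contDiff_infty_iff_deriv.1 γ.smooth_y).1 t).hasDerivAt
lemma hd_x' (t : ℝ) : HasDerivAt (deriv γ.x) (deriv (deriv γ.x) t) t :=
  ((contDiff_infty_iff_deriv.1 (contDiff_infty_iff_deriv.1 γ.smooth_x).2).1 t).hasDerivAt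
lemma hd_y' (t : ℝ) : HasDerivAt (deriv γ.y) (deriv (deriv γ.y) t) t :=
  ((contDiff_infty_iff_deriv.1 (contDiff_infty_iff_deriv.1 γ.smooth_y).2).1 t).hasDerivAt

lemma deriv_Γ (t : ℝ) : deriv γ.Γ t = ![deriv γ.x t, deriv γ.y t, 0] := by
  apply HasDerivAt.deriv
  rw [hasDerivAt_pi]
  intro i
  fin_cases i
  · exact γ.hd_x t
  · exact γ.hd_y t
  · exact hasDerivAt_const t 1

lemma deriv2_Γ (t : ℝ) : deriv (deriv γ.Γ) t = ![deriv (deriv γ.x) t, deriv (deriv γ.y) t, 0] := by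
  rw [show deriv γ.Γ = fun t => ![deriv γ.x t, deriv γ.y t, 0] from funext γ.deriv_Γ]
  apply HasDerivAt.deriv
  rw [hasDerivAt_pi]
  intro i
  fin_cases i
  · exact γ.hd_x' t
  · exact γ.hd_y' t
  · exact hasDerivAt_const t 0

lemma hvec_eq (t u : ℝ) : γ.hvec t u = u • γ.Γ t + deriv γ.Γ t := by
  rw [γ.deriv_Γ]
  ext i
  fin_cases i <;> simp [hvec, Γ]

lemma dd_Γ (t s : ℝ) :
    dd γ.Γ t s = deriv γ.x s * (γ.y t - γ.y s) - deriv γ.y s * (γ.x t - γ.x s) := by
  unfold dd det3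
  rw [γ.deriv_Γ]
  simp [Γ]
  ring

lemma isCurve : Curve γ.T γ.Γ where
  T_pos := γ.T_pos
  smooth := γ.smooth_Γ
  per t := by simp only [Γ, γ.per_x, γ.per_y]
  pos t s h1 h2 := by
    rw [γ.dd_Γ]
    have h := γ.convex s (t + γ.T) h2 (by linarith)
    rwa [γ.per_x, γ.per_y] at h
  Wr_pos t := by
    have h := γ.curved t
    unfold Wr det3
    rw [γ.deriv_Γ, γ.deriv2_Γ]
    simp [Γ]
    linarith

/-- A point on two tangent lines. -/
lemma hvec_inter {t s u : ℝ} (h1 : dd γ.Γ t s ≠ 0) (h2 : dd γ.Γ s t ≠ 0)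
    (hL : L1 γ.Γ t s = -u) :
    γ.hvec t u = (-(dd γ.Γ s t / dd γ.Γ t s)) • γ.hvec s (-L1 γ.Γ s t) := by
  rw [hvec_eq, hvec_eq]
  have h0 : u * dd γ.Γ t s + ddx γ.Γ t s = 0 := by
    have : L1 γ.Γ t s * dd γ.Γ t s = ddx γ.Γ t s := by
      unfold L1
      field_simp
    rw [← this, hL]
    ring
  set a := γ.Γ t with ha
  set b := deriv γ.Γ t with hb
  set p := γ.Γ s with hp
  set q := deriv γ.Γ s with hq
  have e1 : dd γ.Γ t s = det3 a p q := rfl
  have e2 : dd γ.Γ s t = det3 p a b := rfl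
  have e3 : ddx γ.Γ t s = det3 b p q := rfl
  have e4 : ddx γ.Γ s t = det3 q a b := rfl
  have e5 : L1 γ.Γ s t = det3 q a b / det3 p a b := rfl
  rw [e1] at h1
  rw [e2] at h2
  rw [e1, e3] at h0
  rw [e1, e2, e5]
  have key : ∀ i, det3 a p q * (u * a i + b i) = det3 q a b * p i - det3 p a b * q i := by
    intro i
    have k : det3 a p q * (u * a i + b i) - (det3 q a b * p i - det3 p a b * q i) =
        (u * det3 a p q + det3 b p q) * a i := by
      fin_cases i <;> simp only [det3, Fin.zero_eta, Fin.mk_one, Fin.reduceFinMk] <;> ring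
    rw [h0, zero_mul, sub_eq_zero] at k
    exact k
  funext i
  have k := key i
  simp only [Pi.add_apply, Pi.smul_apply, smul_eq_mul]
  field_simp
  linear_combination k

lemma pt_inter {t s u : ℝ} (h1 : dd γ.Γ t s ≠ 0) (h2 : dd γ.Γ s t ≠ 0)
    (hL : L1 γ.Γ t s = -u) : γ.pt s (-L1 γ.Γ s t) = γ.pt t u := by
  unfold pt
  rw [Projectivization.mk_eq_mk_iff']
  refine ⟨-(dd γ.Γ t s / dd γ.Γ s t), ?_⟩
  rw [γ.hvec_inter h1 h2 hL, smul_smul]
  have : -(dd γ.Γ t s / dd γ.Γ s t) * -(dd γ.Γ s t / dd γ.Γ t s) = 1 := by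
    field_simp
  rw [this, one_smul]

variable {U : ℝ → ℝ → ℝ} {κ : ℝ → ℝ} {c : ℝ}

/-- The projective involutions give the functional equation. -/
lemma feq_of_proj
    (hsimple : ∀ t t', γ.pt t (U c t) = γ.pt t' (U c t') → ∃ n : ℤ, t' = t + n * γ.T)
    (hproj : ∀ t u v, u ≠ v → γ.pt t u ∈ γ.leaf U c → γ.pt t v ∈ γ.leaf U c → u + v = κ t)
    {t s : ℝ} (hts : t < s) (hst : s < t + γ.T) (hL : L1 γ.Γ t s = -(U c t)) :
    U c s = κ s + L1 γ.Γ s t := by
  have hC := γ.isCurve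
  have n1 := (hC.dd_pos_right hts hst).ne'
  have n2 := (hC.dd_pos_left hts hst).ne'
  have h1 := γ.pt_inter n1 n2 hL
  have hne : U c s ≠ -L1 γ.Γ s t := by
    intro he
    obtain ⟨n, hn⟩ := hsimple t s (by rw [he, h1])
    have hT := γ.T_pos
    have h6 : 0 < (n:ℝ) * γ.T := by linarith
    have h7 : (n:ℝ) * γ.T < 1 * γ.T := by linarith
    have h8 : (0:ℝ) < n := by
      by_contra hneg
      push Not at hneg
      have := mul_nonpos_of_nonpos_of_nonneg hneg hT.le
      linarith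
    have h9 : (n:ℝ) < 1 := lt_of_mul_lt_mul_right h7 hT.le
    have h10 : (0:ℤ) < n := by exact_mod_cast h8
    have h11 : n < 1 := by exact_mod_cast h9
    omega
  have h2 := hproj s (U c s) (-L1 γ.Γ s t) hne ⟨_, rfl⟩ (by rw [h1]; exact ⟨t, rfl⟩)
  linarith

end ConvexCurve

/-- The circle of the radius `R` about the origin of the affine chart, in the projective
coordinates given by the linear map `g`. -/
def circ (g : (Fin 3 → ℝ) ≃ₗ[ℝ] (Fin 3 → ℝ)) (R : ℝ) : Set (Projectivization ℝ (Fin 3 → ℝ)) :=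
  {P | g P.rep 0 ^ 2 + g P.rep 1 ^ 2 = R ^ 2 * g P.rep 2 ^ 2}

/-- A set of points parametrized by vectors. -/
lemma range_eq_circ {g : (Fin 3 → ℝ) ≃ₗ[ℝ] (Fin 3 → ℝ)} {R : ℝ} {v : ℝ → Fin 3 → ℝ}
    (hv : ∀ t, v t ≠ 0)
    (h : ∀ P : Fin 3 → ℝ, P ≠ 0 → ((∃ t a : ℝ, P = a • v t) ↔
      g P 0 ^ 2 + g P 1 ^ 2 = R ^ 2 * g P 2 ^ 2)) :
    (Set.range fun t => Projectivization.mk ℝ (v t) (hv t)) = circ g R := by
  ext P
  show _ ↔ g P.rep 0 ^ 2 + g P.rep 1 ^ 2 = R ^ 2 * g P.rep 2 ^ 2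
  rw [← h P.rep P.rep_nonzero]
  constructor
  · rintro ⟨t, rfl⟩
    obtain ⟨a, ha⟩ := Projectivization.exists_smul_eq_mk_rep ℝ (v t) (hv t)
    exact ⟨t, a, ha.symm⟩
  · rintro ⟨t, a, ha⟩
    refine ⟨t, ?_⟩
    show Projectivization.mk ℝ (v t) (hv t) = P
    have ha0 : a ≠ 0 := by
      rintro rfl
      rw [zero_smul] at ha
      exact P.rep_nonzero ha
    rw [← Projectivization.mk_rep P, Projectivization.mk_eq_mk_iff']
    refine ⟨a⁻¹, ?_⟩
    rw [ha, smul_smul, inv_mul_cancel₀ ha0, one_smul]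

end Pool.Agent.MP_ae5b4e_an_hopf
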